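import Pool.Agent.Lib.MP_478c11_gt.G.Spec
import Pool.Agent.Lib.MP_478c11_gt.M.BNP
import Pool.Agent.Lib.MP_478c11_gt.MAN

section
set_option autoImplicit false

/-!
Module FR2 of MP_478c11_gt, part G (helper93): Codazzi and Gauss equations of a strip in arbitrary
coordinates.
-/

open Real MeasureTheory Set Filter Topology
open scoped ContDiff InnerProductSpace Manifold

namespace Rim478

namespace FR2M

open CRSM

/-! ### vector algebra -/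

lemma i1 (x y a b : E3) : (⟪x, x⟫_ℝ * ⟪y, y⟫_ℝ - ⟪x, y⟫_ℝ ^ 2) * ⟪b, cr a y⟫_ℝ =
    -⟪a, cr x y⟫_ℝ * (⟪y, y⟫_ℝ * ⟪b, x⟫_ℝ - ⟪x, y⟫_ℝ * ⟪b, y⟫_ℝ) +
      (⟪y, y⟫_ℝ * ⟪a, x⟫_ℝ - ⟪x, y⟫_ℝ * ⟪a, y⟫_ℝ) * ⟪b, cr x y⟫_ℝ := by
  simp only [inn3, cr0, cr1, cr2]
  ring

lemma i2 (x y a b : E3) : (⟪x, x⟫_ℝ * ⟪y, y⟫_ℝ - ⟪x, y⟫_ℝ ^ 2) * ⟪b, cr x a⟫_ℝ =
    -⟪a, cr x y⟫_ℝ * (⟪x, x⟫_ℝ * ⟪b, y⟫_ℝ - ⟪x, y⟫_ℝ * ⟪b, x⟫_ℝ) +
      (⟪x, x⟫_ℝ * ⟪a, y⟫_ℝ - ⟪x, y⟫_ℝ * ⟪a, x⟫_ℝ) * ⟪b, cr x y⟫_ℝ := by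
  simp only [inn3, cr0, cr1, cr2]
  ring

lemma i3 (x y a b : E3) : (⟪x, x⟫_ℝ * ⟪y, y⟫_ℝ - ⟪x, y⟫_ℝ ^ 2) * ⟪a, b⟫_ℝ =
    ⟪a, cr x y⟫_ℝ * ⟪b, cr x y⟫_ℝ + (⟪y, y⟫_ℝ * ⟪a, x⟫_ℝ - ⟪x, y⟫_ℝ * ⟪a, y⟫_ℝ) * ⟪b, x⟫_ℝ +
      (⟪x, x⟫_ℝ * ⟪a, y⟫_ℝ - ⟪x, y⟫_ℝ * ⟪a, x⟫_ℝ) * ⟪b, y⟫_ℝ := by
  simp only [inn3, cr0, cr1, cr2]
  ring

lemma i4 (x y : E3) : ⟪cr x y, cr x y⟫_ℝ = ⟪x, x⟫_ℝ * ⟪y, y⟫_ℝ - ⟪x, y⟫_ℝ ^ 2 := by
  simp only [inn3, cr0, cr1, cr2]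
  ring

lemma i5 (a b : E3) : ⟪a, cr a b⟫_ℝ = 0 := by
  simp only [inn3, cr0, cr1, cr2]
  ring

lemma i6 (a b : E3) : ⟪a, cr b a⟫_ℝ = 0 := by
  simp only [inn3, cr0, cr1, cr2]
  ring

lemma i7 (a b x : E3) : ⟪a, cr x b⟫_ℝ = -⟪b, cr x a⟫_ℝ := by
  simp only [inn3, cr0, cr1, cr2]
  ring

lemma i8 (a b y : E3) : ⟪a, cr b y⟫_ℝ = -⟪b, cr a y⟫_ℝ := by
  simp only [inn3, cr0, cr1, cr2]
  ring

/-! ### the coefficients -/

/-- `EG - F²` -/
noncomputable def W (Z : ℝ → ℝ → E3) (t θ : ℝ) : ℝ :=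
  ⟪pt Z t θ, pt Z t θ⟫_ℝ * ⟪ph Z t θ, ph Z t θ⟫_ℝ - ⟪pt Z t θ, ph Z t θ⟫_ℝ ^ 2

/-- first tangential component times `W` -/
noncomputable def c1 (Z U : ℝ → ℝ → E3) (t θ : ℝ) : ℝ :=
  ⟪ph Z t θ, ph Z t θ⟫_ℝ * ⟪U t θ, pt Z t θ⟫_ℝ - ⟪pt Z t θ, ph Z t θ⟫_ℝ * ⟪U t θ, ph Z t θ⟫_ℝ

/-- second tangential component times `W` -/
noncomputable def c2 (Z U : ℝ → ℝ → E3) (t θ : ℝ) : ℝ :=
  ⟪pt Z t θ, pt Z t θ⟫_ℝ * ⟪U t θ, ph Z t θ⟫_ℝ - ⟪pt Z t θ, ph Z t θ⟫_ℝ * ⟪U t θ, pt Z t θ⟫_ℝ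

section
variable (hD : SpecDR2) (hC : SpecCRS) {J : Set ℝ} (hJ : IsOpen J)

lemma hda {f : ℝ → E3} {f' : E3} {t : ℝ} (h : ∀ i, HasDerivAt (fun s => f s i) (f' i) t) :
    HasDerivAt f f' t := by
  have h1 : HasDerivAt (fun s => (fun i => f s i : Fin 3 → ℝ)) (fun i => f' i) t := hasDerivAt_pi.2 h
  exact (EuclideanSpace.equiv (Fin 3) ℝ).symm.hasFDerivAt.comp_hasDerivAt t h1

lemma hdi {f : ℝ → E3} {f' : E3} {t : ℝ} (h : HasDerivAt f f' t) (i : Fin 3) :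
    HasDerivAt (fun s => f s i) (f' i) t := by
  have h1 := (EuclideanSpace.equiv (Fin 3) ℝ).hasFDerivAt.comp_hasDerivAt t h
  exact hasDerivAt_pi.1 h1 i

lemma cpr {u v : ℝ → ℝ → E3} {t θ : ℝ} {u' v' : E3} (hu : HasDerivAt (fun s => u s θ) u' t)
    (hv : HasDerivAt (fun s => v s θ) v' t) :
    HasDerivAt (fun s => cr (u s θ) (v s θ)) (cr u' (v t θ) + cr (u t θ) v') t := by
  apply hda
  have hu := hdi hu
  have hv := hdi hv
  intro i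
  fin_cases i
  · have := ((hu 1).mul (hv 2)).sub ((hu 2).mul (hv 1))
    refine this.congr_deriv ?_
    show _ = (cr u' (v t θ) + cr (u t θ) v') 0
    rw [PiLp.add_apply, cr0, cr0]; ring
  · have := ((hu 2).mul (hv 0)).sub ((hu 0).mul (hv 2))
    refine this.congr_deriv ?_
    show _ = (cr u' (v t θ) + cr (u t θ) v') 1
    rw [PiLp.add_apply, cr1, cr1]; ring
  · have := ((hu 0).mul (hv 1)).sub ((hu 1).mul (hv 0))
    refine this.congr_deriv ?_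
    show _ = (cr u' (v t θ) + cr (u t θ) v') 2
    rw [PiLp.add_apply, cr2, cr2]; ring

lemma cph {u v : ℝ → ℝ → E3} {t θ : ℝ} {u' v' : E3} (hu : HasDerivAt (fun s => u t s) u' θ)
    (hv : HasDerivAt (fun s => v t s) v' θ) :
    HasDerivAt (fun s => cr (u t s) (v t s)) (cr u' (v t θ) + cr (u t θ) v') θ :=
  cpr (u := fun a b => u b a) (v := fun a b => v b a) hu hv

include hD hJ

lemma ptN {Z : ℝ → ℝ → E3} (hZ : SJ J Z) {t : ℝ} (ht : t ∈ J) (θ : ℝ) :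
    pt (cN Z) t θ = cr (pt (pt Z) t θ) (ph Z t θ) + cr (pt Z t θ) (ph (pt Z) t θ) := by
  have h := (cpr (hD.hpt hJ (hD.spt hJ hZ) t ht θ) (hD.hpt hJ (hD.sph hJ hZ) t ht θ)).deriv
  rw [hD.comm hJ hZ t ht θ] at h
  exact h

lemma phN {Z : ℝ → ℝ → E3} (hZ : SJ J Z) {t : ℝ} (ht : t ∈ J) (θ : ℝ) :
    ph (cN Z) t θ = cr (ph (pt Z) t θ) (ph Z t θ) + cr (pt Z t θ) (ph (ph Z) t θ) :=
  (cph (hD.hph hJ (hD.spt hJ hZ) t ht θ) (hD.hph hJ (hD.sph hJ hZ) t ht θ)).deriv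

include hC

lemma sN {Z : ℝ → ℝ → E3} (hZ : SJ J Z) : SJ J (cN Z) :=
  FRMM.scr hC (hD.spt hJ hZ) (hD.sph hJ hZ)

lemma sgl {Z : ℝ → ℝ → E3} (hZ : SJ J Z) : SJ J (gl Z) :=
  FRMM.sinn (hD.spt hJ (hD.spt hJ hZ)) (sN hD hC hJ hZ)

lemma sgm {Z : ℝ → ℝ → E3} (hZ : SJ J Z) : SJ J (gm Z) :=
  FRMM.sinn (hD.sph hJ (hD.spt hJ hZ)) (sN hD hC hJ hZ)

lemma sgn {Z : ℝ → ℝ → E3} (hZ : SJ J Z) : SJ J (gn Z) :=
  FRMM.sinn (hD.sph hJ (hD.sph hJ hZ)) (sN hD hC hJ hZ)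

lemma sgk {Z : ℝ → ℝ → E3} (hZ : SJ J Z) : SJ J (gk Z) := by
  have h1 := ContDiffOn.sub (ContDiffOn.mul (sgl hD hC hJ hZ) (sgn hD hC hJ hZ))
    (ContDiffOn.pow (sgm hD hC hJ hZ) 2)
  exact h1

/-- the first Codazzi equation -/
lemma cod1 {Z : ℝ → ℝ → E3} (hZ : SJ J Z) {t : ℝ} (ht : t ∈ J) (θ : ℝ) :
    W Z t θ * (pt (gn Z) t θ - ph (gm Z) t θ) =
      -c1 Z (ph (ph Z)) t θ * gl Z t θ - 2 * c2 Z (ph (ph Z)) t θ * gm Z t θ +
        (c1 Z (pt (pt Z)) t θ + 2 * c2 Z (ph (pt Z)) t θ) * gn Z t θ := by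
  have h1 : pt (gn Z) t θ = ⟪ph (ph Z) t θ, pt (cN Z) t θ⟫_ℝ + ⟪pt (ph (ph Z)) t θ, cN Z t θ⟫_ℝ :=
    FRMM.pinn hD hJ (hD.sph hJ (hD.sph hJ hZ)) (sN hD hC hJ hZ) ht θ
  have h2 : ph (gm Z) t θ = ⟪ph (pt Z) t θ, ph (cN Z) t θ⟫_ℝ + ⟪ph (ph (pt Z)) t θ, cN Z t θ⟫_ℝ :=
    FRMM.hinn hD hJ (hD.sph hJ (hD.spt hJ hZ)) (sN hD hC hJ hZ) ht θ
  have h3 : pt (ph (ph Z)) t θ = ph (ph (pt Z)) t θ := by
    rw [hD.comm hJ (hD.sph hJ hZ) t ht θ]
    exact hD.hcg (J := J) (fun t ht θ => hD.comm hJ hZ t ht θ) t ht θ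
  rw [h1, h2, h3, ptN hD hJ hZ ht θ, phN hD hJ hZ ht θ, inner_add_right, inner_add_right, i5, zero_add,
    i7 (ph (pt Z) t θ) (ph (ph Z) t θ) (pt Z t θ)]
  have e1 := i1 (pt Z t θ) (ph Z t θ) (pt (pt Z) t θ) (ph (ph Z) t θ)
  have e2 := i2 (pt Z t θ) (ph Z t θ) (ph (pt Z) t θ) (ph (ph Z) t θ)
  unfold W c1 c2 gl gm gn cN
  linear_combination e1 + 2 * e2

/-- the second Codazzi equation -/
lemma cod2 {Z : ℝ → ℝ → E3} (hZ : SJ J Z) {t : ℝ} (ht : t ∈ J) (θ : ℝ) :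
    W Z t θ * (pt (gm Z) t θ - ph (gl Z) t θ) =
      (-2 * c1 Z (ph (pt Z)) t θ - c2 Z (ph (ph Z)) t θ) * gl Z t θ +
        2 * c1 Z (pt (pt Z)) t θ * gm Z t θ + c2 Z (pt (pt Z)) t θ * gn Z t θ := by
  have h1 : pt (gm Z) t θ = ⟪ph (pt Z) t θ, pt (cN Z) t θ⟫_ℝ + ⟪pt (ph (pt Z)) t θ, cN Z t θ⟫_ℝ :=
    FRMM.pinn hD hJ (hD.sph hJ (hD.spt hJ hZ)) (sN hD hC hJ hZ) ht θ
  have h2 : ph (gl Z) t θ = ⟪pt (pt Z) t θ, ph (cN Z) t θ⟫_ℝ + ⟪ph (pt (pt Z)) t θ, cN Z t θ⟫_ℝ :=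
    FRMM.hinn hD hJ (hD.spt hJ (hD.spt hJ hZ)) (sN hD hC hJ hZ) ht θ
  rw [h1, h2, hD.comm hJ (hD.spt hJ hZ) t ht θ, ptN hD hJ hZ ht θ, phN hD hJ hZ ht θ, inner_add_right,
    inner_add_right, i6, add_zero, i8 (pt (pt Z) t θ) (ph (pt Z) t θ) (ph Z t θ)]
  have e1 := i1 (pt Z t θ) (ph Z t θ) (pt (pt Z) t θ) (ph (pt Z) t θ)
  have e2 := i2 (pt Z t θ) (ph Z t θ) (ph (ph Z) t θ) (pt (pt Z) t θ)
  unfold W c1 c2 gl gm gn cN
  linear_combination 2 * e1 - e2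

omit hC in
/-- the Gauss equation -/
lemma gau {Z : ℝ → ℝ → E3} (hZ : SJ J Z) {t : ℝ} (ht : t ∈ J) (θ : ℝ) :
    gk Z t θ = W Z t θ * (ph (fun t θ => ⟪pt (pt Z) t θ, ph Z t θ⟫_ℝ) t θ -
        pt (fun t θ => ⟪ph (pt Z) t θ, ph Z t θ⟫_ℝ) t θ) -
      (c1 Z (pt (pt Z)) t θ * ⟪ph (ph Z) t θ, pt Z t θ⟫_ℝ +
        c2 Z (pt (pt Z)) t θ * ⟪ph (ph Z) t θ, ph Z t θ⟫_ℝ) +
      (c1 Z (ph (pt Z)) t θ * ⟪ph (pt Z) t θ, pt Z t θ⟫_ℝ +
        c2 Z (ph (pt Z)) t θ * ⟪ph (pt Z) t θ, ph Z t θ⟫_ℝ) := by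
  have h1 := FRMM.hinn hD hJ (hD.spt hJ (hD.spt hJ hZ)) (hD.sph hJ hZ) ht θ
  have h2 := FRMM.pinn hD hJ (hD.sph hJ (hD.spt hJ hZ)) (hD.sph hJ hZ) ht θ
  rw [hD.comm hJ (hD.spt hJ hZ) t ht θ, hD.comm hJ hZ t ht θ] at h2
  rw [h1, h2]
  have e1 := i3 (pt Z t θ) (ph Z t θ) (pt (pt Z) t θ) (ph (ph Z) t θ)
  have e2 := i3 (pt Z t θ) (ph Z t θ) (ph (pt Z) t θ) (ph (pt Z) t θ)
  unfold W c1 c2 gk gl gm gn cN
  linear_combination -e1 + e2

end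

/-! ### the Christoffel symbols are intrinsic -/

section
variable (hD : SpecDR2) {J : Set ℝ} (hJ : IsOpen J) {X Y : ℝ → ℝ → E3} (h : SI J X Y)
include hD hJ h

lemma g111 {t : ℝ} (ht : t ∈ J) (θ : ℝ) : ⟪pt (pt Y) t θ, pt Y t θ⟫_ℝ = ⟪pt (pt X) t θ, pt X t θ⟫_ℝ := by
  have h1 := hD.pcg hJ h.tt t ht θ
  rw [FRMM.pinn hD hJ (hD.spt hJ h.sY) (hD.spt hJ h.sY) ht θ,
    FRMM.pinn hD hJ (hD.spt hJ h.sX) (hD.spt hJ h.sX) ht θ,
    real_inner_comm (pt (pt Y) t θ) (pt Y t θ), real_inner_comm (pt (pt X) t θ) (pt X t θ)] at h1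
  linarith

lemma g121 {t : ℝ} (ht : t ∈ J) (θ : ℝ) : ⟪ph (pt Y) t θ, pt Y t θ⟫_ℝ = ⟪ph (pt X) t θ, pt X t θ⟫_ℝ := by
  have h1 := hD.hcg (J := J) h.tt t ht θ
  rw [FRMM.hinn hD hJ (hD.spt hJ h.sY) (hD.spt hJ h.sY) ht θ,
    FRMM.hinn hD hJ (hD.spt hJ h.sX) (hD.spt hJ h.sX) ht θ,
    real_inner_comm (ph (pt Y) t θ) (pt Y t θ), real_inner_comm (ph (pt X) t θ) (pt X t θ)] at h1
  linarith

lemma g122 {t : ℝ} (ht : t ∈ J) (θ : ℝ) : ⟪ph (pt Y) t θ, ph Y t θ⟫_ℝ = ⟪ph (pt X) t θ, ph X t θ⟫_ℝ := by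
  have h1 := hD.pcg hJ h.hh t ht θ
  rw [FRMM.pinn hD hJ (hD.sph hJ h.sY) (hD.sph hJ h.sY) ht θ,
    FRMM.pinn hD hJ (hD.sph hJ h.sX) (hD.sph hJ h.sX) ht θ,
    hD.comm hJ h.sY t ht θ, hD.comm hJ h.sX t ht θ,
    real_inner_comm (ph (pt Y) t θ) (ph Y t θ), real_inner_comm (ph (pt X) t θ) (ph X t θ)] at h1
  linarith

lemma g222 {t : ℝ} (ht : t ∈ J) (θ : ℝ) : ⟪ph (ph Y) t θ, ph Y t θ⟫_ℝ = ⟪ph (ph X) t θ, ph X t θ⟫_ℝ := by
  have h1 := hD.hcg (J := J) h.hh t ht θ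
  rw [FRMM.hinn hD hJ (hD.sph hJ h.sY) (hD.sph hJ h.sY) ht θ,
    FRMM.hinn hD hJ (hD.sph hJ h.sX) (hD.sph hJ h.sX) ht θ,
    real_inner_comm (ph (ph Y) t θ) (ph Y t θ), real_inner_comm (ph (ph X) t θ) (ph X t θ)] at h1
  linarith

lemma g112 {t : ℝ} (ht : t ∈ J) (θ : ℝ) : ⟪pt (pt Y) t θ, ph Y t θ⟫_ℝ = ⟪pt (pt X) t θ, ph X t θ⟫_ℝ := by
  have h1 := hD.pcg hJ h.th t ht θ
  rw [FRMM.pinn hD hJ (hD.spt hJ h.sY) (hD.sph hJ h.sY) ht θ,
    FRMM.pinn hD hJ (hD.spt hJ h.sX) (hD.sph hJ h.sX) ht θ,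
    hD.comm hJ h.sY t ht θ, hD.comm hJ h.sX t ht θ,
    real_inner_comm (ph (pt Y) t θ) (pt Y t θ), real_inner_comm (ph (pt X) t θ) (pt X t θ),
    g121 hD hJ h ht θ] at h1
  linarith

lemma g221 {t : ℝ} (ht : t ∈ J) (θ : ℝ) : ⟪ph (ph Y) t θ, pt Y t θ⟫_ℝ = ⟪ph (ph X) t θ, pt X t θ⟫_ℝ := by
  have h1 := hD.hcg (J := J) h.th t ht θ
  rw [FRMM.hinn hD hJ (hD.spt hJ h.sY) (hD.sph hJ h.sY) ht θ,
    FRMM.hinn hD hJ (hD.spt hJ h.sX) (hD.sph hJ h.sX) ht θ,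
    real_inner_comm (ph (ph Y) t θ) (pt Y t θ), real_inner_comm (ph (ph X) t θ) (pt X t θ),
    g122 hD hJ h ht θ] at h1
  linarith

omit hD hJ in
lemma Weq {t : ℝ} (ht : t ∈ J) (θ : ℝ) : W Y t θ = W X t θ := by
  unfold W
  rw [h.tt t ht θ, h.th t ht θ, h.hh t ht θ]

omit hD hJ in
lemma Wne {t : ℝ} (ht : t ∈ J) (θ : ℝ) : W X t θ ≠ 0 := by
  have h1 := i4 (pt X t θ) (ph X t θ)
  have h2 : W X t θ = ⟪cN X t θ, cN X t θ⟫_ℝ := h1.symm
  rw [h2]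
  exact inner_self_ne_zero.2 (h.im t ht θ)

omit hD hJ in
lemma imY {t : ℝ} (ht : t ∈ J) (θ : ℝ) : cN Y t θ ≠ 0 := by
  have h1 := i4 (pt Y t θ) (ph Y t θ)
  have h2 : W Y t θ = ⟪cN Y t θ, cN Y t θ⟫_ℝ := h1.symm
  have h3 := Wne h ht θ
  rw [← Weq h ht θ, h2] at h3
  exact inner_self_ne_zero.1 h3

lemma gke {t : ℝ} (ht : t ∈ J) (θ : ℝ) : gk Y t θ = gk X t θ := by
  have e1 := hD.hcg (J := J) (fun t ht θ => g112 hD hJ h ht θ) t ht θ
  have e2 := hD.pcg hJ (fun t ht θ => g122 hD hJ h ht θ) t ht θ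
  rw [gau hD hJ h.sY ht θ, gau hD hJ h.sX ht θ, e1, e2, Weq h ht θ]
  unfold c1 c2
  rw [h.tt t ht θ, h.th t ht θ, h.hh t ht θ, g111 hD hJ h ht θ, g112 hD hJ h ht θ, g121 hD hJ h ht θ,
    g122 hD hJ h ht θ, g221 hD hJ h ht θ, g222 hD hJ h ht θ]

lemma sW : SJ J (W X) := by
  have h1 := ContDiffOn.sub (ContDiffOn.mul (FRMM.sinn (hD.spt hJ h.sX) (hD.spt hJ h.sX))
    (FRMM.sinn (hD.sph hJ h.sX) (hD.sph hJ h.sX)))
    (ContDiffOn.pow (FRMM.sinn (hD.spt hJ h.sX) (hD.sph hJ h.sX)) 2)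
  exact h1

lemma sc1 {U : ℝ → ℝ → E3} (hU : SJ J U) : SJ J (c1 X U) := by
  have h1 := ContDiffOn.sub (ContDiffOn.mul (FRMM.sinn (hD.sph hJ h.sX) (hD.sph hJ h.sX))
    (FRMM.sinn hU (hD.spt hJ h.sX)))
    (ContDiffOn.mul (FRMM.sinn (hD.spt hJ h.sX) (hD.sph hJ h.sX)) (FRMM.sinn hU (hD.sph hJ h.sX)))
  exact h1

lemma sc2 {U : ℝ → ℝ → E3} (hU : SJ J U) : SJ J (c2 X U) := by
  have h1 := ContDiffOn.sub (ContDiffOn.mul (FRMM.sinn (hD.spt hJ h.sX) (hD.spt hJ h.sX))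
    (FRMM.sinn hU (hD.sph hJ h.sX)))
    (ContDiffOn.mul (FRMM.sinn (hD.spt hJ h.sX) (hD.sph hJ h.sX)) (FRMM.sinn hU (hD.spt hJ h.sX)))
  exact h1

lemma pW : Per J (W X) := by
  intro t ht θ
  unfold W
  rw [hD.perp hJ h.pX t ht θ, hD.perh h.pX t ht θ]

lemma pc1 {U : ℝ → ℝ → E3} (hU : Per J U) : Per J (c1 X U) := by
  intro t ht θ
  unfold c1
  rw [hD.perp hJ h.pX t ht θ, hD.perh h.pX t ht θ, hU t ht θ]

lemma pc2 {U : ℝ → ℝ → E3} (hU : Per J U) : Per J (c2 X U) := by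
  intro t ht θ
  unfold c2
  rw [hD.perp hJ h.pX t ht θ, hD.perh h.pX t ht θ, hU t ht θ]

lemma sdv {f : ℝ → ℝ → ℝ} (hf : SJ J f) : SJ J (fun t θ => f t θ * (W X t θ)⁻¹) :=
  FRMM.smulr hf (FRMM.sinv (sW hD hJ h) (fun _ ht θ => Wne h ht θ))

lemma pdv {f : ℝ → ℝ → ℝ} (hf : Per J f) : Per J (fun t θ => f t θ * (W X t θ)⁻¹) := by
  intro t ht θ
  show f t (θ + 2 * π) * (W X t (θ + 2 * π))⁻¹ = _
  rw [hf t ht θ, pW hD hJ h t ht θ]

end

end FR2M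

open FR2M in
theorem specFR2 (hD : SpecDR2) (hC : SpecCRS) : SpecFR2 where
  sm := fun hJ hX => ⟨sN hD hC hJ hX, sgl hD hC hJ hX, sgm hD hC hJ hX, sgn hD hC hJ hX, sgk hD hC hJ hX⟩
  per := by
    intro J X hJ hX
    have h1 := hD.perp hJ hX
    have h2 := hD.perh hX
    have h3 := hD.perp hJ h1
    have h4 := hD.perh h1
    have h5 := hD.perh h2
    have hN : Per J (cN X) := by
      intro t ht θ
      unfold cN
      rw [h1 t ht θ, h2 t ht θ]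
    have hl : Per J (gl X) := by
      intro t ht θ
      unfold gl
      rw [h3 t ht θ, hN t ht θ]
    have hm : Per J (gm X) := by
      intro t ht θ
      unfold gm
      rw [h4 t ht θ, hN t ht θ]
    have hn : Per J (gn X) := by
      intro t ht θ
      unfold gn
      rw [h5 t ht θ, hN t ht θ]
    refine ⟨hN, hl, hm, hn, ?_⟩
    intro t ht θ
    unfold gk
    rw [hl t ht θ, hm t ht θ, hn t ht θ]
  cod := by
    intro J X Y hJ h
    have s1 := hD.spt hJ h.sX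
    have s2 := hD.sph hJ h.sX
    have s11 := hD.spt hJ s1
    have s12 := hD.sph hJ s1
    have s22 := hD.sph hJ s2
    have p1 := hD.perp hJ h.pX
    have p2 := hD.perh h.pX
    have p11 := hD.perp hJ p1
    have p12 := hD.perh p1
    have p22 := hD.perh p2
    refine ⟨fun t θ => -c1 X (ph (ph X)) t θ * (W X t θ)⁻¹,
      fun t θ => -(2 * c2 X (ph (ph X)) t θ) * (W X t θ)⁻¹,
      fun t θ => (c1 X (pt (pt X)) t θ + 2 * c2 X (ph (pt X)) t θ) * (W X t θ)⁻¹,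
      fun t θ => (-(2 * c1 X (ph (pt X)) t θ) - c2 X (ph (ph X)) t θ) * (W X t θ)⁻¹,
      fun t θ => 2 * c1 X (pt (pt X)) t θ * (W X t θ)⁻¹,
      fun t θ => c2 X (pt (pt X)) t θ * (W X t θ)⁻¹, ?_, ?_, ?_⟩
    · have two : SJ J (fun _ _ => (2 : ℝ)) := by
        unfold SJ
        exact contDiffOn_const
      refine ⟨sdv hD hJ h (f := fun t θ => -c1 X (ph (ph X)) t θ) (ContDiffOn.neg (sc1 hD hJ h s22)),
        sdv hD hJ h (f := fun t θ => -(2 * c2 X (ph (ph X)) t θ))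
          (ContDiffOn.neg (FRMM.smulr two (sc2 hD hJ h s22))),
        sdv hD hJ h (f := fun t θ => c1 X (pt (pt X)) t θ + 2 * c2 X (ph (pt X)) t θ)
          (ContDiffOn.add (sc1 hD hJ h s11) (FRMM.smulr two (sc2 hD hJ h s12))),
        sdv hD hJ h (f := fun t θ => -(2 * c1 X (ph (pt X)) t θ) - c2 X (ph (ph X)) t θ)
          (ContDiffOn.sub (ContDiffOn.neg (FRMM.smulr two (sc1 hD hJ h s12))) (sc2 hD hJ h s22)),
        sdv hD hJ h (f := fun t θ => 2 * c1 X (pt (pt X)) t θ) (FRMM.smulr two (sc1 hD hJ h s11)),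
        sdv hD hJ h (sc2 hD hJ h s11)⟩
    · refine ⟨pdv hD hJ h (f := fun t θ => -c1 X (ph (ph X)) t θ) ?_,
        pdv hD hJ h (f := fun t θ => -(2 * c2 X (ph (ph X)) t θ)) ?_,
        pdv hD hJ h (f := fun t θ => c1 X (pt (pt X)) t θ + 2 * c2 X (ph (pt X)) t θ) ?_,
        pdv hD hJ h (f := fun t θ => -(2 * c1 X (ph (pt X)) t θ) - c2 X (ph (ph X)) t θ) ?_,
        pdv hD hJ h (f := fun t θ => 2 * c1 X (pt (pt X)) t θ) ?_,
        pdv hD hJ h (pc2 hD hJ h p11)⟩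
      · intro t ht θ
        simp only [pc1 hD hJ h p22 t ht θ]
      · intro t ht θ
        simp only [pc2 hD hJ h p22 t ht θ]
      · intro t ht θ
        simp only [pc1 hD hJ h p11 t ht θ, pc2 hD hJ h p12 t ht θ]
      · intro t ht θ
        simp only [pc1 hD hJ h p12 t ht θ, pc2 hD hJ h p22 t ht θ]
      · intro t ht θ
        simp only [pc1 hD hJ h p11 t ht θ]
    · intro Z hZ t ht θ
      have hW := Wne h ht θ
      have key : SJ J Z ∧ W Z t θ = W X t θ ∧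
          (∀ U V : ℝ → ℝ → E3, ⟪U t θ, pt Z t θ⟫_ℝ = ⟪V t θ, pt X t θ⟫_ℝ →
            ⟪U t θ, ph Z t θ⟫_ℝ = ⟪V t θ, ph X t θ⟫_ℝ → c1 Z U t θ = c1 X V t θ ∧
            c2 Z U t θ = c2 X V t θ) ∧
          (⟪pt (pt Z) t θ, pt Z t θ⟫_ℝ = ⟪pt (pt X) t θ, pt X t θ⟫_ℝ ∧
            ⟪pt (pt Z) t θ, ph Z t θ⟫_ℝ = ⟪pt (pt X) t θ, ph X t θ⟫_ℝ) ∧
          (⟪ph (pt Z) t θ, pt Z t θ⟫_ℝ = ⟪ph (pt X) t θ, pt X t θ⟫_ℝ ∧
            ⟪ph (pt Z) t θ, ph Z t θ⟫_ℝ = ⟪ph (pt X) t θ, ph X t θ⟫_ℝ) ∧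
          (⟪ph (ph Z) t θ, pt Z t θ⟫_ℝ = ⟪ph (ph X) t θ, pt X t θ⟫_ℝ ∧
            ⟪ph (ph Z) t θ, ph Z t θ⟫_ℝ = ⟪ph (ph X) t θ, ph X t θ⟫_ℝ) := by
        rcases hZ with rfl | rfl
        · refine ⟨h.sX, rfl, ?_, ⟨rfl, rfl⟩, ⟨rfl, rfl⟩, ⟨rfl, rfl⟩⟩
          intro U V a1 a2
          unfold c1 c2
          rw [a1, a2]
          exact ⟨rfl, rfl⟩
        · refine ⟨h.sY, Weq h ht θ, ?_, ⟨g111 hD hJ h ht θ, g112 hD hJ h ht θ⟩,
            ⟨g121 hD hJ h ht θ, g122 hD hJ h ht θ⟩, ⟨g221 hD hJ h ht θ, g222 hD hJ h ht θ⟩⟩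
          intro U V a1 a2
          unfold c1 c2
          rw [a1, a2, h.tt t ht θ, h.th t ht θ, h.hh t ht θ]
          exact ⟨rfl, rfl⟩
      obtain ⟨sZ, eW, ec, e11, e12, e22⟩ := key
      have k1 := cod1 hD hC hJ sZ ht θ
      have k2 := cod2 hD hC hJ sZ ht θ
      obtain ⟨a1, a2⟩ := ec _ _ e11.1 e11.2
      obtain ⟨a3, a4⟩ := ec _ _ e12.1 e12.2
      obtain ⟨a5, a6⟩ := ec _ _ e22.1 e22.2
      rw [eW, a1, a4, a5, a6] at k1
      rw [eW, a1, a2, a3, a6] at k2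
      constructor
      · have k3 : pt (gn Z) t θ - ph (gm Z) t θ = (-c1 X (ph (ph X)) t θ * gl Z t θ -
            2 * c2 X (ph (ph X)) t θ * gm Z t θ +
            (c1 X (pt (pt X)) t θ + 2 * c2 X (ph (pt X)) t θ) * gn Z t θ) * (W X t θ)⁻¹ := by
          rw [← k1]
          field_simp
        linear_combination k3
      · have k3 : pt (gm Z) t θ - ph (gl Z) t θ = ((-2 * c1 X (ph (pt X)) t θ -
            c2 X (ph (ph X)) t θ) * gl Z t θ + 2 * c1 X (pt (pt X)) t θ * gm Z t θ +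
            c2 X (pt (pt X)) t θ * gn Z t θ) * (W X t θ)⁻¹ := by
          rw [← k2]
          field_simp
        linear_combination k3
  gau := fun hJ h _ ht θ => gke hD hJ h ht θ
  imY := fun _ h _ ht θ => imY h ht θ

end Rim478
end

section
set_option autoImplicit false

/-!
Module CN2 of MP_478c11_gt, part G (helper68): equal forms and contact of first order on a level imply
equality to the right of the level.
-/

open Real MeasureTheory Set Filter Topology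
open scoped ContDiff InnerProductSpace Manifold

namespace Rim478

namespace CN2M

open CRSM FR2M

/-- a vector in terms of the frame `x, y, x × y` -/
lemma vec (x y a : E3) : (⟪x, x⟫_ℝ * ⟪y, y⟫_ℝ - ⟪x, y⟫_ℝ ^ 2) • a = ⟪a, cr x y⟫_ℝ • cr x y +
    (⟪y, y⟫_ℝ * ⟪a, x⟫_ℝ - ⟪x, y⟫_ℝ * ⟪a, y⟫_ℝ) • x + (⟪x, x⟫_ℝ * ⟪a, y⟫_ℝ - ⟪x, y⟫_ℝ * ⟪a, x⟫_ℝ) • y := by
  apply ext3
  · simp only [PiLp.smul_apply, PiLp.add_apply, smul_eq_mul, inn3, cr0, cr1, cr2]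
    ring
  · simp only [PiLp.smul_apply, PiLp.add_apply, smul_eq_mul, inn3, cr0, cr1, cr2]
    ring
  · simp only [PiLp.smul_apply, PiLp.add_apply, smul_eq_mul, inn3, cr0, cr1, cr2]
    ring

/-- a continuous function which vanishes to the right vanishes -/
lemma lim0 {f : ℝ → ℝ} {a b : ℝ} (hab : a < b) (hf : ContinuousAt f a) (h : ∀ t ∈ Ioo a b, f t = 0) :
    f a = 0 := by
  have h1 : Tendsto f (𝓝[>] a) (𝓝 (f a)) := hf.tendsto.mono_left nhdsWithin_le_nhds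
  have h2 : Tendsto f (𝓝[>] a) (𝓝 0) := by
    refine tendsto_const_nhds.congr' ?_
    filter_upwards [Ioo_mem_nhdsGT hab] with t ht
    exact (h t ht).symm
  exact tendsto_nhds_unique h1 h2

/-- the difference of two vectors with the same components -/
lemma dif {x y x' y' a a' : E3} {w g c d : ℝ} (hw : w ≠ 0) (e1 : w • a = g • cr x y + c • x + d • y)
    (e2 : w • a' = g • cr x' y' + c • x' + d • y') :
    ‖a - a'‖ ≤ |w⁻¹| * (|g| * (‖y‖ + ‖x'‖) + |c| + |d|) * max ‖x - x'‖ ‖y - y'‖ := by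
  have h1 : a - a' = w⁻¹ • (g • (cr (x - x') y + cr x' (y - y')) + c • (x - x') + d • (y - y')) := by
    have h2 : w • (a - a') = g • (cr (x - x') y + cr x' (y - y')) + c • (x - x') + d • (y - y') := by
      rw [smul_sub, e1, e2, BRGM.cr_sub_left, BRGM.cr_sub_right]
      module
    rw [← h2, smul_smul, inv_mul_cancel₀ hw, one_smul]
  set m := max ‖x - x'‖ ‖y - y'‖ with hm
  have m1 : ‖x - x'‖ ≤ m := le_max_left _ _
  have m2 : ‖y - y'‖ ≤ m := le_max_right _ _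
  have k1 := FLTM.cr_le hCRS (x - x') y
  have k2 := FLTM.cr_le hCRS x' (y - y')
  rw [h1, norm_smul, Real.norm_eq_abs, mul_assoc]
  refine mul_le_mul_of_nonneg_left ?_ (abs_nonneg _)
  have a1 : ‖g • (cr (x - x') y + cr x' (y - y'))‖ ≤ |g| * (‖y‖ + ‖x'‖) * m := by
    rw [norm_smul, Real.norm_eq_abs, mul_assoc]
    refine mul_le_mul_of_nonneg_left ?_ (abs_nonneg _)
    refine (norm_add_le _ _).trans ?_
    have b1 : ‖y‖ * ‖x - x'‖ ≤ ‖y‖ * m := mul_le_mul_of_nonneg_left m1 (norm_nonneg _)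
    have b2 : ‖y - y'‖ * ‖x'‖ ≤ m * ‖x'‖ := mul_le_mul_of_nonneg_right m2 (norm_nonneg _)
    linarith
  have a2 : ‖c • (x - x')‖ ≤ |c| * m := by
    rw [norm_smul, Real.norm_eq_abs]
    exact mul_le_mul_of_nonneg_left m1 (abs_nonneg _)
  have a3 : ‖d • (y - y')‖ ≤ |d| * m := by
    rw [norm_smul, Real.norm_eq_abs]
    exact mul_le_mul_of_nonneg_left m2 (abs_nonneg _)
  have a4 := norm_add_le (g • (cr (x - x') y + cr x' (y - y')) + c • (x - x')) (d • (y - y'))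
  have a5 := norm_add_le (g • (cr (x - x') y + cr x' (y - y'))) (c • (x - x'))
  linarith

section
variable {J : Set ℝ} (hJ : IsOpen J)
include hJ

lemma ca {V : Type} [NormedAddCommGroup V] [NormedSpace ℝ V] {G : ℝ → ℝ → V} (s : SJ J G) {t : ℝ}
    (ht : t ∈ J) (θ : ℝ) : ContinuousAt (fun s => G s θ) t :=
  (hDR2.hpt hJ s t ht θ).continuousAt

end

/-- the coefficient of the Gronwall inequality -/
noncomputable def kf (X Y U : ℝ → ℝ → E3) (θ t : ℝ) : ℝ :=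
  |(W X t θ)⁻¹| * (|⟪U t θ, cN X t θ⟫_ℝ| * (‖ph X t θ‖ + ‖pt Y t θ‖) + |c1 X U t θ| + |c2 X U t θ|)

lemma kf_cont {J : Set ℝ} (hJ : IsOpen J) {X Y U : ℝ → ℝ → E3} (h : SI J X Y) (hU : SJ J U) {t : ℝ}
    (ht : t ∈ J) (θ : ℝ) : ContinuousAt (kf X Y U θ) t := by
  have d1 := ca hJ (sW hDR2 hJ h) ht θ
  have d2 : ContinuousAt (fun s => ⟪U s θ, cN X s θ⟫_ℝ) t :=
    ContinuousAt.inner (𝕜 := ℝ) (ca hJ hU ht θ) (ca hJ (sN hDR2 hCRS hJ h.sX) ht θ)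
  have d3 := ca hJ (hDR2.sph hJ h.sX) ht θ
  have d4 := ca hJ (hDR2.spt hJ h.sY) ht θ
  have d5 := ca hJ (sc1 hDR2 hJ h hU) ht θ
  have d6 := ca hJ (sc2 hDR2 hJ h hU) ht θ
  have d7 := (d1.inv₀ (Wne h ht θ)).abs
  exact d7.mul (((d2.abs.mul (d3.norm.add d4.norm)).add d5.abs).add d6.abs)

end CN2M

open CN2M FR2M in
theorem specCN2 : SpecCN2 := by
  intro J X Y t₁ t₂ hJ hsub h heq h0 h1 t₃ ht₃ θ
  rcases eq_or_lt_of_le ht₃.1 with e | hlt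
  · rw [← e]
    exact h0 θ
  have h12 : t₁ < t₂ := lt_trans hlt ht₃.2
  have ht₁ : t₁ ∈ J := hsub ⟨le_rfl, h12⟩
  have hI : ∀ t ∈ Icc t₁ t₃, t ∈ J := fun t ht => hsub ⟨ht.1, lt_of_le_of_lt ht.2 ht₃.2⟩
  -- smoothness
  have sXt := hDR2.spt hJ h.sX
  have sXh := hDR2.sph hJ h.sX
  have sYt := hDR2.spt hJ h.sY
  have sYh := hDR2.sph hJ h.sY
  have sXtt := hDR2.spt hJ sXt
  have sXth := hDR2.sph hJ sXt
  -- equality of the forms on `[t₁, t₂)`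
  have ext : ∀ {u v : ℝ → ℝ → ℝ}, SJ J u → SJ J v → (∀ t ∈ Ioo t₁ t₂, u t θ = v t θ) →
      ∀ t ∈ Ico t₁ t₂, u t θ = v t θ := by
    intro u v su sv e t ht
    rcases eq_or_lt_of_le ht.1 with e1 | hlt1
    · rw [← e1]
      have := lim0 (f := fun s => u s θ - v s θ) h12 ((ca hJ su ht₁ θ).sub (ca hJ sv ht₁ θ))
        (fun s hs => sub_eq_zero.2 (e s hs))
      exact sub_eq_zero.1 this
    · exact e t ⟨hlt1, ht.2⟩
  have el := ext (sgl hDR2 hCRS hJ h.sY) (sgl hDR2 hCRS hJ h.sX) (fun t ht => (heq t ht θ).1)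
  have em := ext (sgm hDR2 hCRS hJ h.sY) (sgm hDR2 hCRS hJ h.sX) (fun t ht => (heq t ht θ).2.1)
  -- the bounds
  have b1 : ∀ t ∈ Ico t₁ t₂, ‖pt (pt X) t θ - pt (pt Y) t θ‖ ≤ kf X Y (pt (pt X)) θ t *
      max ‖pt X t θ - pt Y t θ‖ ‖ph X t θ - ph Y t θ‖ := by
    intro t ht
    have htJ := hsub ht
    have eX := vec (pt X t θ) (ph X t θ) (pt (pt X) t θ)
    have eY := vec (pt Y t θ) (ph Y t θ) (pt (pt Y) t θ)
    have el' : ⟪pt (pt Y) t θ, cr (pt Y t θ) (ph Y t θ)⟫_ℝ = ⟪pt (pt X) t θ, cN X t θ⟫_ℝ := el t ht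
    rw [el', h.tt t htJ θ, h.th t htJ θ, h.hh t htJ θ, g111 hDR2 hJ h htJ θ, g112 hDR2 hJ h htJ θ] at eY
    exact dif (w := W X t θ) (g := ⟪pt (pt X) t θ, cN X t θ⟫_ℝ) (c := c1 X (pt (pt X)) t θ)
      (d := c2 X (pt (pt X)) t θ) (Wne h htJ θ) eX eY
  have b2 : ∀ t ∈ Ico t₁ t₂, ‖ph (pt X) t θ - ph (pt Y) t θ‖ ≤ kf X Y (ph (pt X)) θ t *
      max ‖pt X t θ - pt Y t θ‖ ‖ph X t θ - ph Y t θ‖ := by
    intro t ht
    have htJ := hsub ht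
    have eX := vec (pt X t θ) (ph X t θ) (ph (pt X) t θ)
    have eY := vec (pt Y t θ) (ph Y t θ) (ph (pt Y) t θ)
    have em' : ⟪ph (pt Y) t θ, cr (pt Y t θ) (ph Y t θ)⟫_ℝ = ⟪ph (pt X) t θ, cN X t θ⟫_ℝ := em t ht
    rw [em', h.tt t htJ θ, h.th t htJ θ, h.hh t htJ θ, g121 hDR2 hJ h htJ θ, g122 hDR2 hJ h htJ θ] at eY
    exact dif (w := W X t θ) (g := ⟪ph (pt X) t θ, cN X t θ⟫_ℝ) (c := c1 X (ph (pt X)) t θ)
      (d := c2 X (ph (pt X)) t θ) (Wne h htJ θ) eX eY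
  obtain ⟨C1, hC1⟩ := isCompact_Icc.exists_bound_of_continuousOn (s := Icc t₁ t₃)
    (f := kf X Y (pt (pt X)) θ) (fun t ht => (kf_cont hJ h sXtt (hI t ht) θ).continuousWithinAt)
  obtain ⟨C2, hC2⟩ := isCompact_Icc.exists_bound_of_continuousOn (s := Icc t₁ t₃)
    (f := kf X Y (ph (pt X)) θ) (fun t ht => (kf_cont hJ h sXth (hI t ht) θ).continuousWithinAt)
  -- Gronwall
  have hder : ∀ t ∈ J, HasDerivAt (fun s => (X s θ - Y s θ, pt X s θ - pt Y s θ, ph X s θ - ph Y s θ))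
      (pt X t θ - pt Y t θ, pt (pt X) t θ - pt (pt Y) t θ, ph (pt X) t θ - ph (pt Y) t θ) t := by
    intro t ht
    have a1 := (hDR2.hpt hJ h.sX t ht θ).sub (hDR2.hpt hJ h.sY t ht θ)
    have a2 := (hDR2.hpt hJ sXt t ht θ).sub (hDR2.hpt hJ sYt t ht θ)
    have a3 := (hDR2.hpt hJ sXh t ht θ).sub (hDR2.hpt hJ sYh t ht θ)
    rw [hDR2.comm hJ h.sX t ht θ, hDR2.comm hJ h.sY t ht θ] at a3
    exact a1.prodMk (a2.prodMk a3)
  have hph0 : ph X t₁ θ = ph Y t₁ θ := by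
    have : (fun s => X t₁ s) = fun s => Y t₁ s := by
      funext s
      exact (h0 s).symm
    unfold ph
    rw [this]
  have key := eq_zero_of_abs_deriv_le_mul_abs_self_of_eq_zero_right
    (f := fun s => (X s θ - Y s θ, pt X s θ - pt Y s θ, ph X s θ - ph Y s θ))
    (f' := fun t => (pt X t θ - pt Y t θ, pt (pt X) t θ - pt (pt Y) t θ, ph (pt X) t θ - ph (pt Y) t θ))
    (K := max 1 (max C1 C2)) (a := t₁) (b := t₃)
    (fun t ht => (hder t (hI t ht)).continuousAt.continuousWithinAt)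
    (fun t ht => (hder t (hI t ⟨ht.1, ht.2.le⟩)).hasDerivWithinAt)
    (by
      show (X t₁ θ - Y t₁ θ, pt X t₁ θ - pt Y t₁ θ, ph X t₁ θ - ph Y t₁ θ) = 0
      rw [h0 θ, h1 θ, hph0]
      simp)
    (by
      intro t ht
      have ht' : t ∈ Icc t₁ t₃ := ⟨ht.1, ht.2.le⟩
      have ht'' : t ∈ Ico t₁ t₂ := ⟨ht.1, lt_trans ht.2 ht₃.2⟩
      have n1 := b1 t ht''
      have n2 := b2 t ht''
      have n3 := hC1 t ht'
      have n4 := hC2 t ht'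
      rw [Real.norm_eq_abs] at n3 n4
      have n5 := le_abs_self (kf X Y (pt (pt X)) θ t)
      have n6 := le_abs_self (kf X Y (ph (pt X)) θ t)
      set m := max ‖pt X t θ - pt Y t θ‖ ‖ph X t θ - ph Y t θ‖ with hm
      set K := max 1 (max C1 C2) with hK
      have hK0 : 0 ≤ K := le_trans zero_le_one (le_max_left _ _)
      have hK1 : 1 ≤ K := le_max_left _ _
      have hK2 : C1 ≤ K := le_trans (le_max_left _ _) (le_max_right _ _)
      have hK3 : C2 ≤ K := le_trans (le_max_right _ _) (le_max_right _ _)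
      have hm0 : 0 ≤ m := le_trans (norm_nonneg _) (le_max_left _ _)
      have hmf : m ≤ ‖(X t θ - Y t θ, pt X t θ - pt Y t θ, ph X t θ - ph Y t θ)‖ := by
        rw [Prod.norm_def, Prod.norm_def]
        exact le_max_right _ _
      set F := ‖(X t θ - Y t θ, pt X t θ - pt Y t θ, ph X t θ - ph Y t θ)‖ with hF
      have q1 : ‖pt X t θ - pt Y t θ‖ ≤ K * F := by
        have : ‖pt X t θ - pt Y t θ‖ ≤ m := le_max_left _ _
        nlinarith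
      have q2 : ‖pt (pt X) t θ - pt (pt Y) t θ‖ ≤ K * F := by
        have e1 : kf X Y (pt (pt X)) θ t * m ≤ K * m := mul_le_mul_of_nonneg_right (by linarith) hm0
        have e2 : K * m ≤ K * F := mul_le_mul_of_nonneg_left hmf hK0
        linarith
      have q3 : ‖ph (pt X) t θ - ph (pt Y) t θ‖ ≤ K * F := by
        have e1 : kf X Y (ph (pt X)) θ t * m ≤ K * m := mul_le_mul_of_nonneg_right (by linarith) hm0
        have e2 : K * m ≤ K * F := mul_le_mul_of_nonneg_left hmf hK0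
        linarith
      show ‖(pt X t θ - pt Y t θ, pt (pt X) t θ - pt (pt Y) t θ, ph (pt X) t θ - ph (pt Y) t θ)‖ ≤ K * F
      rw [Prod.norm_def, Prod.norm_def]
      exact max_le q1 (max_le q2 q3))
  have k3 := key t₃ ⟨hlt.le, le_rfl⟩
  have k4 : X t₃ θ - Y t₃ θ = 0 := congrArg Prod.fst k3
  exact (sub_eq_zero.1 k4).symm

end Rim478
end

section
set_option autoImplicit false

/-!
Module FF2 of MP_478c11_gt, part G (helper68): flat contact of two strips gives flat differences of the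
(unnormalized) second fundamental forms.
-/

open Real MeasureTheory Set Filter Topology
open scoped ContDiff InnerProductSpace Manifold

namespace Rim478

namespace FF2M

open BRGM

section
variable {J : Set ℝ} {t₀ : ℝ} (oJ : IsOpen J) (ht : t₀ ∈ J)

lemma cru {u v : ℝ → ℝ → E3} (hu : SJ J u) (hv : SJ J v) : SJ J (fun t θ => cr (u t θ) (v t θ)) :=
  ContDiff.comp_contDiffOn (g := fun p : E3 × E3 => cr p.1 p.2)
    (f := fun p : ℝ × ℝ => (u p.1 p.2, v p.1 p.2)) hCRS.sm (ContDiffOn.prodMk hu hv)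

include oJ

lemma scN {X : ℝ → ℝ → E3} (SX : SJ J X) : SJ J (cN X) :=
  cru (hDR2.spt oJ SX) (hDR2.sph oJ SX)

include ht

/-- flat contact of two strips gives flat contact of the normals -/
lemma fl_cN {X W : ℝ → ℝ → E3} (SX : SJ J X) (SW : SJ J W) (h : Fl t₀ (fun t θ => W t θ - X t θ)) :
    Fl t₀ (fun t θ => cN W t θ - cN X t θ) := by
  have sXt := hDR2.spt oJ SX
  have sXh := hDR2.sph oJ SX
  have sWt := hDR2.spt oJ SW
  have sWh := hDR2.sph oJ SW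
  have f1 : Fl t₀ (fun t θ => pt W t θ - pt X t θ) :=
    fl_cg oJ ht (fun t h θ => (pt_sub oJ SW SX t h θ).symm) (hFLT.fp h)
  have f2 : Fl t₀ (fun t θ => ph W t θ - ph X t θ) :=
    fl_cg oJ ht (fun t h θ => (ph_sub oJ SW SX t h θ).symm) (hFLT.fh oJ (sj_sub SW SX) ht h)
  have g1 : Fl t₀ (fun t θ => cr (pt W t θ - pt X t θ) (ph W t θ)) :=
    hFLT.crs oJ (sj_sub sWt sXt) sWh ht f1
  have g2 : Fl t₀ (fun t θ => cr (ph W t θ - ph X t θ) (pt X t θ)) :=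
    hFLT.crs oJ (sj_sub sWh sXh) sXt ht f2
  have s1 := cru (sj_sub sWt sXt) sWh
  have s2 := cru (sj_sub sWh sXh) sXt
  have cm : SJ J (fun (_ _ : ℝ) => (-1:ℝ)) := contDiffOn_const
  have g3 : Fl t₀ (fun t θ => (-1:ℝ) • cr (ph W t θ - ph X t θ) (pt X t θ)) := hFLT.smul oJ cm s2 ht g2
  have g4 := hFLT.add oJ s1 (sj_smul cm s2) ht g1 g3
  refine fl_cg oJ ht (fun t _ θ => ?_) g4
  simp only [cN]
  rw [cr_sub_left, cr_sub_left, CLPM.cr_swap (pt X t θ) (ph W t θ), CLPM.cr_swap (pt X t θ) (ph X t θ)]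
  module

/-- flat contact gives flat difference of `⟨a, N⟩` -/
lemma fl_inn {X W a c : ℝ → ℝ → E3} (SX : SJ J X) (SW : SJ J W) (h : Fl t₀ (fun t θ => W t θ - X t θ))
    (sa : SJ J a) (sc : SJ J c) (hac : Fl t₀ (fun t θ => a t θ - c t θ)) :
    Fl t₀ (fun t θ => ⟪a t θ, cN W t θ⟫_ℝ - ⟪c t θ, cN X t θ⟫_ℝ) := by
  have f1 := fl_cN oJ ht SX SW h
  have sW := scN oJ SW
  have sX := scN oJ SX
  have g1 := hFLT.inn oJ (sj_sub sa sc) sW ht hac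
  have g2 := hFLT.inn oJ (sj_sub sW sX) sc ht f1
  have s1 : SJ J (fun t θ => ⟪a t θ - c t θ, cN W t θ⟫_ℝ) := ContDiffOn.inner ℝ (sj_sub sa sc) sW
  have s2 : SJ J (fun t θ => ⟪cN W t θ - cN X t θ, c t θ⟫_ℝ) := ContDiffOn.inner ℝ (sj_sub sW sX) sc
  have g3 := hFLT.add oJ s1 s2 ht g1 g2
  refine fl_cg oJ ht (fun t _ θ => ?_) g3
  simp only [inner_sub_left]
  rw [real_inner_comm (c t θ) (cN W t θ), real_inner_comm (c t θ) (cN X t θ)]
  ring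

end

end FF2M

open FF2M BRGM in
theorem specFF2 : SpecFF2 := by
  intro J X W t₀ oJ ht hSI h
  have SX := hSI.sX
  have SW := hSI.sY
  have sXt := hDR2.spt oJ SX
  have sXh := hDR2.sph oJ SX
  have sWt := hDR2.spt oJ SW
  have sWh := hDR2.sph oJ SW
  have f1 : Fl t₀ (fun t θ => pt W t θ - pt X t θ) :=
    fl_cg oJ ht (fun t h θ => (pt_sub oJ SW SX t h θ).symm) (hFLT.fp h)
  have f2 : Fl t₀ (fun t θ => ph W t θ - ph X t θ) :=
    fl_cg oJ ht (fun t h θ => (ph_sub oJ SW SX t h θ).symm) (hFLT.fh oJ (sj_sub SW SX) ht h)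
  have f11 : Fl t₀ (fun t θ => pt (pt W) t θ - pt (pt X) t θ) :=
    fl_cg oJ ht (fun t h θ => (pt_sub oJ sWt sXt t h θ).symm) (hFLT.fp f1)
  have f12 : Fl t₀ (fun t θ => ph (pt W) t θ - ph (pt X) t θ) :=
    fl_cg oJ ht (fun t h θ => (ph_sub oJ sWt sXt t h θ).symm) (hFLT.fh oJ (sj_sub sWt sXt) ht f1)
  have f22 : Fl t₀ (fun t θ => ph (ph W) t θ - ph (ph X) t θ) :=
    fl_cg oJ ht (fun t h θ => (ph_sub oJ sWh sXh t h θ).symm) (hFLT.fh oJ (sj_sub sWh sXh) ht f2)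
  exact ⟨FF2M.fl_inn oJ ht SX SW h (hDR2.spt oJ sWt) (hDR2.spt oJ sXt) f11,
    FF2M.fl_inn oJ ht SX SW h (hDR2.sph oJ sWt) (hDR2.sph oJ sXt) f12,
    FF2M.fl_inn oJ ht SX SW h (hDR2.sph oJ sWh) (hDR2.sph oJ sXh) f22⟩

end Rim478
end

section
set_option autoImplicit false

/-!
Module RM2 of part G of MP_478c11_gt (helper9): closeness along a rim gives flat contact, in arbitrary coordinates.
-/

open Real MeasureTheory Set Filter Topology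
open scoped ContDiff InnerProductSpace

namespace Rim478

namespace RM2M

open BRGM PAIM

section
variable {J : Set ℝ} {X Y : ℝ → ℝ → E3} (oJ : IsOpen J) (S : SI J X Y)
include oJ S

lemma g_SI (g : E3 ≃ₗᵢ[ℝ] E3) (b : E3) : SI J X (fun t θ => g (Y t θ) + b) where
  sX := S.sX
  sY := g_sm g b S.sY
  pX := S.pX
  pY := fun t ht θ => by
    have := S.pY t ht θ
    simp only [this]
  tt := fun t ht θ => by rw [g_pt oJ g b S.sY t ht, g.inner_map_map]; exact S.tt t ht θ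
  th := fun t ht θ => by rw [g_pt oJ g b S.sY t ht, g_ph oJ g b S.sY t ht, g.inner_map_map]; exact S.th t ht θ
  hh := fun t ht θ => by rw [g_ph oJ g b S.sY t ht, g.inner_map_map]; exact S.hh t ht θ
  im := S.im

variable {t₀ s δ : ℝ} (hs : s = 1 ∨ s = -1) (hδ : 0 < δ) (hJ : Icc (t₀ - δ) (t₀ + δ) ⊆ J)
include hs hδ hJ

lemma iso_r : Iso (rY t₀ s δ X) (rY t₀ s δ Y) where
  sm := rY_sm hs hδ hJ S.sY
  per := fun τ θ => S.pY _ (rp_mem hs hδ hJ τ) θ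
  gE := fun τ θ => S.hh _ (rp_mem hs hδ hJ τ) θ
  gF := fun τ θ => by
    have m := rp_mem hs hδ hJ τ
    rw [rY_pt hs hδ hJ oJ S.sY, rY_pt hs hδ hJ oJ S.sX, inner_smul_left, inner_smul_left]
    congr 1
    exact S.th _ m θ
  gG := fun τ θ => by
    have m := rp_mem hs hδ hJ τ
    rw [rY_pt hs hδ hJ oJ S.sY, rY_pt hs hδ hJ oJ S.sX, inner_smul_left, inner_smul_left, inner_smul_right,
      inner_smul_right]
    congr 2
    exact S.tt _ m θ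

lemma cl_r {ε : ℝ} (h : ClJ ε t₀ X Y) : Cl ε (rY t₀ s δ X) (rY t₀ s δ Y) := by
  intro θ
  obtain ⟨h1, h2, h3, h4, h5, h6⟩ := h θ
  obtain ⟨a1, a2, a3, a4⟩ := at1s oJ hs hδ hJ S.sX θ
  obtain ⟨b1, b2, b3, b4⟩ := at1s oJ hs hδ hJ S.sY θ
  obtain ⟨a5, a6⟩ := at0s oJ hs hδ hJ S.sX θ
  obtain ⟨b5, b6⟩ := at0s oJ hs hδ hJ S.sY θ
  have ns : ‖s‖ = 1 := by rcases hs with rfl | rfl <;> simp
  rw [a1, a2, a3, a4, b1, b2, b3, b4, a5, a6, b5, b6, ← smul_sub, ← smul_sub, ← smul_sub, norm_smul, norm_smul,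
    norm_smul, ns, one_mul, one_mul, one_mul]
  exact ⟨h1, h2, h3, h4, h5, h6⟩

end

end RM2M

open RM2M BRGM PAIM in
theorem specRM2 : SpecRM2 := by
  intro J X t₀ oJ ht sX pX hrim
  obtain ⟨R, u₁, u₂, s, h1, h2, h12, hs, Rpos, tan, nor, nd⟩ := hrim
  obtain ⟨δ, hδ, hJ⟩ : ∃ δ : ℝ, 0 < δ ∧ Icc (t₀ - δ) (t₀ + δ) ⊆ J := by
    obtain ⟨η, hη, h⟩ := Metric.isOpen_iff.mp oJ t₀ ht
    refine ⟨η / 2, by positivity, fun x hx => h ?_⟩
    rw [Metric.mem_ball, Real.dist_eq, abs_lt]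
    constructor <;> linarith [hx.1, hx.2]
  have ss : s * s = 1 := by rcases hs with rfl | rfl <;> norm_num
  have F : Rim (rY t₀ s δ X) R u₁ u₂ := {
    sm := rY_sm hs hδ hJ sX
    per := fun τ θ => pX _ (rp_mem hs hδ hJ τ) θ
    h1 := h1
    h2 := h2
    h12 := h12
    Rpos := Rpos
    tan := fun θ => by rw [(at1s oJ hs hδ hJ sX θ).1]; exact tan θ
    nor := fun θ => by rw [(at0s oJ hs hδ hJ sX θ).1, nor θ, smul_smul, ss, one_smul]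
    nd := fun θ => by rw [(at0s oJ hs hδ hJ sX θ).2]; exact nd θ }
  obtain ⟨ε, hε, hY⟩ := iso F
  refine ⟨ε, hε, ?_⟩
  intro Y S hcl
  obtain ⟨g, b, hg, hk⟩ := hY (rY t₀ s δ Y) (iso_r oJ S hs hδ hJ) (cl_r oJ S hs hδ hJ hcl)
  have SW := g_SI oJ S g b
  have hW : Fl 0 (rY t₀ s δ (fun t θ => (g (Y t θ) + b) - X t θ)) := by
    intro k θ
    have e1 := it_sub (J := univ) isOpen_univ k (u := rY t₀ s δ (fun t θ => g (Y t θ) + b)) (v := rY t₀ s δ X)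
      (rY_sm hs hδ hJ SW.sY).contDiffOn (rY_sm hs hδ hJ S.sX).contDiffOn 0 (mem_univ 0) θ
    have e2 : (pt^[k] (rY t₀ s δ (fun t θ => g (Y t θ) + b))) 0 θ = (pt^[k] (rY t₀ s δ X)) 0 θ := hk k θ
    rw [e2, sub_self] at e1
    exact e1
  have f0 := fl_back oJ hs hδ hJ (BRGM.sj_sub SW.sY S.sX)
    (fun t ht θ => by simp only [S.pY t ht θ, S.pX t ht θ]) hW
  exact ⟨g, b, hg, f0, SW⟩

end Rim478
end

section
set_option autoImplicit false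

/-!
Module FIN2 of part G of MP_478c11_gt (helper9): the final theorem of part G, from `SpecMLV`.
-/

open Real MeasureTheory Set Filter Topology
open scoped ContDiff InnerProductSpace Manifold

namespace Rim478

namespace FIN2M

section
variable {M : Type} [TopologicalSpace M] [ChartedSpace E2 M] {f₀ f₁ : M → E3} {J : Set ℝ} {ψ : ℝ × ℝ → M}

/-- isometric maps have isometric strips -/
lemma si_of (hf₀ : ContMDiff 𝓘(ℝ, E2) 𝓘(ℝ, E3) ∞ f₀) (hf₁ : ContMDiff 𝓘(ℝ, E2) 𝓘(ℝ, E3) ∞ f₁)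
    (hiso : ∀ (x : M) (v : TangentSpace 𝓘(ℝ, E2) x), ‖dF f₁ x v‖ = ‖dF f₀ x v‖) (S : MStrip f₀ J ψ) :
    SI J (fun t θ => f₀ (ψ (t, θ))) (fun t θ => f₁ (ψ (t, θ))) where
  sX := BNDM.slice_sm hf₀ S.sm
  sY := BNDM.slice_sm hf₁ S.sm
  pX := fun t ht θ => by simp only [S.per t ht θ]
  pY := fun t ht θ => by simp only [S.per t ht θ]
  tt := fun t ht θ => (REMM.iso_comp S.oJ hf₀ hf₁ S.sm hiso ht θ).1
  th := fun t ht θ => (REMM.iso_comp S.oJ hf₀ hf₁ S.sm hiso ht θ).2.1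
  hh := fun t ht θ => (REMM.iso_comp S.oJ hf₀ hf₁ S.sm hiso ht θ).2.2
  im := S.im

end

end FIN2M

open FIN2M in
/-- isolated form, any genus -/
theorem genM (hMLV : SpecMLV) {M : Type} [TopologicalSpace M] [ChartedSpace E2 M] [IsManifold 𝓘(ℝ, E2) ∞ M] {f₀ : M → E3}
    {ι : Type} {J : ι → Set ℝ} {ψ : ι → ℝ × ℝ → M} {i₀ : ι} {t₀ : ℝ} (hf₀ : ContMDiff 𝓘(ℝ, E2) 𝓘(ℝ, E3) ∞ f₀)
    (hS : ∀ i, MStrip f₀ (J i) (ψ i)) (hA : ∀ i, ∀ t ∈ J i, Adm (fun t θ => f₀ (ψ i (t, θ))) t)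
    (hdis : ∀ i j, i ≠ j → ∀ x ∈ ψ i '' (J i ×ˢ univ), x ∈ ψ j '' (J j ×ˢ univ) → PosC f₀ x)
    (hconn : IsPreconnected {x | PosC f₀ x ∨ ∃ i, x ∈ ψ i '' (J i ×ˢ univ)})
    (hdense : Dense {x | PosC f₀ x ∨ ∃ i, x ∈ ψ i '' (J i ×ˢ univ)})
    (ht₀ : t₀ ∈ J i₀) (hrim : RimAt (fun t θ => f₀ (ψ i₀ (t, θ))) t₀) :
    ∃ ε : ℝ, 0 < ε ∧ ∀ f₁ : M → E3, ContMDiff 𝓘(ℝ, E2) 𝓘(ℝ, E3) ∞ f₁ →
      (∀ (x : M) (v : TangentSpace 𝓘(ℝ, E2) x), ‖dF f₁ x v‖ = ‖dF f₀ x v‖) →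
      ClJ ε t₀ (fun t θ => f₀ (ψ i₀ (t, θ))) (fun t θ => f₁ (ψ i₀ (t, θ))) → Cong f₀ f₁ := by
  obtain ⟨ε, hε, H⟩ := specRM2 (J i₀) (fun t θ => f₀ (ψ i₀ (t, θ))) t₀ (hS i₀).oJ ht₀
    (BNDM.slice_sm hf₀ (hS i₀).sm) (fun t ht θ => by simp only [(hS i₀).per t ht θ]) hrim
  refine ⟨ε, hε, fun f₁ hf₁ hiso hcl => ?_⟩
  obtain ⟨g, b, _, hfl, _⟩ := H _ (si_of hf₀ hf₁ hiso (hS i₀)) hcl
  have smg : ContMDiff 𝓘(ℝ, E2) 𝓘(ℝ, E3) ∞ (fun x => g (f₁ x) + b) := by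
    have h1 : ContDiff ℝ ∞ (fun y : E3 => g y + b) :=
      (g.toContinuousLinearEquiv.toContinuousLinearMap.contDiff).add contDiff_const
    exact h1.contMDiff.comp hf₁
  have hiso' : ∀ (x : M) (v : TangentSpace 𝓘(ℝ, E2) x), ‖dF (fun x => g (f₁ x) + b) x v‖ = ‖dF f₀ x v‖ := by
    intro x v
    rw [BNDM.dF_g g b hf₁, g.norm_map]
    exact hiso x v
  exact ⟨g, b, hMLV f₀ (fun x => g (f₁ x) + b) ι J ψ i₀ t₀ hf₀ smg hiso' hS hA hdis hconn hdense ht₀ hfl⟩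

/-- isolated form and bendings, any genus -/
theorem genMB (hMLV : SpecMLV) {M : Type} [TopologicalSpace M] [ChartedSpace E2 M] [IsManifold 𝓘(ℝ, E2) ∞ M] {f₀ : M → E3}
    {ι : Type} {J : ι → Set ℝ} {ψ : ι → ℝ × ℝ → M} {i₀ : ι} {t₀ : ℝ} (hf₀ : ContMDiff 𝓘(ℝ, E2) 𝓘(ℝ, E3) ∞ f₀)
    (hS : ∀ i, MStrip f₀ (J i) (ψ i)) (hA : ∀ i, ∀ t ∈ J i, Adm (fun t θ => f₀ (ψ i (t, θ))) t)
    (hdis : ∀ i j, i ≠ j → ∀ x ∈ ψ i '' (J i ×ˢ univ), x ∈ ψ j '' (J j ×ˢ univ) → PosC f₀ x)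
    (hconn : IsPreconnected {x | PosC f₀ x ∨ ∃ i, x ∈ ψ i '' (J i ×ˢ univ)})
    (hdense : Dense {x | PosC f₀ x ∨ ∃ i, x ∈ ψ i '' (J i ×ˢ univ)})
    (ht₀ : t₀ ∈ J i₀) (hrim : RimAt (fun t θ => f₀ (ψ i₀ (t, θ))) t₀) :
    ∃ ε : ℝ, 0 < ε ∧ ∀ f : ℝ → M → E3,
      ContMDiffOn (𝓘(ℝ, ℝ).prod 𝓘(ℝ, E2)) 𝓘(ℝ, E3) ∞ (fun p : ℝ × M => f p.1 p.2) (Icc 0 1 ×ˢ univ) →
      (∀ α ∈ Icc (0:ℝ) 1, ∀ (x : M) (v : TangentSpace 𝓘(ℝ, E2) x), ‖dF (f α) x v‖ = ‖dF (f 0) x v‖) →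
      (∀ (x : M) (v : TangentSpace 𝓘(ℝ, E2) x), ‖dF (f 0) x v‖ = ‖dF f₀ x v‖) →
      ClJ ε t₀ (fun t θ => f₀ (ψ i₀ (t, θ))) (fun t θ => f 0 (ψ i₀ (t, θ))) →
      ∀ α ∈ Icc (0:ℝ) 1, Cong f₀ (f α) := by
  obtain ⟨ε, hε, H⟩ := genM hMLV hf₀ hS hA hdis hconn hdense ht₀ hrim
  exact ⟨ε, hε, fun f hf hiso h0 hc => isoBend hf hiso (hS i₀).oJ ht₀ (hS i₀).sm (hS i₀).per hf₀ h0 hε H hc⟩

end Rim478
end

section
set_option autoImplicit false

/-!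
Module MLV of part G of MP_478c11_gt: the topological part.
-/

open Real MeasureTheory Set Filter Topology
open scoped ContDiff InnerProductSpace Manifold

namespace Rim478

namespace MLVM

section
variable {V : Type} [NormedAddCommGroup V] [NormedSpace ℝ V]

/-- a function which vanishes near a point of a horizontal line has vanishing derivatives -/
lemma fl_near {G : ℝ → ℝ → V} {t₂ θ : ℝ} (h : ∀ᶠ s in 𝓝 t₂, G s θ = 0) (k : ℕ) :
    ∀ᶠ s in 𝓝 t₂, (pt^[k] G) s θ = 0 := by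
  induction k with
  | zero => simpa using h
  | succ k ih =>
    have h1 : (fun s => (pt^[k] G) s θ) =ᶠ[𝓝 t₂] fun _ => (0 : V) := ih
    have h2 := h1.deriv
    filter_upwards [h2] with s hs
    rw [Function.iterate_succ_apply']
    have h3 : pt (pt^[k] G) s θ = deriv (fun s => (pt^[k] G) s θ) s := rfl
    rw [h3, hs]
    simp

end

section
variable {M : Type} [TopologicalSpace M] [ChartedSpace E2 M] {f₀ f₁ : M → E3} {J : Set ℝ} {ψ : ℝ × ℝ → M}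

/-- isometric maps have isometric strips -/
lemma si_of (hf₀ : ContMDiff 𝓘(ℝ, E2) 𝓘(ℝ, E3) ∞ f₀) (hf₁ : ContMDiff 𝓘(ℝ, E2) 𝓘(ℝ, E3) ∞ f₁)
    (hiso : ∀ (x : M) (v : TangentSpace 𝓘(ℝ, E2) x), ‖dF f₁ x v‖ = ‖dF f₀ x v‖) (S : MStrip f₀ J ψ) :
    SI J (fun t θ => f₀ (ψ (t, θ))) (fun t θ => f₁ (ψ (t, θ))) where
  sX := BNDM.slice_sm hf₀ S.sm
  sY := BNDM.slice_sm hf₁ S.sm
  pX := fun t ht θ => by simp only [S.per t ht θ]
  pY := fun t ht θ => by simp only [S.per t ht θ]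
  tt := fun t ht θ => (REMM.iso_comp S.oJ hf₀ hf₁ S.sm hiso ht θ).1
  th := fun t ht θ => (REMM.iso_comp S.oJ hf₀ hf₁ S.sm hiso ht θ).2.1
  hh := fun t ht θ => (REMM.iso_comp S.oJ hf₀ hf₁ S.sm hiso ht θ).2.2
  im := S.im

lemma strip_cont (S : MStrip f₀ J ψ) {t : ℝ} (ht : t ∈ J) (θ : ℝ) : ContinuousAt ψ (t, θ) := by
  have hop : IsOpen (J ×ˢ (univ : Set ℝ)) := S.oJ.prod isOpen_univ
  exact (S.sm.contMDiffAt (hop.mem_nhds ⟨ht, mem_univ _⟩)).continuousAt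

lemma agr_open : IsOpen {x : M | Agr f₀ f₁ x} := by
  rw [isOpen_iff_mem_nhds]
  intro x hx
  exact eventually_eventually_nhds.2 hx

/-- a strip on which the maps agree on one level -/
lemma spread (hSTR : SpecSTR) [IsManifold 𝓘(ℝ, E2) ∞ M] (hOPM : SpecOPM)
    (hf₀ : ContMDiff 𝓘(ℝ, E2) 𝓘(ℝ, E3) ∞ f₀)
    (hf₁ : ContMDiff 𝓘(ℝ, E2) 𝓘(ℝ, E3) ∞ f₁)
    (hiso : ∀ (x : M) (v : TangentSpace 𝓘(ℝ, E2) x), ‖dF f₁ x v‖ = ‖dF f₀ x v‖)
    (S : MStrip f₀ J ψ) (hA : ∀ t ∈ J, Adm (fun t θ => f₀ (ψ (t, θ))) t) {t₂ : ℝ} (ht₂ : t₂ ∈ J)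
    (hfl : Fl t₂ (fun t θ => f₁ (ψ (t, θ)) - f₀ (ψ (t, θ)))) :
    ∀ x ∈ ψ '' (J ×ˢ univ), Agr f₀ f₁ x := by
  have h := hSTR J (fun t θ => f₀ (ψ (t, θ))) (fun t θ => f₁ (ψ (t, θ))) t₂ S.oJ S.cJ
    (si_of hf₀ hf₁ hiso S) hA ht₂ hfl
  have hop := hOPM.op f₀ J ψ hf₀ S
  intro x hx
  filter_upwards [hop.mem_nhds hx] with y hy
  obtain ⟨⟨t, θ⟩, ⟨ht, -⟩, rfl⟩ := hy
  exact h t ht θ

/-- agreement along a level gives flat contact -/
lemma fl_level (S : MStrip f₀ J ψ) {t₂ : ℝ} (ht₂ : t₂ ∈ J) (hag : ∀ θ, Agr f₀ f₁ (ψ (t₂, θ))) :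
    Fl t₂ (fun t θ => f₁ (ψ (t, θ)) - f₀ (ψ (t, θ))) := by
  intro k θ
  have h1 : ∀ᶠ s in 𝓝 t₂, f₁ (ψ (s, θ)) - f₀ (ψ (s, θ)) = 0 := by
    have hc : ContinuousAt (fun s : ℝ => ψ (s, θ)) t₂ := by
      have h2 : ContinuousAt (fun s : ℝ => ((s, θ) : ℝ × ℝ)) t₂ := by fun_prop
      exact ContinuousAt.comp (g := ψ) (strip_cont S ht₂ θ) h2
    have h3 : ∀ᶠ s in 𝓝 t₂, f₁ (ψ (s, θ)) = f₀ (ψ (s, θ)) := hc.eventually (hag θ)
    filter_upwards [h3] with s hs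
    rw [hs, sub_self]
  exact (fl_near (G := fun t θ => f₁ (ψ (t, θ)) - f₀ (ψ (t, θ))) h1 k).self_of_nhds

/-- levels of positive curvature are admissible -/
lemma adm_pos {X : ℝ → ℝ → E3} {t : ℝ} (h : ∀ θ, 0 < gk X t θ) : Adm X t := by
  refine ⟨0, 0, ⟨fun i hi => absurd hi (Nat.not_lt_zero i), fun θ => ?_⟩,
    fun i hi => absurd hi (Nat.not_lt_zero i), ⟨fun i hi => absurd hi (Nat.not_lt_zero i), fun θ => ?_⟩,
    by omega⟩
  · have h1 := h θ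
    unfold gk at h1
    intro h2
    have h3 : gn X t θ = 0 := h2
    rw [h3] at h1
    nlinarith [sq_nonneg (gm X t θ)]
  · exact (h θ).ne'

/-- (b): agreement is closed in the set of positive curvature -/
lemma closed_pos (hSTR : SpecSTR) [IsManifold 𝓘(ℝ, E2) ∞ M] (hOPM : SpecOPM) (hPOL : SpecPOL)
    (hf₀ : ContMDiff 𝓘(ℝ, E2) 𝓘(ℝ, E3) ∞ f₀)
    (hf₁ : ContMDiff 𝓘(ℝ, E2) 𝓘(ℝ, E3) ∞ f₁)
    (hiso : ∀ (x : M) (v : TangentSpace 𝓘(ℝ, E2) x), ‖dF f₁ x v‖ = ‖dF f₀ x v‖)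
    {x : M} (hx : PosC f₀ x) (hcl : x ∈ closure {x : M | Agr f₀ f₁ x}) : Agr f₀ f₁ x := by
  have h1 := hPOL f₀ x hf₀ hx
  obtain ⟨y, hy, hya⟩ := mem_closure_iff_nhds.1 hcl _ h1
  by_cases hyx : y = x
  · rw [← hyx]
    exact hya
  · obtain ⟨R, ψ', hR, S, hgk, hxin, hU⟩ := hy.2 hyx
    obtain ⟨r, hr, hrU⟩ := hU _ (agr_open.mem_nhds hya)
    exact spread hSTR hOPM hf₀ hf₁ hiso S (fun t ht => adm_pos (hgk t ht)) hr
      (fl_level S hr hrU) x hxin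

end

end MLVM

open MLVM in
theorem specMLV (hSTR : SpecSTR) (hPCV : SpecPCV) (hOPM : SpecOPM) (hPOL : SpecPOL) (hFR2 : SpecFR2) :
    SpecMLV := by
  intro M _ _ _ f₀ f₁ ι J ψ i₀ t₀ hf₀ hf₁ hiso hS hA hdis hconn hdense ht₀ hfl
  set A : ι → Set M := fun i => ψ i '' (J i ×ˢ univ) with hAdef
  have hAop : ∀ i, IsOpen (A i) := fun i => hOPM.op f₀ (J i) (ψ i) hf₀ (hS i)
  set B : Set M := {x | PosC f₀ x ∧ Agr f₀ f₁ x} ∪ {x | ∃ i, x ∈ A i ∧ ∀ y ∈ A i, Agr f₀ f₁ y} with hB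
  have hpos_open : IsOpen {x : M | PosC f₀ x} := by
    rw [isOpen_iff_mem_nhds]
    intro x hx
    filter_upwards [hPOL f₀ x hf₀ hx] with y hy
    exact hy.1
  have hBop : IsOpen B := by
    apply IsOpen.union
    · exact hpos_open.inter agr_open
    · have : {x | ∃ i, x ∈ A i ∧ ∀ y ∈ A i, Agr f₀ f₁ y} =
          ⋃ i, ⋃ (_ : ∀ y ∈ A i, Agr f₀ f₁ y), A i := by
        ext x
        simp only [mem_ofPred_eq, mem_iUnion]
        constructor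
        · rintro ⟨i, hi, hag⟩
          exact ⟨i, hag, hi⟩
        · rintro ⟨i, hag, hi⟩
          exact ⟨i, hi, hag⟩
      rw [this]
      exact isOpen_iUnion fun i => isOpen_iUnion fun _ => hAop i
  have hBagr : B ⊆ {x | Agr f₀ f₁ x} := by
    rintro x (hx | ⟨i, hi, hag⟩)
    · exact hx.2
    · exact hag x hi
  -- a strip which meets the set of positive curvature in a point of agreement
  have hstrip : ∀ i, ∀ y ∈ A i, PosC f₀ y → Agr f₀ f₁ y → ∀ x ∈ A i, Agr f₀ f₁ x := by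
    intro i y hy hyp hya
    obtain ⟨⟨t₂, θ₂⟩, ⟨ht₂, -⟩, rfl⟩ := hy
    have ht₂' : t₂ ∈ J i := ht₂
    have S := hS i
    have hop : IsOpen (J i ×ˢ (univ : Set ℝ)) := S.oJ.prod isOpen_univ
    have hsm : ∀ θ, ContMDiffAt 𝓘(ℝ, ℝ × ℝ) 𝓘(ℝ, E2) ∞ (ψ i) (t₂, θ) := fun θ =>
      S.sm.contMDiffAt (hop.mem_nhds ⟨ht₂', mem_univ _⟩)
    have hiff : ∀ θ, PosC f₀ (ψ i (t₂, θ)) ↔ 0 < gk (fun t θ => f₀ (ψ i (t, θ))) t₂ θ := fun θ =>
      hPCV f₀ (ψ i) (t₂, θ) hf₀ (hsm θ) (S.im t₂ ht₂' θ)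
    have hg2 := (hiff θ₂).1 hyp
    obtain ⟨j, k, -, -, ⟨hvan, hne⟩, -⟩ := hA i t₂ ht₂'
    have hk : k = 0 := by
      by_contra hk
      have := hvan 0 (Nat.pos_of_ne_zero hk) θ₂
      have h0 : gk (fun t θ => f₀ (ψ i (t, θ))) t₂ θ₂ = 0 := this
      linarith
    subst hk
    have hne' : ∀ θ, gk (fun t θ => f₀ (ψ i (t, θ))) t₂ θ ≠ 0 := fun θ => hne θ
    have hcont : Continuous fun θ => gk (fun t θ => f₀ (ψ i (t, θ))) t₂ θ := by
      have h1 := (hFR2.sm S.oJ (BNDM.slice_sm hf₀ S.sm)).2.2.2.2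
      have h2 : ContinuousOn (fun p : ℝ × ℝ => gk (fun t θ => f₀ (ψ i (t, θ))) p.1 p.2)
          (J i ×ˢ univ) := ContDiffOn.continuousOn h1
      have h3 : Continuous fun θ : ℝ => ((t₂, θ) : ℝ × ℝ) := by fun_prop
      have h4 := h2.comp_continuous h3 (fun θ => ⟨ht₂', mem_univ _⟩)
      exact h4
    have hgpos : ∀ θ, 0 < gk (fun t θ => f₀ (ψ i (t, θ))) t₂ θ := by
      intro θ
      by_contra hcon
      have hlt : gk (fun t θ => f₀ (ψ i (t, θ))) t₂ θ < 0 := lt_of_le_of_ne (not_lt.1 hcon) (hne' θ)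
      obtain ⟨θ', hθ'⟩ := mem_range_of_exists_le_of_exists_ge hcont ⟨θ, hlt.le⟩ ⟨θ₂, hg2.le⟩
      exact hne' θ' hθ'
    have hlev : ∀ θ, Agr f₀ f₁ (ψ i (t₂, θ)) := by
      have hc : Continuous fun θ : ℝ => ψ i (t₂, θ) := by
        rw [continuous_iff_continuousAt]
        intro θ
        have h2 : ContinuousAt (fun θ : ℝ => ((t₂, θ) : ℝ × ℝ)) θ := by fun_prop
        exact ContinuousAt.comp (g := ψ i) (strip_cont S ht₂' θ) h2
      have hpre : IsPreconnected (range fun θ : ℝ => ψ i (t₂, θ)) := isPreconnected_range hc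
      have hsub : (range fun θ : ℝ => ψ i (t₂, θ)) ⊆ {x | Agr f₀ f₁ x} := by
        apply hpre.subset_of_closure_inter_subset agr_open
        · exact ⟨_, ⟨θ₂, rfl⟩, hya⟩
        · rintro x ⟨hxc, ⟨θ, rfl⟩⟩
          exact closed_pos hSTR hOPM hPOL hf₀ hf₁ hiso ((hiff θ).2 (hgpos θ)) hxc
      intro θ
      exact hsub ⟨θ, rfl⟩
    exact spread hSTR hOPM hf₀ hf₁ hiso S (hA i) ht₂' (fl_level S ht₂' hlev)
  have hclos : closure B ∩ {x | PosC f₀ x ∨ ∃ i, x ∈ ψ i '' (J i ×ˢ univ)} ⊆ B := by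
    rintro x ⟨hxc, hxU⟩
    by_cases hp : PosC f₀ x
    · left
      exact ⟨hp, closed_pos hSTR hOPM hPOL hf₀ hf₁ hiso hp (closure_mono hBagr hxc)⟩
    · rcases hxU with h | ⟨i, hi⟩
      · exact absurd h hp
      · right
        obtain ⟨y, hyA, hyB⟩ := mem_closure_iff.1 hxc (A i) (hAop i) hi
        rcases hyB with ⟨hyp, hya⟩ | ⟨j, hyj, hag⟩
        · exact ⟨i, hi, hstrip i y hyA hyp hya⟩
        · by_cases hij : i = j
          · subst hij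
            exact ⟨i, hi, hag⟩
          · have hyp := hdis i j hij y hyA hyj
            exact ⟨i, hi, hstrip i y hyA hyp (hag y hyj)⟩
  have hA0 : ∀ x ∈ A i₀, Agr f₀ f₁ x := spread hSTR hOPM hf₀ hf₁ hiso (hS i₀) (hA i₀) ht₀ hfl
  have hmem0 : ψ i₀ (t₀, 0) ∈ A i₀ := ⟨(t₀, 0), ⟨ht₀, mem_univ _⟩, rfl⟩
  have hUB : {x | PosC f₀ x ∨ ∃ i, x ∈ ψ i '' (J i ×ˢ univ)} ⊆ B := by
    apply hconn.subset_of_closure_inter_subset hBop
    · exact ⟨ψ i₀ (t₀, 0), Or.inr ⟨i₀, hmem0⟩, Or.inr ⟨i₀, hmem0, hA0⟩⟩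
    · exact hclos
  have heq : EqOn f₁ f₀ {x | PosC f₀ x ∨ ∃ i, x ∈ ψ i '' (J i ×ˢ univ)} := by
    intro x hx
    exact (hBagr (hUB hx)).self_of_nhds
  have := Continuous.ext_on hdense hf₁.continuous hf₀.continuous heq
  intro x
  rw [this]

end Rim478
end

section
set_option autoImplicit false

/-!
# MP_478c11_gt, part G: OPM (strips are open)
-/

open Real MeasureTheory Set Filter Topology
open scoped ContDiff InnerProductSpace Manifold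

namespace Rim478

namespace OPMM

theorem cr_lin_left (x y : ℝ) (a b : E3) : cr (x • a + y • b) b = x • cr a b := by
  unfold cr
  ext i
  fin_cases i
  · simp; ring
  · simp; ring
  · simp; ring

theorem cr_lin_right (x y : ℝ) (a b : E3) : cr a (x • a + y • b) = y • cr a b := by
  unfold cr
  ext i
  fin_cases i
  · simp; ring
  · simp; ring
  · simp; ring

theorem cr_zero_left (b : E3) : cr 0 b = 0 := by
  unfold cr
  ext i
  fin_cases i <;> simp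

theorem cr_zero_right (a : E3) : cr a 0 = 0 := by
  unfold cr
  ext i
  fin_cases i <;> simp

/-- the derivative of a map whose normal does not vanish is injective -/
theorem inj_of_cN {F : ℝ × ℝ → E3} {p : ℝ × ℝ} (hF : DifferentiableAt ℝ F p)
    (h : cN (fun t θ => F (t, θ)) p.1 p.2 ≠ 0) : Function.Injective (fderiv ℝ F p) := by
  have hd : HasFDerivAt F (fderiv ℝ F p) (p.1, p.2) := hF.hasFDerivAt
  have e1 : pt (fun t θ => F (t, θ)) p.1 p.2 = fderiv ℝ F p (1, 0) := by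
    have h1 : HasDerivAt (fun s : ℝ => ((s, p.2) : ℝ × ℝ)) (1, 0) p.1 :=
      (hasDerivAt_id p.1).prodMk (hasDerivAt_const p.1 p.2)
    exact (hd.comp_hasDerivAt p.1 h1).deriv
  have e2 : ph (fun t θ => F (t, θ)) p.1 p.2 = fderiv ℝ F p (0, 1) := by
    have h1 : HasDerivAt (fun s : ℝ => ((p.1, s) : ℝ × ℝ)) (0, 1) p.2 :=
      (hasDerivAt_const p.2 p.1).prodMk (hasDerivAt_id p.2)
    exact (hd.comp_hasDerivAt p.2 h1).deriv
  unfold cN at h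
  rw [e1, e2] at h
  rw [injective_iff_map_eq_zero]
  intro a ha
  have e3 : a = a.1 • ((1, 0) : ℝ × ℝ) + a.2 • ((0, 1) : ℝ × ℝ) := by
    ext <;> simp
  have e4 : a.1 • fderiv ℝ F p (1, 0) + a.2 • fderiv ℝ F p (0, 1) = 0 := by
    rw [← ha]
    conv_rhs => rw [e3]
    rw [map_add, map_smul, map_smul]
  have e5 := cr_lin_left a.1 a.2 (fderiv ℝ F p (1, 0)) (fderiv ℝ F p (0, 1))
  have e6 := cr_lin_right a.1 a.2 (fderiv ℝ F p (1, 0)) (fderiv ℝ F p (0, 1))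
  rw [e4, cr_zero_left] at e5
  rw [e4, cr_zero_right] at e6
  have a1 : a.1 = 0 := (smul_eq_zero.1 e5.symm).resolve_right h
  have a2 : a.2 = 0 := (smul_eq_zero.1 e6.symm).resolve_right h
  exact Prod.ext a1 a2

variable {M : Type} [TopologicalSpace M] [ChartedSpace E2 M] [IsManifold 𝓘(ℝ, E2) ∞ M]

/-- a smooth map in a chart -/
theorem contDiffOn_chart {u : M → E3} (hu : ContMDiff 𝓘(ℝ, E2) 𝓘(ℝ, E3) ∞ u) (x : M) :
    ContDiffOn ℝ ∞ (u ∘ (extChartAt 𝓘(ℝ, E2) x).symm) (extChartAt 𝓘(ℝ, E2) x).target :=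
  contMDiffOn_iff_contDiffOn.1
    (hu.comp_contMDiffOn (contMDiffOn_extChartAt_symm (I := 𝓘(ℝ, E2)) (n := ∞) x))

theorem nb {f : M → E3} {ψ : ℝ × ℝ → M} {p : ℝ × ℝ} (hf : ContMDiff 𝓘(ℝ, E2) 𝓘(ℝ, E3) ∞ f)
    (hψ : ContMDiffAt 𝓘(ℝ, ℝ × ℝ) 𝓘(ℝ, E2) ∞ ψ p)
    (hN : cN (fun t θ => f (ψ (t, θ))) p.1 p.2 ≠ 0) : map ψ (𝓝 p) = 𝓝 (ψ p) := by
  set c := extChartAt 𝓘(ℝ, E2) (ψ p) with hc
  have htar : IsOpen c.target := isOpen_extChartAt_target (I := 𝓘(ℝ, E2)) (ψ p)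
  have hxt : c (ψ p) ∈ c.target := mem_extChartAt_target (I := 𝓘(ℝ, E2)) (ψ p)
  have hsrc : ∀ᶠ q in 𝓝 p, ψ q ∈ c.source :=
    hψ.continuousAt.preimage_mem_nhds (extChartAt_source_mem_nhds (I := 𝓘(ℝ, E2)) (ψ p))
  -- g = c ∘ ψ
  have hg : ContDiffAt ℝ ∞ (fun q => c (ψ q)) p := by
    have h1 : ContMDiffAt 𝓘(ℝ, E2) 𝓘(ℝ, E2) ∞ c (ψ p) :=
      contMDiffAt_extChartAt (I := 𝓘(ℝ, E2)) (n := ∞)
    have h2 : ContMDiffAt 𝓘(ℝ, ℝ × ℝ) 𝓘(ℝ, E2) ∞ (fun q => c (ψ q)) p :=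
      ContMDiffAt.comp p h1 hψ
    exact contMDiffAt_iff_contDiffAt.1 h2
  have hF : ContDiffAt ℝ ∞ (f ∘ c.symm) (c (ψ p)) :=
    (contDiffOn_chart hf (ψ p)).contDiffAt (htar.mem_nhds hxt)
  have hone : (∞ : WithTop ℕ∞) ≠ 0 := by simp
  have hgs := hg.hasStrictFDerivAt hone
  have hFd : DifferentiableAt ℝ (f ∘ c.symm) (c (ψ p)) := hF.differentiableAt hone
  have hgd : DifferentiableAt ℝ (fun q => c (ψ q)) p := hg.differentiableAt hone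
  have hev : (fun q => f (ψ q)) =ᶠ[𝓝 p] (f ∘ c.symm) ∘ (fun q => c (ψ q)) := by
    filter_upwards [hsrc] with q hq
    simp [c.left_inv hq]
  have hcomp : fderiv ℝ (fun q => f (ψ q)) p =
      (fderiv ℝ (f ∘ c.symm) (c (ψ p))).comp (fderiv ℝ (fun q => c (ψ q)) p) := by
    rw [hev.fderiv_eq]
    exact fderiv_comp p hFd hgd
  have hfd : DifferentiableAt ℝ (fun q => f (ψ q)) p :=
    (DifferentiableAt.comp p hFd hgd).congr_of_eventuallyEq hev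
  have hinj : Function.Injective (fderiv ℝ (fun q => f (ψ q)) p) := inj_of_cN hfd hN
  have hginj : Function.Injective (fderiv ℝ (fun q => c (ψ q)) p) := by
    intro a b hab
    apply hinj
    rw [hcomp]
    simp only [ContinuousLinearMap.comp_apply]
    rw [hab]
  have hsurj : Function.Surjective (fderiv ℝ (fun q => c (ψ q)) p) := by
    have hdim : Module.finrank ℝ (ℝ × ℝ) = Module.finrank ℝ E2 := by simp
    exact (LinearMap.injective_iff_surjective_of_finrank_eq_finrank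
      (f := (fderiv ℝ (fun q => c (ψ q)) p).toLinearMap) hdim).1 hginj
  have hrange : (fderiv ℝ (fun q => c (ψ q)) p).range = ⊤ :=
    LinearMap.range_eq_top.2 hsurj
  have hmap : map (fun q => c (ψ q)) (𝓝 p) = 𝓝 (c (ψ p)) :=
    hgs.map_nhds_eq_of_surj hrange
  have hsym : map c.symm (𝓝 (c (ψ p))) = 𝓝 (ψ p) := by
    have h1 := map_extChartAt_symm_nhdsWithin_range (I := 𝓘(ℝ, E2)) (ψ p)
    rwa [ModelWithCorners.range_eq_univ, nhdsWithin_univ] at h1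
  rw [← hsym, ← hmap, map_map]
  apply Filter.map_congr
  filter_upwards [hsrc] with q hq
  exact (c.left_inv hq).symm

end OPMM

/-- **OPM**, strips are open. -/
theorem specOPM : SpecOPM where
  nb := by
    intro M _ _ _ f ψ p hf hψ hN
    exact OPMM.nb hf hψ hN
  op := by
    intro M _ _ _ f J ψ hf S
    rw [isOpen_iff_mem_nhds]
    rintro x ⟨p, hp, rfl⟩
    have hn : J ×ˢ (univ : Set ℝ) ∈ 𝓝 p := (S.oJ.prod isOpen_univ).mem_nhds hp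
    have h1 := OPMM.nb (p := p) hf (S.sm.contMDiffAt hn) (S.im p.1 hp.1 p.2)
    rw [← h1]
    exact image_mem_map hn

end Rim478
end

section
set_option autoImplicit false

/-!
# PCV: the sign of the curvature does not depend on the coordinates
-/

open Real MeasureTheory Set Filter Topology
open scoped ContDiff InnerProductSpace Manifold

namespace Rim478

namespace PCVM

section calcs
variable {V : Type} [NormedAddCommGroup V] [NormedSpace ℝ V]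

theorem pt_near {G : ℝ × ℝ → V} {p : ℝ × ℝ} (h : ContDiffAt ℝ 2 G p) :
    ∀ᶠ q in 𝓝 p, pt (fun t θ => G (t, θ)) q.1 q.2 = fderiv ℝ G q (1, 0) := by
  filter_upwards [h.eventually (by simp)] with q hq
  have hd : HasFDerivAt G (fderiv ℝ G q) q := (hq.differentiableAt (by simp)).hasFDerivAt
  have h1 : HasDerivAt (fun s : ℝ => ((s, q.2) : ℝ × ℝ)) (1, 0) q.1 := (hasDerivAt_id q.1).prodMk (hasDerivAt_const q.1 q.2)
  exact (hd.comp_hasDerivAt q.1 h1).deriv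

theorem ph_near {G : ℝ × ℝ → V} {p : ℝ × ℝ} (h : ContDiffAt ℝ 2 G p) :
    ∀ᶠ q in 𝓝 p, ph (fun t θ => G (t, θ)) q.1 q.2 = fderiv ℝ G q (0, 1) := by
  filter_upwards [h.eventually (by simp)] with q hq
  have hd : HasFDerivAt G (fderiv ℝ G q) q := (hq.differentiableAt (by simp)).hasFDerivAt
  have h1 : HasDerivAt (fun s : ℝ => ((q.1, s) : ℝ × ℝ)) (0, 1) q.2 := (hasDerivAt_const q.2 q.1).prodMk (hasDerivAt_id q.2)
  exact (hd.comp_hasDerivAt q.2 h1).deriv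

/-- second partial derivatives through the second differential, general form -/
theorem d_first {G : ℝ × ℝ → V} {H : ℝ → ℝ → V} {v : ℝ × ℝ} {p : ℝ × ℝ} (h : ContDiffAt ℝ 2 G p)
    (hH : ∀ᶠ q in 𝓝 p, H q.1 q.2 = fderiv ℝ G q v) :
    pt H p.1 p.2 = fderiv ℝ (fderiv ℝ G) p (1, 0) v ∧ ph H p.1 p.2 = fderiv ℝ (fderiv ℝ G) p (0, 1) v := by
  have h1 : DifferentiableAt ℝ (fderiv ℝ G) p := (h.fderiv_right (m := 1) (by norm_num)).differentiableAt (by simp)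
  have h2 : HasFDerivAt (fun q => fderiv ℝ G q v) ((ContinuousLinearMap.apply ℝ V v).comp (fderiv ℝ (fderiv ℝ G) p)) p :=
    (ContinuousLinearMap.apply ℝ V v).hasFDerivAt.comp p h1.hasFDerivAt
  constructor
  · have h3 : HasDerivAt (fun s : ℝ => ((s, p.2) : ℝ × ℝ)) (1, 0) p.1 := (hasDerivAt_id p.1).prodMk (hasDerivAt_const p.1 p.2)
    have h4 : Tendsto (fun s : ℝ => ((s, p.2) : ℝ × ℝ)) (𝓝 p.1) (𝓝 p) := h3.continuousAt
    have h5 : (fun s => H s p.2) =ᶠ[𝓝 p.1] (fun s => fderiv ℝ G (s, p.2) v) := h4.eventually hH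
    show deriv (fun s => H s p.2) p.1 = _
    rw [h5.deriv_eq]
    exact (h2.comp_hasDerivAt p.1 h3).deriv
  · have h3 : HasDerivAt (fun s : ℝ => ((p.1, s) : ℝ × ℝ)) (0, 1) p.2 := (hasDerivAt_const p.2 p.1).prodMk (hasDerivAt_id p.2)
    have h4 : Tendsto (fun s : ℝ => ((p.1, s) : ℝ × ℝ)) (𝓝 p.2) (𝓝 p) := h3.continuousAt
    have h5 : (fun s => H p.1 s) =ᶠ[𝓝 p.2] (fun s => fderiv ℝ G (p.1, s) v) := h4.eventually hH
    show deriv (fun s => H p.1 s) p.2 = _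
    rw [h5.deriv_eq]
    exact (h2.comp_hasDerivAt p.2 h3).deriv

/-- chain rule of second order -/
theorem chain2 {F : E2 → E3} {Φ : ℝ × ℝ → E2} {G : ℝ × ℝ → E3} {p : ℝ × ℝ} (hG : ContDiffAt ℝ 2 G p)
    (hF : ContDiffAt ℝ 2 F (Φ p)) (hΦ : ContDiffAt ℝ 2 Φ p) (he : G =ᶠ[𝓝 p] fun q => F (Φ q)) (w v : ℝ × ℝ) :
    fderiv ℝ G p v = fderiv ℝ F (Φ p) (fderiv ℝ Φ p v) ∧
    fderiv ℝ (fderiv ℝ G) p w v = fderiv ℝ (fderiv ℝ F) (Φ p) (fderiv ℝ Φ p w) (fderiv ℝ Φ p v) +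
      fderiv ℝ F (Φ p) (fderiv ℝ (fderiv ℝ Φ) p w v) := by
  have e1 : ∀ᶠ q in 𝓝 p, fderiv ℝ G q = (fderiv ℝ F (Φ q)).comp (fderiv ℝ Φ q) := by
    have a1 : ∀ᶠ q in 𝓝 p, DifferentiableAt ℝ F (Φ q) :=
      hΦ.continuousAt.eventually ((hF.eventually (by simp)).mono fun y hy => hy.differentiableAt (by simp))
    have a2 : ∀ᶠ q in 𝓝 p, DifferentiableAt ℝ Φ q := (hΦ.eventually (by simp)).mono fun y hy => hy.differentiableAt (by simp)
    filter_upwards [he.eventuallyEq_nhds, a1, a2] with q h0 h1 h2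
    rw [h0.fderiv_eq]
    exact fderiv_comp q h1 h2
  have e2 : (fun q => fderiv ℝ G q v) =ᶠ[𝓝 p] fun q => fderiv ℝ F (Φ q) (fderiv ℝ Φ q v) :=
    e1.mono fun q hq => by
      show fderiv ℝ G q v = _
      rw [hq]; rfl
  have d1 : DifferentiableAt ℝ (fderiv ℝ G) p := (hG.fderiv_right (m := 1) (by norm_num)).differentiableAt (by simp)
  have d2 : DifferentiableAt ℝ (fderiv ℝ F) (Φ p) := (hF.fderiv_right (m := 1) (by norm_num)).differentiableAt (by simp)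
  have d3 : DifferentiableAt ℝ (fderiv ℝ Φ) p := (hΦ.fderiv_right (m := 1) (by norm_num)).differentiableAt (by simp)
  have d4 : DifferentiableAt ℝ Φ p := hΦ.differentiableAt (by simp)
  have h2 : HasFDerivAt (fun q => fderiv ℝ G q v) ((ContinuousLinearMap.apply ℝ E3 v).comp (fderiv ℝ (fderiv ℝ G) p)) p :=
    (ContinuousLinearMap.apply ℝ E3 v).hasFDerivAt.comp p d1.hasFDerivAt
  have h3 : HasFDerivAt (fun q => fderiv ℝ Φ q v) ((ContinuousLinearMap.apply ℝ E2 v).comp (fderiv ℝ (fderiv ℝ Φ) p)) p :=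
    (ContinuousLinearMap.apply ℝ E2 v).hasFDerivAt.comp p d3.hasFDerivAt
  have h4 : HasFDerivAt (fun q => fderiv ℝ F (Φ q)) ((fderiv ℝ (fderiv ℝ F) (Φ p)).comp (fderiv ℝ Φ p)) p :=
    d2.hasFDerivAt.comp p d4.hasFDerivAt
  have h5 := h4.clm_apply h3
  have h6 := (h2.congr_of_eventuallyEq e2.symm).unique h5
  refine ⟨?_, ?_⟩
  · rw [e1.self_of_nhds]; rfl
  · have h7 := congrArg (fun L : (ℝ × ℝ) →L[ℝ] E3 => L w) h6
    simp only [ContinuousLinearMap.comp_apply, ContinuousLinearMap.apply_apply, add_apply,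
      ContinuousLinearMap.flip_apply] at h7
    rw [h7]
    abel

end calcs

noncomputable def e0 : E2 := EuclideanSpace.single 0 1
noncomputable def e1 : E2 := EuclideanSpace.single 1 1

theorem dec (v : E2) : v = v 0 • e0 + v 1 • e1 := by
  ext i
  fin_cases i <;> simp [e0, e1]

theorem cr_comb' (p q r s : ℝ) (a b : E3) : cr (p • a + q • b) (r • a + s • b) = (p * s - q * r) • cr a b := by
  apply CRSM.ext3 <;>
  · simp only [CRSM.cr0, CRSM.cr1, CRSM.cr2, PiLp.add_apply, PiLp.smul_apply, smul_eq_mul]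
    ring

/-- the normal of the chart -/
noncomputable def NN (F : E2 → E3) (y : E2) : E3 := cr (fderiv ℝ F y e0) (fderiv ℝ F y e1)

/-- the second fundamental form of the chart -/
noncomputable def BB (F : E2 → E3) (y v w : E2) : ℝ := ⟪fderiv ℝ (fderiv ℝ F) y v w, NN F y⟫_ℝ

noncomputable def KK (F : E2 → E3) (y : E2) : ℝ := BB F y e0 e0 * BB F y e1 e1 - BB F y e0 e1 ^ 2

/-- the determinant of the differential -/
noncomputable def dd (a b : E2) : ℝ := a 0 * b 1 - a 1 * b 0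

theorem orth (F : E2 → E3) (y v : E2) : ⟪fderiv ℝ F y v, NN F y⟫_ℝ = 0 := by
  rw [dec v, map_add, map_smul, map_smul, inner_add_left, inner_smul_left, inner_smul_left,
    real_inner_comm, NN, CRSM.o10, real_inner_comm, CRSM.o20]
  simp

theorem local_formula {F : E2 → E3} {Φ : ℝ × ℝ → E2} {G : ℝ × ℝ → E3} {p : ℝ × ℝ} (hG : ContDiffAt ℝ 2 G p)
    (hF : ContDiffAt ℝ 2 F (Φ p)) (hΦ : ContDiffAt ℝ 2 Φ p) (he : G =ᶠ[𝓝 p] fun q => F (Φ q)) :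
    ∃ δ : ℝ, cN (fun t θ => G (t, θ)) p.1 p.2 = δ • NN F (Φ p) ∧
      gk (fun t θ => G (t, θ)) p.1 p.2 = δ ^ 4 * KK F (Φ p) := by
  have c1 := fun w v => (chain2 hG hF hΦ he w v).1
  have c2 := fun w v => (chain2 hG hF hΦ he w v).2
  obtain ⟨a, ha⟩ : ∃ a, a = fderiv ℝ Φ p (1, 0) := ⟨_, rfl⟩
  obtain ⟨b, hb⟩ : ∃ b, b = fderiv ℝ Φ p (0, 1) := ⟨_, rfl⟩
  have p1 : pt (fun t θ => G (t, θ)) p.1 p.2 = fderiv ℝ F (Φ p) a := by
    rw [(pt_near hG).self_of_nhds, c1 0, ha]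
  have p2 : ph (fun t θ => G (t, θ)) p.1 p.2 = fderiv ℝ F (Φ p) b := by
    rw [(ph_near hG).self_of_nhds, c1 0, hb]
  have p11 := (d_first hG (pt_near hG)).1
  have p12 := (d_first hG (pt_near hG)).2
  have p22 := (d_first hG (ph_near hG)).2
  rw [c2, ← ha] at p11
  rw [c2, ← ha, ← hb] at p12
  rw [c2, ← hb] at p22
  have hN : cN (fun t θ => G (t, θ)) p.1 p.2 = dd a b • NN F (Φ p) := by
    rw [cN, p1, p2]
    conv_lhs => rw [dec a, dec b, map_add, map_smul, map_smul, map_add, map_smul, map_smul, cr_comb']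
    rfl
  have hB : ∀ v w, BB F (Φ p) v w = v 0 * w 0 * BB F (Φ p) e0 e0 + (v 0 * w 1 + v 1 * w 0) * BB F (Φ p) e0 e1
      + v 1 * w 1 * BB F (Φ p) e1 e1 := by
    intro v w
    have hs : BB F (Φ p) e1 e0 = BB F (Φ p) e0 e1 := by
      have := (hF.isSymmSndFDerivAt (by simp)).eq e1 e0
      rw [BB, BB, this]
    have h1 : BB F (Φ p) v w = BB F (Φ p) (v 0 • e0 + v 1 • e1) (w 0 • e0 + w 1 • e1) := by
      rw [← dec, ← dec]
    rw [h1, BB]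
    simp only [map_add, map_smul, add_apply, smul_apply, inner_add_left,
      inner_smul_left]
    simp only [BB] at hs ⊢
    simp only [conj_trivial]
    rw [hs]
    ring
  have g11 : gl (fun t θ => G (t, θ)) p.1 p.2 = dd a b * BB F (Φ p) a a := by
    rw [gl, hN, p11, inner_add_left, inner_smul_right, inner_smul_right, orth, BB]
    ring
  have g12 : gm (fun t θ => G (t, θ)) p.1 p.2 = dd a b * BB F (Φ p) b a := by
    rw [gm, hN, p12, inner_add_left, inner_smul_right, inner_smul_right, orth, BB]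
    ring
  have g22 : gn (fun t θ => G (t, θ)) p.1 p.2 = dd a b * BB F (Φ p) b b := by
    rw [gn, hN, p22, inner_add_left, inner_smul_right, inner_smul_right, orth, BB]
    ring
  refine ⟨dd a b, hN, ?_⟩
  rw [gk, g11, g12, g22, hB a a, hB b a, hB b b, KK, dd]
  ring

variable {M : Type} [TopologicalSpace M] [ChartedSpace E2 M] [IsManifold 𝓘(ℝ, E2) ∞ M]

/-- the map in the chart at `x` -/
noncomputable def FF (f : M → E3) (x : M) : E2 → E3 := f ∘ (extChartAt 𝓘(ℝ, E2) x).symm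

theorem formula {f : M → E3} (hf : ContMDiff 𝓘(ℝ, E2) 𝓘(ℝ, E3) ∞ f) {ψ : ℝ × ℝ → M} {p : ℝ × ℝ}
    (hψ : ContMDiffAt 𝓘(ℝ, ℝ × ℝ) 𝓘(ℝ, E2) ∞ ψ p) :
    ∃ δ : ℝ, cN (fun t θ => f (ψ (t, θ))) p.1 p.2 = δ • NN (FF f (ψ p)) (extChartAt 𝓘(ℝ, E2) (ψ p) (ψ p)) ∧
      gk (fun t θ => f (ψ (t, θ))) p.1 p.2 = δ ^ 4 * KK (FF f (ψ p)) (extChartAt 𝓘(ℝ, E2) (ψ p) (ψ p)) := by
  set c := extChartAt 𝓘(ℝ, E2) (ψ p) with hc
  have htar : IsOpen c.target := isOpen_extChartAt_target (I := 𝓘(ℝ, E2)) (ψ p)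
  have hxt : c (ψ p) ∈ c.target := mem_extChartAt_target (I := 𝓘(ℝ, E2)) (ψ p)
  have hsrc : ∀ᶠ q in 𝓝 p, ψ q ∈ c.source :=
    hψ.continuousAt.preimage_mem_nhds (extChartAt_source_mem_nhds (I := 𝓘(ℝ, E2)) (ψ p))
  have hΦ : ContDiffAt ℝ ∞ (fun q => c (ψ q)) p := by
    have h1 : ContMDiffAt 𝓘(ℝ, E2) 𝓘(ℝ, E2) ∞ c (ψ p) :=
      contMDiffAt_extChartAt (I := 𝓘(ℝ, E2)) (n := ∞)
    have h2 : ContMDiffAt 𝓘(ℝ, ℝ × ℝ) 𝓘(ℝ, E2) ∞ (fun q => c (ψ q)) p := ContMDiffAt.comp p h1 hψ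
    exact contMDiffAt_iff_contDiffAt.1 h2
  have hG : ContDiffAt ℝ ∞ (fun q => f (ψ q)) p := by
    have h2 : ContMDiffAt 𝓘(ℝ, ℝ × ℝ) 𝓘(ℝ, E3) ∞ (fun q => f (ψ q)) p := ContMDiffAt.comp p (hf (ψ p)) hψ
    exact contMDiffAt_iff_contDiffAt.1 h2
  have hF : ContDiffAt ℝ ∞ (FF f (ψ p)) (c (ψ p)) := by
    have h1 : ContMDiffAt 𝓘(ℝ, E2) 𝓘(ℝ, E2) ∞ c.symm (c (ψ p)) :=
      (contMDiffOn_extChartAt_symm (I := 𝓘(ℝ, E2)) (n := ∞) (ψ p)).contMDiffAt (htar.mem_nhds hxt)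
    have h2 : ContMDiffAt 𝓘(ℝ, E2) 𝓘(ℝ, E3) ∞ (f ∘ c.symm) (c (ψ p)) := ContMDiffAt.comp _ (hf _) h1
    exact contMDiffAt_iff_contDiffAt.1 h2
  have h2le : (2 : WithTop ℕ∞) ≤ ∞ := by
    have h : ((2 : ℕ∞) : WithTop ℕ∞) ≤ ((⊤ : ℕ∞) : WithTop ℕ∞) := WithTop.coe_le_coe.2 le_top
    exact h
  have he : (fun q => f (ψ q)) =ᶠ[𝓝 p] fun q => FF f (ψ p) (c (ψ q)) := by
    filter_upwards [hsrc] with q hq
    show f (ψ q) = f (c.symm (c (ψ q)))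
    rw [c.left_inv hq]
  exact local_formula (Φ := fun q => c (ψ q)) (hG.of_le h2le) (hF.of_le h2le) (hΦ.of_le h2le) he

end PCVM

open PCVM in
theorem specPCV : SpecPCV := by
  intro M _ _ _ f ψ p hf hψ hN
  obtain ⟨δ, h1, h2⟩ := formula hf hψ
  have hδ : δ ≠ 0 := by
    rintro rfl
    rw [zero_smul] at h1
    exact hN h1
  have hδ4 : 0 < δ ^ 4 := by positivity
  rw [h2]
  constructor
  · rintro ⟨ψ', hψ', h0, hpos⟩
    obtain ⟨δ', h1', h2'⟩ := formula hf hψ'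
    have h2'' : gk (fun t θ => f (ψ' (t, θ))) 0 0 = _ := h2'
    rw [h2'', h0] at hpos
    have : 0 < KK (FF f (ψ p)) (extChartAt 𝓘(ℝ, E2) (ψ p) (ψ p)) := by
      by_contra hcon
      push Not at hcon
      have h4 : 0 ≤ δ' ^ 4 := by positivity
      nlinarith [mul_nonneg_of_nonpos_of_nonpos hcon (neg_nonpos.2 h4), hpos]
    positivity
  · intro hpos
    have hs : ContMDiff 𝓘(ℝ, ℝ × ℝ) 𝓘(ℝ, ℝ × ℝ) ∞ (fun q : ℝ × ℝ => p + q) := by
      have : ContDiff ℝ ∞ (fun q : ℝ × ℝ => p + q) := contDiff_const.add contDiff_id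
      exact this.contMDiff
    have hψ0 : ContMDiffAt 𝓘(ℝ, ℝ × ℝ) 𝓘(ℝ, E2) ∞ (fun q : ℝ × ℝ => ψ (p + q)) 0 := by
      refine ContMDiffAt.comp (0 : ℝ × ℝ) ?_ (hs 0)
      rw [add_zero]
      exact hψ
    refine ⟨fun q => ψ (p + q), hψ0, by simp, ?_⟩
    obtain ⟨δ', h1', h2'⟩ := formula hf hψ0
    have hK : 0 < KK (FF f (ψ p)) (extChartAt 𝓘(ℝ, E2) (ψ p) (ψ p)) := by
      by_contra hcon
      push Not at hcon
      nlinarith [mul_nonneg_of_nonpos_of_nonpos hcon (neg_nonpos.2 hδ4.le), hpos]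
    have hδ' : δ' ≠ 0 := by
      rintro rfl
      rw [zero_smul] at h1'
      apply hN
      have e1 : pt (fun t θ => f (ψ (t, θ))) p.1 p.2 = pt (fun t θ => f (ψ (p + (t, θ)))) 0 0 := by
        have := deriv_comp_const_add (fun s => f (ψ (s, p.2))) p.1 0
        simp only [add_zero] at this
        rw [pt, pt, ← this]
        congr 1
        funext s
        have e : p + (s, (0:ℝ)) = (p.1 + s, p.2) := by ext <;> simp
        rw [e]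
      have e2 : ph (fun t θ => f (ψ (t, θ))) p.1 p.2 = ph (fun t θ => f (ψ (p + (t, θ)))) 0 0 := by
        have := deriv_comp_const_add (fun s => f (ψ (p.1, s))) p.2 0
        simp only [add_zero] at this
        rw [ph, ph, ← this]
        congr 1
        funext s
        have e : p + ((0:ℝ), s) = (p.1, p.2 + s) := by ext <;> simp
        rw [e]
      rw [cN, e1, e2]
      exact h1'
    have hδ4' : 0 < δ' ^ 4 := by positivity
    have h3 : gk (fun t θ => f (ψ (p + (t, θ)))) 0 0 = _ := h2'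
    rw [h3]
    simp only [add_zero]
    positivity

end Rim478
end

section
set_option autoImplicit false

/-!
MP_478c11_gt, part G (helper64): polar strips around the points of positive curvature.
-/

open Real MeasureTheory Set Filter Topology
open scoped ContDiff InnerProductSpace Manifold

namespace Rim478

namespace POLM

/-- the two basis vectors of the plane -/
noncomputable def e0 : E2 := EuclideanSpace.single 0 1
noncomputable def e1 : E2 := EuclideanSpace.single 1 1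

lemma e2_eq (a : E2) : a = a 0 • e0 + a 1 • e1 := by
  ext i
  fin_cases i <;> simp [e0, e1]

lemma c0 (s r : ℝ) : (s • e0 + r • e1 : E2) 0 = s := by simp [e0, e1]

lemma c1 (s r : ℝ) : (s • e0 + r • e1 : E2) 1 = r := by simp [e0, e1]

lemma nrm (s r : ℝ) : ‖(s • e0 + r • e1 : E2)‖ = Real.sqrt (s ^ 2 + r ^ 2) := by
  rw [EuclideanSpace.norm_eq, Fin.sum_univ_two, c0, c1, Real.norm_eq_abs, Real.norm_eq_abs, sq_abs, sq_abs]

lemma nrm_pol {t : ℝ} (ht : 0 ≤ t) (θ : ℝ) : ‖((t * cos θ) • e0 + (t * sin θ) • e1 : E2)‖ = t := by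
  rw [nrm]
  have : (t * cos θ) ^ 2 + (t * sin θ) ^ 2 = t ^ 2 := by
    linear_combination t ^ 2 * (Real.sin_sq_add_cos_sq θ)
  rw [this, Real.sqrt_sq ht]

/-- polar coordinates of a vector -/
lemma pol_ex (v : E2) : ∃ θ : ℝ, v = (‖v‖ * cos θ) • e0 + (‖v‖ * sin θ) • e1 := by
  have hv : ‖v‖ = ‖(⟨v 0, v 1⟩ : ℂ)‖ := by
    rw [e2_eq v, nrm, Complex.norm_def, Complex.normSq_apply, ← e2_eq v]
    congr 1
    ring
  refine ⟨Complex.arg ⟨v 0, v 1⟩, ?_⟩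
  rw [hv, Complex.norm_mul_cos_arg, Complex.norm_mul_sin_arg]
  exact e2_eq v

lemma cr_lin (u v : E3) (a b c d : ℝ) : cr (a • u + b • v) (c • u + d • v) = (a * d - b * c) • cr u v := by
  ext i
  fin_cases i <;> simp [cr] <;> ring

section
variable {V : Type} [NormedAddCommGroup V] [NormedSpace ℝ V]

lemma pt_sm {O : Set (ℝ × ℝ)} (hO : IsOpen O) {G : ℝ → ℝ → V}
    (hG : ContDiffOn ℝ ∞ (fun p : ℝ × ℝ => G p.1 p.2) O) : ContDiffOn ℝ ∞ (fun p : ℝ × ℝ => pt G p.1 p.2) O := by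
  have h1 : ContDiffOn ℝ ∞ (fun p => fderiv ℝ (fun p : ℝ × ℝ => G p.1 p.2) p ((1 : ℝ), (0 : ℝ))) O :=
    (hG.fderiv_of_isOpen hO (by simp)).clm_apply contDiffOn_const
  refine h1.congr fun p hp => ?_
  have hd : HasFDerivAt (fun p : ℝ × ℝ => G p.1 p.2) (fderiv ℝ (fun p : ℝ × ℝ => G p.1 p.2) (p.1, p.2)) (p.1, p.2) :=
    ((hG.contDiffAt (hO.mem_nhds hp)).differentiableAt (by simp)).hasFDerivAt
  have h2 : HasDerivAt (fun s : ℝ => ((s, p.2) : ℝ × ℝ)) (1, 0) p.1 :=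
    (hasDerivAt_id p.1).prodMk (hasDerivAt_const p.1 p.2)
  exact (hd.comp_hasDerivAt p.1 h2).deriv

lemma ph_sm {O : Set (ℝ × ℝ)} (hO : IsOpen O) {G : ℝ → ℝ → V}
    (hG : ContDiffOn ℝ ∞ (fun p : ℝ × ℝ => G p.1 p.2) O) : ContDiffOn ℝ ∞ (fun p : ℝ × ℝ => ph G p.1 p.2) O := by
  have h1 : ContDiffOn ℝ ∞ (fun p => fderiv ℝ (fun p : ℝ × ℝ => G p.1 p.2) p ((0 : ℝ), (1 : ℝ))) O :=
    (hG.fderiv_of_isOpen hO (by simp)).clm_apply contDiffOn_const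
  refine h1.congr fun p hp => ?_
  have hd : HasFDerivAt (fun p : ℝ × ℝ => G p.1 p.2) (fderiv ℝ (fun p : ℝ × ℝ => G p.1 p.2) (p.1, p.2)) (p.1, p.2) :=
    ((hG.contDiffAt (hO.mem_nhds hp)).differentiableAt (by simp)).hasFDerivAt
  have h2 : HasDerivAt (fun s : ℝ => ((p.1, s) : ℝ × ℝ)) (0, 1) p.2 :=
    (hasDerivAt_const p.2 p.1).prodMk (hasDerivAt_id p.2)
  exact (hd.comp_hasDerivAt p.2 h2).deriv

end

/-- `gk` is continuous -/
lemma gk_cont {O : Set (ℝ × ℝ)} (hO : IsOpen O) {X : ℝ → ℝ → E3}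
    (hX : ContDiffOn ℝ ∞ (fun p : ℝ × ℝ => X p.1 p.2) O) : ContinuousOn (fun p : ℝ × ℝ => gk X p.1 p.2) O := by
  have a1 := pt_sm hO hX
  have a2 := ph_sm hO hX
  have b1 := pt_sm hO a1
  have b2 := ph_sm hO a1
  have b3 := ph_sm hO a2
  have c : ContDiffOn ℝ ∞ (fun p : ℝ × ℝ => cN X p.1 p.2) O := hCRS.sm.comp_contDiffOn (a1.prodMk a2)
  have l := (b1.inner ℝ c).continuousOn
  have m := (b2.inner ℝ c).continuousOn
  have n := (b3.inner ℝ c).continuousOn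
  exact (l.mul n).sub (m.pow 2)

lemma gk_zero {X : ℝ → ℝ → E3} {t θ : ℝ} (h : cN X t θ = 0) : gk X t θ = 0 := by
  unfold gk gl gm gn
  rw [h]
  simp

/-- the chain rule for the normal -/
lemma cN_comp {F : E2 → E3} {Φ : ℝ → ℝ → E2} {t θ : ℝ} {F' : E2 →L[ℝ] E3} {a b : E2}
    (hF : HasFDerivAt F F' (Φ t θ)) (ha : HasDerivAt (fun s => Φ s θ) a t) (hb : HasDerivAt (fun s => Φ t s) b θ) :
    cN (fun t θ => F (Φ t θ)) t θ = (a 0 * b 1 - a 1 * b 0) • cr (F' e0) (F' e1) := by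
  have h1 : pt (fun t θ => F (Φ t θ)) t θ = F' a := (hF.comp_hasDerivAt t ha).deriv
  have h2 : ph (fun t θ => F (Φ t θ)) t θ = F' b := (hF.comp_hasDerivAt θ hb).deriv
  unfold cN
  rw [h1, h2]
  conv_lhs => rw [e2_eq a, e2_eq b]
  simp only [map_add, map_smul]
  exact cr_lin _ _ _ _ _ _

end POLM

open POLM in
theorem specPOL (hPCV : SpecPCV) : SpecPOL := by
  intro M _ _ _ f x hf hx
  set φ := extChartAt 𝓘(ℝ, E2) x with hφ
  have htar : IsOpen φ.target := isOpen_extChartAt_target (I := 𝓘(ℝ, E2)) x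
  have hxt : φ x ∈ φ.target := mem_extChartAt_target (I := 𝓘(ℝ, E2)) x
  have sφ : ContMDiffOn 𝓘(ℝ, E2) 𝓘(ℝ, E2) ∞ φ.symm φ.target := contMDiffOn_extChartAt_symm (I := 𝓘(ℝ, E2)) (n := ∞) x
  obtain ⟨F, hF⟩ : ∃ F : E2 → E3, F = fun z => f (φ.symm z) := ⟨_, rfl⟩
  have sF : ContDiffOn ℝ ∞ F φ.target := by
    rw [hF]
    exact contMDiffOn_iff_contDiffOn.1 (hf.comp_contMDiffOn sφ)
  have dF' : ∀ z ∈ φ.target, HasFDerivAt F (fderiv ℝ F z) z := fun z hz =>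
    ((sF.contDiffAt (htar.mem_nhds hz)).differentiableAt (by simp)).hasFDerivAt
  obtain ⟨nn, hnn⟩ : ∃ nn : E2 → E3, nn = fun z => cr (fderiv ℝ F z e0) (fderiv ℝ F z e1) := ⟨_, rfl⟩
  have key : ∀ (Φ : ℝ → ℝ → E2) (t θ : ℝ) (a b : E2), Φ t θ ∈ φ.target → HasDerivAt (fun s => Φ s θ) a t →
      HasDerivAt (fun s => Φ t s) b θ →
      cN (fun t θ => f (φ.symm (Φ t θ))) t θ = (a 0 * b 1 - a 1 * b 0) • nn (Φ t θ) := by
    intro Φ t θ a b hz ha hb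
    have h := cN_comp (dF' _ hz) ha hb
    rw [hF] at h
    rw [hnn, hF]
    exact h
  -- the normal at the point
  have hn0 : nn (φ x) ≠ 0 := by
    intro h0
    obtain ⟨ψ, sψ, ψ0, gψ⟩ := hx
    have hsrc : ∀ᶠ p in 𝓝 (0 : ℝ × ℝ), ψ p ∈ φ.source := by
      have h1 : ContinuousAt ψ 0 := sψ.continuousAt
      have h2 : φ.source ∈ 𝓝 (ψ 0) := by rw [ψ0]; exact extChartAt_source_mem_nhds (I := 𝓘(ℝ, E2)) x
      exact h1.preimage_mem_nhds h2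
    have hd : DifferentiableAt ℝ (fun p => φ (ψ p)) 0 := by
      have h1 : ContMDiffAt 𝓘(ℝ, E2) 𝓘(ℝ, E2) ∞ φ (ψ 0) := by
        rw [ψ0]; exact contMDiffAt_extChartAt (I := 𝓘(ℝ, E2)) (n := ∞)
      have h2 : ContMDiffAt 𝓘(ℝ, ℝ × ℝ) 𝓘(ℝ, E2) ∞ (fun p => φ (ψ p)) 0 := ContMDiffAt.comp (0 : ℝ × ℝ) h1 sψ
      exact (contMDiffAt_iff_contDiffAt.1 h2).differentiableAt (by simp)
    have l1 : HasDerivAt (fun s : ℝ => ((s, 0) : ℝ × ℝ)) (1, 0) 0 := (hasDerivAt_id (0:ℝ)).prodMk (hasDerivAt_const 0 0)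
    have l2 : HasDerivAt (fun s : ℝ => ((0, s) : ℝ × ℝ)) (0, 1) 0 := (hasDerivAt_const 0 0).prodMk (hasDerivAt_id (0:ℝ))
    have ha : HasDerivAt (fun s : ℝ => φ (ψ (s, 0))) (fderiv ℝ (fun p => φ (ψ p)) 0 (1, 0)) 0 :=
      HasFDerivAt.comp_hasDerivAt (0:ℝ) (f := fun s : ℝ => ((s, 0) : ℝ × ℝ)) hd.hasFDerivAt l1
    have hb : HasDerivAt (fun s : ℝ => φ (ψ (0, s))) (fderiv ℝ (fun p => φ (ψ p)) 0 (0, 1)) 0 :=
      HasFDerivAt.comp_hasDerivAt (0:ℝ) (f := fun s : ℝ => ((0, s) : ℝ × ℝ)) hd.hasFDerivAt l2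
    have h00 : φ (ψ ((0:ℝ), (0:ℝ))) = φ x := by
      have : ψ ((0:ℝ), (0:ℝ)) = x := ψ0
      rw [this]
    have hk := key (fun t θ => φ (ψ (t, θ))) 0 0 _ _ (by rw [h00]; exact hxt) ha hb
    rw [h00, h0, smul_zero] at hk
    have e : cN (fun t θ => f (ψ (t, θ))) 0 0 = 0 := by
      rw [← hk]
      have t1 : Tendsto (fun s : ℝ => ((s, 0) : ℝ × ℝ)) (𝓝 0) (𝓝 0) := l1.continuousAt
      have t2 : Tendsto (fun s : ℝ => ((0, s) : ℝ × ℝ)) (𝓝 0) (𝓝 0) := l2.continuousAt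
      have p1 : pt (fun t θ => f (ψ (t, θ))) 0 0 = pt (fun t θ => f (φ.symm (φ (ψ (t, θ))))) 0 0 := by
        refine Filter.EventuallyEq.deriv_eq ?_
        filter_upwards [t1.eventually hsrc] with s hs
        rw [φ.left_inv hs]
      have p2 : ph (fun t θ => f (ψ (t, θ))) 0 0 = ph (fun t θ => f (φ.symm (φ (ψ (t, θ))))) 0 0 := by
        refine Filter.EventuallyEq.deriv_eq ?_
        filter_upwards [t2.eventually hsrc] with s hs
        rw [φ.left_inv hs]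
      unfold cN
      rw [p1, p2]
    rw [gk_zero e] at gψ
    exact lt_irrefl _ gψ
  -- cartesian coordinates
  obtain ⟨A, hA⟩ : ∃ A : ℝ → ℝ → E2, A = fun t θ => φ x + (t • e0 + θ • e1) := ⟨_, rfl⟩
  have sA : ContDiff ℝ ∞ (fun p : ℝ × ℝ => A p.1 p.2) := by
    rw [hA]
    exact contDiff_const.add ((contDiff_fst.smul contDiff_const).add (contDiff_snd.smul contDiff_const))
  have A0 : A 0 0 = φ x := by rw [hA]; simp
  have dA1 : ∀ t θ, HasDerivAt (fun s => A s θ) e0 t := by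
    intro t θ
    rw [hA]
    have := (((hasDerivAt_id t).smul_const e0).add_const (θ • e1)).const_add (φ x)
    simpa using this
  have dA2 : ∀ t θ, HasDerivAt (fun s => A t s) e1 θ := by
    intro t θ
    rw [hA]
    have := (((hasDerivAt_id θ).smul_const e1).const_add (t • e0)).const_add (φ x)
    simpa using this
  have cA : ∀ t θ, A t θ ∈ φ.target → cN (fun t θ => f (φ.symm (A t θ))) t θ = nn (A t θ) := by
    intro t θ hz
    rw [key A t θ _ _ hz (dA1 t θ) (dA2 t θ)]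
    have : (e0 0 * e1 1 - e0 1 * e1 0 : ℝ) = 1 := by simp [e0, e1]
    rw [this, one_smul]
  have hO : IsOpen ((fun p : ℝ × ℝ => A p.1 p.2) ⁻¹' φ.target) := htar.preimage sA.continuous
  have sX : ContDiffOn ℝ ∞ (fun p : ℝ × ℝ => f (φ.symm (A p.1 p.2))) ((fun p : ℝ × ℝ => A p.1 p.2) ⁻¹' φ.target) := by
    have := sF.comp sA.contDiffOn (fun p hp => hp)
    rw [hF] at this
    exact this
  have sψ : ∀ p : ℝ × ℝ, A p.1 p.2 ∈ φ.target →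
      ContMDiffAt 𝓘(ℝ, ℝ × ℝ) 𝓘(ℝ, E2) ∞ (fun p : ℝ × ℝ => φ.symm (A p.1 p.2)) p := by
    intro p hp
    have h1 : ContMDiffAt 𝓘(ℝ, E2) 𝓘(ℝ, E2) ∞ φ.symm (A p.1 p.2) := sφ.contMDiffAt (htar.mem_nhds hp)
    exact ContMDiffAt.comp p h1 sA.contMDiff.contMDiffAt
  have hps : φ.symm (φ x) = x := extChartAt_to_inv x
  have pcv : ∀ p : ℝ × ℝ, A p.1 p.2 ∈ φ.target → nn (A p.1 p.2) ≠ 0 →
      (PosC f (φ.symm (A p.1 p.2)) ↔ 0 < gk (fun t θ => f (φ.symm (A t θ))) p.1 p.2) := by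
    intro p hp hn
    exact hPCV f (fun p : ℝ × ℝ => φ.symm (A p.1 p.2)) p hf (sψ p hp) (by rw [cA p.1 p.2 hp]; exact hn)
  have g0 : 0 < gk (fun t θ => f (φ.symm (A t θ))) 0 0 := by
    have h := pcv (0, 0) (by simp only; rw [A0]; exact hxt) (by simp only; rw [A0]; exact hn0)
    simp only at h
    rw [A0, hps] at h
    exact h.1 hx
  -- a good ball
  have good : ∀ᶠ z in 𝓝 (φ x), z ∈ φ.target ∧ nn z ≠ 0 ∧ PosC f (φ.symm z) := by
    have c1 : ContinuousAt (fun p : ℝ × ℝ => gk (fun t θ => f (φ.symm (A t θ))) p.1 p.2) (0, 0) := by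
      refine (gk_cont hO sX).continuousAt (hO.mem_nhds ?_)
      simp only [mem_preimage]
      rw [A0]
      exact hxt
    have c2 : ∀ᶠ p in 𝓝 ((0:ℝ), (0:ℝ)), 0 < gk (fun t θ => f (φ.symm (A t θ))) p.1 p.2 :=
      c1.eventually (lt_mem_nhds g0)
    have c3 : Tendsto (fun z : E2 => (((z - φ x) 0, (z - φ x) 1) : ℝ × ℝ)) (𝓝 (φ x)) (𝓝 ((0:ℝ), (0:ℝ))) := by
      have h1 : Continuous (fun z : E2 => (((z - φ x) 0, (z - φ x) 1) : ℝ × ℝ)) := by fun_prop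
      have h2 := h1.tendsto (φ x)
      simpa using h2
    filter_upwards [c3.eventually c2, htar.mem_nhds hxt] with z hz hzt
    have hAz : A ((z - φ x) 0) ((z - φ x) 1) = z := by
      rw [hA]
      simp only
      rw [← e2_eq (z - φ x)]
      abel
    have hn : nn z ≠ 0 := by
      intro h0
      have h1 := cA ((z - φ x) 0) ((z - φ x) 1) (by rw [hAz]; exact hzt)
      rw [hAz, h0] at h1
      rw [gk_zero h1] at hz
      exact lt_irrefl _ hz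
    have h2 := (pcv ((z - φ x) 0, (z - φ x) 1) (by simp only; rw [hAz]; exact hzt) (by simp only; rw [hAz]; exact hn)).2 hz
    simp only at h2
    rw [hAz] at h2
    exact ⟨hzt, hn, h2⟩
  obtain ⟨R₂, hR₂, hball⟩ := Metric.eventually_nhds_iff_ball.1 good
  obtain ⟨R, hR, hRR⟩ : ∃ R : ℝ, 0 < R ∧ R + R ≤ R₂ := ⟨R₂ / 2, by positivity, by linarith⟩
  have cφ : ContinuousAt φ x := continuousAt_extChartAt (I := 𝓘(ℝ, E2)) x
  filter_upwards [extChartAt_source_mem_nhds (I := 𝓘(ℝ, E2)) x, cφ.preimage_mem_nhds (Metric.ball_mem_nhds (φ x) hR)] with y hys hyb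
  have hyb' : dist (φ y) (φ x) < R := hyb
  have hysym : φ.symm (φ y) = y := φ.left_inv hys
  have inb : ∀ w : E2, ‖w‖ < R → φ y + w ∈ Metric.ball (φ x) R₂ := by
    intro w hw
    rw [Metric.mem_ball]
    have h1 : dist (φ y + w) (φ x) ≤ dist (φ y + w) (φ y) + dist (φ y) (φ x) := dist_triangle _ _ _
    have h2 : dist (φ y + w) (φ y) = ‖w‖ := by rw [dist_eq_norm]; congr 1; abel
    linarith
  refine ⟨?_, fun hyx => ?_⟩
  · have := (hball (φ y) (by rw [Metric.mem_ball]; linarith)).2.2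
    rwa [hysym] at this
  -- the polar strip
  obtain ⟨Ψ, hΨ⟩ : ∃ Ψ : ℝ → ℝ → E2, Ψ = fun t θ => φ y + ((t * cos θ) • e0 + (t * sin θ) • e1) := ⟨_, rfl⟩
  have sΨ : ContDiff ℝ ∞ (fun p : ℝ × ℝ => Ψ p.1 p.2) := by
    rw [hΨ]
    exact contDiff_const.add (((contDiff_fst.mul (contDiff_cos.comp contDiff_snd)).smul contDiff_const).add
      ((contDiff_fst.mul (contDiff_sin.comp contDiff_snd)).smul contDiff_const))
  have mΨ : ∀ t ∈ Ioo 0 R, ∀ θ, Ψ t θ ∈ Metric.ball (φ x) R₂ := by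
    intro t ht θ
    rw [hΨ]
    exact inb _ (by rw [nrm_pol ht.1.le]; exact ht.2)
  have dΨ1 : ∀ t θ, HasDerivAt (fun s => Ψ s θ) (cos θ • e0 + sin θ • e1) t := by
    intro t θ
    rw [hΨ]
    have := ((((hasDerivAt_id t).mul_const (cos θ)).smul_const e0).add
      (((hasDerivAt_id t).mul_const (sin θ)).smul_const e1)).const_add (φ y)
    simpa using this
  have dΨ2 : ∀ t θ, HasDerivAt (fun s => Ψ t s) ((-(t * sin θ)) • e0 + (t * cos θ) • e1) θ := by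
    intro t θ
    rw [hΨ]
    have := ((((hasDerivAt_cos θ).const_mul t).smul_const e0).add
      (((hasDerivAt_sin θ).const_mul t).smul_const e1)).const_add (φ y)
    simpa using this
  have cΨ : ∀ t ∈ Ioo 0 R, ∀ θ, cN (fun t θ => f (φ.symm (Ψ t θ))) t θ ≠ 0 := by
    intro t ht θ
    obtain ⟨hz, hn, -⟩ := hball _ (mΨ t ht θ)
    rw [key Ψ t θ _ _ hz (dΨ1 t θ) (dΨ2 t θ), c0, c1, c0, c1]
    refine smul_ne_zero ?_ hn
    have : cos θ * (t * cos θ) - sin θ * -(t * sin θ) = t := by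
      linear_combination t * (Real.sin_sq_add_cos_sq θ)
    rw [this]
    exact ht.1.ne'
  have sm : ContMDiffOn 𝓘(ℝ, ℝ × ℝ) 𝓘(ℝ, E2) ∞ (fun p : ℝ × ℝ => φ.symm (Ψ p.1 p.2)) (Ioo 0 R ×ˢ univ) := by
    refine sφ.comp sΨ.contMDiff.contMDiffOn (fun p hp => ?_)
    exact (hball _ (mΨ p.1 hp.1 p.2)).1
  refine ⟨R, fun p => φ.symm (Ψ p.1 p.2), hR, ⟨isOpen_Ioo, ordConnected_Ioo, sm, ?_, cΨ⟩, ?_, ?_, ?_⟩
  · intro t _ θ
    simp only [hΨ, cos_add_two_pi, sin_add_two_pi]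
  · intro t ht θ
    have hop : IsOpen (Ioo 0 R ×ˢ (univ : Set ℝ)) := isOpen_Ioo.prod isOpen_univ
    have h1 : ContMDiffAt 𝓘(ℝ, ℝ × ℝ) 𝓘(ℝ, E2) ∞ (fun p : ℝ × ℝ => φ.symm (Ψ p.1 p.2)) (t, θ) :=
      sm.contMDiffAt (hop.mem_nhds ⟨ht, mem_univ _⟩)
    exact (hPCV f (fun p : ℝ × ℝ => φ.symm (Ψ p.1 p.2)) (t, θ) hf h1 (cΨ t ht θ)).1 (hball _ (mΨ t ht θ)).2.2
  · obtain ⟨θ, hθ⟩ := pol_ex (φ x - φ y)
    have hne : φ x ≠ φ y := by
      intro h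
      apply hyx
      have := φ.injOn (mem_extChartAt_source (I := 𝓘(ℝ, E2)) x) hys h
      exact this.symm
    refine ⟨(‖φ x - φ y‖, θ), ⟨⟨norm_pos_iff.2 (sub_ne_zero.2 hne), ?_⟩, mem_univ _⟩, ?_⟩
    · rw [← dist_eq_norm, dist_comm]
      exact hyb'
    · simp only [hΨ]
      rw [← hθ, add_sub_cancel, hps]
  · intro U hU
    have h1 : ContinuousAt φ.symm (φ y) :=
      (sφ.continuousOn).continuousAt (htar.mem_nhds (φ.map_source hys))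
    have h2 : φ.symm ⁻¹' U ∈ 𝓝 (φ y) := h1.preimage_mem_nhds (by rw [hysym]; exact hU)
    obtain ⟨ε, hε, hεU⟩ := Metric.mem_nhds_iff.1 h2
    refine ⟨min ε R / 2, ⟨by positivity, ?_⟩, fun θ => ?_⟩
    · have := min_le_right ε R
      linarith
    · refine hεU ?_
      simp only [hΨ]
      rw [Metric.mem_ball, dist_eq_norm, add_sub_cancel_left, nrm_pol (by positivity)]
      have := min_le_left ε R
      linarith
end Rim478
end

section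
set_option autoImplicit false

/-!
# MP_478c11_gt, part G: RF2 (rotation by `π` in the parameter plane)
-/

open Real MeasureTheory Set Filter Topology
open scoped ContDiff InnerProductSpace Manifold

namespace Rim478

namespace RF2M

section
variable {V : Type} [NormedAddCommGroup V] [NormedSpace ℝ V]

theorem pt_rf (u : ℝ → ℝ → V) (t θ : ℝ) : pt (rf u) t θ = -pt u (-t) (-θ) := by
  unfold pt rf
  exact deriv_comp_neg (fun s => u s (-θ)) t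

theorem ph_rf (u : ℝ → ℝ → V) (t θ : ℝ) : ph (rf u) t θ = -ph u (-t) (-θ) := by
  unfold ph rf
  exact deriv_comp_neg (fun s => u (-t) s) θ

theorem pt_smul (c : ℝ) (u : ℝ → ℝ → V) (t θ : ℝ) : pt (fun t θ => c • u t θ) t θ = c • pt u t θ := by
  unfold pt
  exact deriv_const_smul_field c (fun s => u s θ)

theorem ph_smul (c : ℝ) (u : ℝ → ℝ → V) (t θ : ℝ) : ph (fun t θ => c • u t θ) t θ = c • ph u t θ := by
  unfold ph
  exact deriv_const_smul_field c (fun s => u t s)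

theorem pt_rf_fun (u : ℝ → ℝ → V) : pt (rf u) = fun t θ => (-1 : ℝ) • rf (pt u) t θ := by
  funext t θ
  rw [pt_rf, neg_one_smul]
  rfl

theorem ph_rf_fun (u : ℝ → ℝ → V) : ph (rf u) = fun t θ => (-1 : ℝ) • rf (ph u) t θ := by
  funext t θ
  rw [ph_rf, neg_one_smul]
  rfl

theorem ptpt_rf (u : ℝ → ℝ → V) (t θ : ℝ) : pt (pt (rf u)) t θ = pt (pt u) (-t) (-θ) := by
  rw [pt_rf_fun, pt_smul, pt_rf, neg_one_smul, neg_neg]

theorem phpt_rf (u : ℝ → ℝ → V) (t θ : ℝ) : ph (pt (rf u)) t θ = ph (pt u) (-t) (-θ) := by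
  rw [pt_rf_fun, ph_smul, ph_rf, neg_one_smul, neg_neg]

theorem phph_rf (u : ℝ → ℝ → V) (t θ : ℝ) : ph (ph (rf u)) t θ = ph (ph u) (-t) (-θ) := by
  rw [ph_rf_fun, ph_smul, ph_rf, neg_one_smul, neg_neg]

theorem it_rf (u : ℝ → ℝ → V) (i : ℕ) : pt^[i] (rf u) = fun t θ => ((-1 : ℝ) ^ i) • (pt^[i] u) (-t) (-θ) := by
  induction i with
  | zero =>
    funext t θ
    simp [rf]
  | succ i ih =>
    rw [Function.iterate_succ_apply', ih]
    funext t θ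
    have h := pt_smul ((-1 : ℝ) ^ i) (rf (pt^[i] u)) t θ
    have h2 : pt (fun t θ => ((-1 : ℝ) ^ i) • (pt^[i] u) (-t) (-θ)) t θ = ((-1 : ℝ) ^ i) • pt (rf (pt^[i] u)) t θ := h
    rw [h2, pt_rf, Function.iterate_succ_apply', pow_succ, mul_neg_one, neg_smul, smul_neg]

theorem sj_rf {J : Set ℝ} {u : ℝ → ℝ → V} (hu : SJ J u) : SJ {t | -t ∈ J} (rf u) := by
  unfold SJ at *
  have h1 : ContDiffOn ℝ ∞ (fun p : ℝ × ℝ => ((-p.1, -p.2) : ℝ × ℝ)) ({t | -t ∈ J} ×ˢ univ) :=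
    (contDiff_fst.neg.prodMk contDiff_snd.neg).contDiffOn
  exact hu.comp h1 (fun p hp => ⟨hp.1, mem_univ _⟩)

omit [NormedAddCommGroup V] [NormedSpace ℝ V] in
theorem per_rf {J : Set ℝ} {u : ℝ → ℝ → V} (hu : Per J u) : Per {t | -t ∈ J} (rf u) := by
  intro t ht θ
  have h := hu (-t) ht (-(θ + 2 * π))
  unfold rf
  rw [← h]
  congr 1
  ring

theorem fl_rf {u : ℝ → ℝ → V} {t₁ : ℝ} (h : Fl t₁ u) : Fl (-t₁) (rf u) := by
  intro k θ
  rw [it_rf]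
  simp only [neg_neg]
  rw [h k (-θ), smul_zero]

end

theorem cr_neg_neg (a b : E3) : cr (-a) (-b) = cr a b := by
  unfold cr
  ext i
  fin_cases i
  · simp
  · simp
  · simp

theorem cN_rf (X : ℝ → ℝ → E3) (t θ : ℝ) : cN (rf X) t θ = cN X (-t) (-θ) := by
  unfold cN
  rw [pt_rf, ph_rf, cr_neg_neg]

theorem gl_rf (X : ℝ → ℝ → E3) (t θ : ℝ) : gl (rf X) t θ = gl X (-t) (-θ) := by
  unfold gl
  rw [ptpt_rf, cN_rf]

theorem gm_rf (X : ℝ → ℝ → E3) (t θ : ℝ) : gm (rf X) t θ = gm X (-t) (-θ) := by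
  unfold gm
  rw [phpt_rf, cN_rf]

theorem gn_rf (X : ℝ → ℝ → E3) (t θ : ℝ) : gn (rf X) t θ = gn X (-t) (-θ) := by
  unfold gn
  rw [phph_rf, cN_rf]

theorem gk_rf (X : ℝ → ℝ → E3) (t θ : ℝ) : gk (rf X) t θ = gk X (-t) (-θ) := by
  unfold gk
  rw [gl_rf, gm_rf, gn_rf]

theorem van_rf {u : ℝ → ℝ → ℝ} {t₁ : ℝ} {k : ℕ} (h : Van t₁ k u) : Van (-t₁) k (rf u) := by
  intro i hi θ
  rw [it_rf]
  simp only [neg_neg]
  rw [h i hi (-θ), smul_zero]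

theorem ord_rf {u : ℝ → ℝ → ℝ} {t₁ : ℝ} {k : ℕ} (h : Ord t₁ k u) : Ord (-t₁) k (rf u) := by
  refine ⟨van_rf h.1, fun θ => ?_⟩
  rw [it_rf]
  simp only [neg_neg]
  exact smul_ne_zero (pow_ne_zero _ (by norm_num)) (h.2 (-θ))

end RF2M

open RF2M in
/-- **RF2**. -/
theorem specRF2 : SpecRF2 where
  si := by
    intro J X Y h
    refine ⟨sj_rf h.sX, sj_rf h.sY, per_rf h.pX, per_rf h.pY, ?_, ?_, ?_, ?_⟩
    · intro t ht θ
      rw [pt_rf, pt_rf, inner_neg_neg, inner_neg_neg]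
      exact h.tt (-t) ht (-θ)
    · intro t ht θ
      rw [pt_rf, pt_rf, ph_rf, ph_rf, inner_neg_neg, inner_neg_neg]
      exact h.th (-t) ht (-θ)
    · intro t ht θ
      rw [ph_rf, ph_rf, inner_neg_neg, inner_neg_neg]
      exact h.hh (-t) ht (-θ)
    · intro t ht θ
      rw [cN_rf]
      exact h.im (-t) ht (-θ)
  adm := by
    rintro X t₁ ⟨j, k, h1, h2, h3, h4⟩
    have e1 : gn (rf X) = rf (gn X) := by
      funext t θ
      exact gn_rf X t θ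
    have e2 : gm (rf X) = rf (gm X) := by
      funext t θ
      exact gm_rf X t θ
    have e3 : gk (rf X) = rf (gk X) := by
      funext t θ
      exact gk_rf X t θ
    refine ⟨j, k, ?_, ?_, ?_, h4⟩
    · rw [e1]
      exact ord_rf h1
    · rw [e2]
      exact van_rf h2
    · rw [e3]
      exact ord_rf h3
  fl := by
    intro V _ _ u t₁ h
    exact fl_rf h
  pt0 := by
    intro V _ _ u t θ
    exact pt_rf u t θ
  gl0 := fun X t θ => ⟨gl_rf X t θ, gm_rf X t θ, gn_rf X t θ⟩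

end Rim478
end

section
set_option autoImplicit false

/-!
Module RT2 of MP_478c11_gt, part G (helper93): uniqueness to the right of an admissible level.
-/

open Real MeasureTheory Set Filter Topology
open scoped ContDiff InnerProductSpace Manifold

namespace Rim478

namespace RT2M

open LCRM

/-! ### pointwise estimates -/

lemma nuB {sm sn smh snh A : ℝ} (hA : 0 ≤ A) (hsn : sn ≠ 0) (h1 : |sm| ≤ A * |sn|) (h2 : |smh| ≤ A * |sn|)
    (h3 : |snh| ≤ A * |sn|) : |sm / sn| ≤ A ∧ |(smh * sn - sm * snh) / sn ^ 2| ≤ A + A ^ 2 := by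
  have hp : 0 < |sn| := abs_pos.2 hsn
  constructor
  · rw [abs_div, div_le_iff₀ hp]
    exact h1
  · rw [abs_div, abs_pow, div_le_iff₀ (by positivity)]
    have e1 : |smh * sn - sm * snh| ≤ |smh * sn| + |sm * snh| := abs_sub _ _
    rw [abs_mul, abs_mul] at e1
    have e2 : |smh| * |sn| ≤ A * |sn| * |sn| := mul_le_mul_of_nonneg_right h2 hp.le
    have e3 : |sm| * |snh| ≤ (A * |sn|) * (A * |sn|) :=
      mul_le_mul h1 h3 (abs_nonneg _) (by positivity)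
    calc |smh * sn - sm * snh| ≤ A * |sn| * |sn| + (A * |sn|) * (A * |sn|) := by linarith
      _ = (A + A ^ 2) * |sn| ^ 2 := by ring

/-- the estimate for the logarithmic derivative of `-Δ/sn²` -/
lemma DB {d d' s s' x y A B τ : ℝ} (hs : s ≠ 0) (h1 : |d' - x * d| ≤ B * τ * |d|)
    (h2 : |s' - y * s| ≤ A * τ * |s|) :
    |(-d' * s ^ 2 - -d * (2 * s * s')) / (s ^ 2) ^ 2 - (x - 2 * y) * (-d / s ^ 2)| ≤
      (B + 2 * A) * τ * |-d / s ^ 2| := by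
  have hp : 0 < |s| := abs_pos.2 hs
  have e1 : (-d' * s ^ 2 - -d * (2 * s * s')) / (s ^ 2) ^ 2 - (x - 2 * y) * (-d / s ^ 2) =
      (-(d' - x * d)) / s ^ 2 + 2 * d * (s' - y * s) / s ^ 3 := by
    field_simp
    ring
  rw [e1]
  refine (abs_add_le _ _).trans ?_
  rw [abs_div, abs_div, abs_div, abs_neg, abs_neg, abs_mul, abs_mul, abs_pow, abs_pow, abs_two]
  have e2 : |d' - x * d| / |s| ^ 2 ≤ B * τ * |d| / |s| ^ 2 := div_le_div_of_nonneg_right h1 (by positivity)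
  have e3 : 2 * |d| * |s' - y * s| / |s| ^ 3 ≤ 2 * |d| * (A * τ * |s|) / |s| ^ 3 :=
    div_le_div_of_nonneg_right (mul_le_mul_of_nonneg_left h2 (by positivity)) (by positivity)
  have e4 : B * τ * |d| / |s| ^ 2 + 2 * |d| * (A * τ * |s|) / |s| ^ 3 = (B + 2 * A) * τ * (|d| / |s| ^ 2) := by
    field_simp
  linarith

/-! ### iterated derivatives of linear combinations -/

section
variable (hD : SpecDR2) {J : Set ℝ} (hJ : IsOpen J)
include hD hJ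

lemma itlin (a b : ℝ) {u v : ℝ → ℝ → ℝ} (hu : SJ J u) (hv : SJ J v) (k : ℕ) : ∀ t ∈ J, ∀ θ,
    (pt^[k] (fun t θ => a * u t θ + b * v t θ)) t θ = a * (pt^[k] u) t θ + b * (pt^[k] v) t θ := by
  induction k with
  | zero => intro t _ θ; rfl
  | succ k ih =>
    intro t ht θ
    rw [Function.iterate_succ_apply', hD.pcg hJ ih t ht θ]
    have h1 := hD.hpt hJ (FLTM.sk hD hJ hu k) t ht θ
    have h2 := hD.hpt hJ (FLTM.sk hD hJ hv k) t ht θ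
    have h3 := ((h1.const_mul a).add (h2.const_mul b)).deriv
    rw [Function.iterate_succ_apply' pt k u, Function.iterate_succ_apply' pt k v]
    exact h3

lemma ptc {u : ℝ → ℝ → ℝ} {a : ℝ} {t : ℝ} (θ : ℝ) (hu : SJ J u) (ht : a + t ∈ J) :
    HasDerivAt (fun s => u (a + s) θ) (pt u (a + t) θ) t :=
  (hD.hpt hJ hu (a + t) ht θ).comp_const_add a t

end

lemma SJ_add {J : Set ℝ} {F G : ℝ → ℝ → ℝ} (hF : SJ J F) (hG : SJ J G) :
    SJ J (fun t θ => F t θ + G t θ) := ContDiffOn.add hF hG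

lemma SJ_lin (a b : ℝ) {J : Set ℝ} {F G : ℝ → ℝ → ℝ} (hF : SJ J F) (hG : SJ J G) :
    SJ J (fun t θ => a * F t θ + b * G t θ) :=
  ContDiffOn.add (ContDiffOn.mul contDiffOn_const hF) (ContDiffOn.mul contDiffOn_const hG)

/-- coefficients are bounded near `t₁` -/
lemma cbd {J : Set ℝ} {u : ℝ → ℝ → ℝ} (h : SJ J u) (hp : Per J u) {t₁ δ : ℝ}
    (hδ : Icc t₁ (t₁ + δ) ⊆ J) : ∃ M : ℝ, 0 ≤ M ∧ ∀ t ∈ Ioo 0 δ, ∀ θ, |u (t₁ + t) θ| ≤ M := by
  obtain ⟨M, h0, hM⟩ := bdd h hp hδ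
  refine ⟨M, h0, fun t ht θ => ?_⟩
  have := hM (t₁ + t) ⟨by linarith [ht.1], by linarith [ht.2]⟩ θ
  rwa [Real.norm_eq_abs] at this

end RT2M

open RT2M LCRM in
theorem specRT2 (hDR2 : SpecDR2) (hFLT : SpecFLT) (hTAY : SpecTAY) (hFR2 : SpecFR2) (hUN2 : SpecUN2) :
    SpecRT2 := by
  intro J X Y t₁ hJ ht₁ h hadm hFl hFm hFn
  obtain ⟨j, k, ⟨hjv, hjn⟩, hmv, ⟨hkv, hkn⟩, hjk⟩ := hadm
  obtain ⟨-, sXl, sXm, sXn, sXk⟩ := hFR2.sm hJ h.sX
  obtain ⟨-, sYl, sYm, sYn, sYk⟩ := hFR2.sm hJ h.sY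
  obtain ⟨-, pXl, pXm, pXn, pXk⟩ := hFR2.per hJ h.pX
  obtain ⟨-, pYl, pYm, pYn, pYk⟩ := hFR2.per hJ h.pY
  have hgau := hFR2.gau hJ h
  obtain ⟨A11, A12, A13, A21, A22, A23, ⟨sA11, sA12, sA13, sA21, sA22, sA23⟩,
    ⟨pA11, pA12, pA13, pA21, pA22, pA23⟩, hcod⟩ := hFR2.cod hJ h
  obtain ⟨l, hl⟩ : ∃ l : ℝ → ℝ → ℝ, l = fun t θ => gl Y t θ - gl X t θ := ⟨_, rfl⟩
  obtain ⟨m, hm⟩ : ∃ m : ℝ → ℝ → ℝ, m = fun t θ => gm Y t θ - gm X t θ := ⟨_, rfl⟩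
  obtain ⟨n, hn⟩ : ∃ n : ℝ → ℝ → ℝ, n = fun t θ => gn Y t θ - gn X t θ := ⟨_, rfl⟩
  obtain ⟨sl, hsl⟩ : ∃ l : ℝ → ℝ → ℝ, l = fun t θ => gl Y t θ + gl X t θ := ⟨_, rfl⟩
  obtain ⟨sm, hsm⟩ : ∃ m : ℝ → ℝ → ℝ, m = fun t θ => gm Y t θ + gm X t θ := ⟨_, rfl⟩
  obtain ⟨sn, hsn⟩ : ∃ n : ℝ → ℝ → ℝ, n = fun t θ => gn Y t θ + gn X t θ := ⟨_, rfl⟩
  obtain ⟨Δ, hΔ⟩ : ∃ n : ℝ → ℝ → ℝ, n = fun t θ => sl t θ * sn t θ - sm t θ ^ 2 := ⟨_, rfl⟩
  rw [← hl] at hFl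
  rw [← hm] at hFm
  rw [← hn] at hFn
  have Sl : SJ J l := by rw [hl]; exact SJ_sub sYl sXl
  have Sm : SJ J m := by rw [hm]; exact SJ_sub sYm sXm
  have Sn : SJ J n := by rw [hn]; exact SJ_sub sYn sXn
  have Ssl : SJ J sl := by rw [hsl]; exact SJ_add sYl sXl
  have Ssm : SJ J sm := by rw [hsm]; exact SJ_add sYm sXm
  have Ssn : SJ J sn := by rw [hsn]; exact SJ_add sYn sXn
  have SΔ : SJ J Δ := by
    rw [hΔ]
    exact ContDiffOn.sub (ContDiffOn.mul Ssl Ssn) (ContDiffOn.pow Ssm 2)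
  have Pl : Per J l := fun t ht θ => by rw [hl]; show _ - _ = _ - _; rw [pYl t ht, pXl t ht]
  have Pm : Per J m := fun t ht θ => by rw [hm]; show _ - _ = _ - _; rw [pYm t ht, pXm t ht]
  have Pn : Per J n := fun t ht θ => by rw [hn]; show _ - _ = _ - _; rw [pYn t ht, pXn t ht]
  have Psl : Per J sl := fun t ht θ => by rw [hsl]; show _ + _ = _ + _; rw [pYl t ht, pXl t ht]
  have Psm : Per J sm := fun t ht θ => by rw [hsm]; show _ + _ = _ + _; rw [pYm t ht, pXm t ht]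
  have Psn : Per J sn := fun t ht θ => by rw [hsn]; show _ + _ = _ + _; rw [pYn t ht, pXn t ht]
  have PΔ : Per J Δ := fun t ht θ => by
    rw [hΔ]; show _ * _ - _ ^ 2 = _ * _ - _ ^ 2; rw [Psl t ht, Psn t ht, Psm t ht]
  -- orders of vanishing
  have esn : ∀ i θ, (pt^[i] sn) t₁ θ = 2 * (pt^[i] (gn X)) t₁ θ := by
    intro i θ
    have h1 := itlin hDR2 hJ 1 2 Sn sXn i t₁ ht₁ θ
    have h2 : (fun t θ => 1 * n t θ + 2 * gn X t θ) = sn := by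
      funext t θ; rw [hn, hsn]; ring
    rw [h2] at h1
    rw [h1, hFn i θ]; ring
  have esm : ∀ i θ, (pt^[i] sm) t₁ θ = 2 * (pt^[i] (gm X)) t₁ θ := by
    intro i θ
    have h1 := itlin hDR2 hJ 1 2 Sm sXm i t₁ ht₁ θ
    have h2 : (fun t θ => 1 * m t θ + 2 * gm X t θ) = sm := by
      funext t θ; rw [hm, hsm]; ring
    rw [h2] at h1
    rw [h1, hFm i θ]; ring
  have eΔ : ∀ i θ, (pt^[i] Δ) t₁ θ = 4 * (pt^[i] (gk X)) t₁ θ := by
    intro i θ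
    have f1 : Fl t₁ (fun t θ => (2 * gl X t θ + 0 * gl X t θ) • n t θ) :=
      hFLT.smul hJ (SJ_lin 2 0 sXl sXl) Sn ht₁ hFn
    have f2 : Fl t₁ (fun t θ => sn t θ • l t θ) := hFLT.smul hJ Ssn Sl ht₁ hFl
    have f3 : Fl t₁ (fun t θ => ((-4) * gm X t θ + (-1) * m t θ) • m t θ) :=
      hFLT.smul hJ (SJ_lin (-4) (-1) sXm Sm) Sm ht₁ hFm
    have g1 : SJ J (fun t θ => (2 * gl X t θ + 0 * gl X t θ) • n t θ) :=
      ContDiffOn.smul (SJ_lin 2 0 sXl sXl) Sn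
    have g2 : SJ J (fun t θ => sn t θ • l t θ) := ContDiffOn.smul Ssn Sl
    have g3 : SJ J (fun t θ => ((-4) * gm X t θ + (-1) * m t θ) • m t θ) :=
      ContDiffOn.smul (SJ_lin (-4) (-1) sXm Sm) Sm
    have f4 := hFLT.add hJ g1 g2 ht₁ f1 f2
    have g4 : SJ J (fun t θ => (2 * gl X t θ + 0 * gl X t θ) • n t θ + sn t θ • l t θ) :=
      ContDiffOn.add g1 g2
    have f5 := hFLT.add hJ g4 g3 ht₁ f4 f3
    have g5 : SJ J (fun t θ => (2 * gl X t θ + 0 * gl X t θ) • n t θ + sn t θ • l t θ +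
        ((-4) * gm X t θ + (-1) * m t θ) • m t θ) := ContDiffOn.add g4 g3
    have h1 := itlin hDR2 hJ 4 1 sXk g5 i t₁ ht₁ θ
    have h2 : (fun t θ => 4 * gk X t θ + 1 * ((2 * gl X t θ + 0 * gl X t θ) • n t θ + sn t θ • l t θ +
        ((-4) * gm X t θ + (-1) * m t θ) • m t θ)) = Δ := by
      funext t θ
      rw [hΔ, hsl, hsm, hsn, hl, hm, hn]
      simp only [smul_eq_mul]
      unfold gk
      ring
    rw [h2] at h1
    rw [h1, f5 i θ]; ring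
  have Osn : Ord t₁ j sn := ⟨fun i hi θ => by rw [esn, hjv i hi θ, mul_zero],
    fun θ => by rw [esn]; exact mul_ne_zero two_ne_zero (hjn θ)⟩
  have Vsm : Van t₁ j sm := fun i hi θ => by rw [esm, hmv i hi θ, mul_zero]
  have OΔ : Ord t₁ k Δ := ⟨fun i hi θ => by rw [eΔ, hkv i hi θ, mul_zero],
    fun θ => by rw [eΔ]; exact mul_ne_zero four_ne_zero (hkn θ)⟩
  obtain ⟨Ca, δa, hCa, hδa, ha⟩ := hTAY.van hJ Ssn Psn ht₁ Osn.1
  obtain ⟨Cb, δb, hCb, hδb, hb⟩ := hTAY.van hJ Ssm Psm ht₁ Vsm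
  obtain ⟨Cc, δc, hCc, hδc, hc⟩ := hTAY.van hJ SΔ PΔ ht₁ OΔ.1
  obtain ⟨ca, δd, sa, hca, hδd, hsa, hd⟩ := hTAY.ord hJ Ssn Psn ht₁ Osn
  obtain ⟨cb, δe, sb, hcb, hδe, hsb, he⟩ := hTAY.ord hJ SΔ PΔ ht₁ OΔ
  obtain ⟨δ, hδdef⟩ : ∃ δ, δ = min 1 (min δa (min δb (min δc (min δd δe)))) / 2 := ⟨_, rfl⟩
  have hmin : 0 < min 1 (min δa (min δb (min δc (min δd δe)))) :=
    lt_min one_pos (lt_min hδa (lt_min hδb (lt_min hδc (lt_min hδd hδe))))
  have hδ0 : 0 < δ := by rw [hδdef]; linarith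
  have hlt : δ < min 1 (min δa (min δb (min δc (min δd δe)))) := by rw [hδdef]; linarith
  have hδ1 : δ < 1 := hlt.trans_le (min_le_left _ _)
  have hlt2 := hlt.trans_le (min_le_right _ _)
  have hδa' : δ < δa := hlt2.trans_le (min_le_left _ _)
  have hlt3 := hlt2.trans_le (min_le_right _ _)
  have hδb' : δ < δb := hlt3.trans_le (min_le_left _ _)
  have hlt4 := hlt3.trans_le (min_le_right _ _)
  have hδc' : δ < δc := hlt4.trans_le (min_le_left _ _)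
  have hlt5 := hlt4.trans_le (min_le_right _ _)
  have hδd' : δ < δd := hlt5.trans_le (min_le_left _ _)
  have hδe' : δ < δe := hlt5.trans_le (min_le_right _ _)
  have hJ1 : ∀ t ∈ Ioo 0 δ, t₁ + t ∈ J := fun t ht => (ha t ⟨ht.1, ht.2.trans hδa'⟩).1
  have hIcc : ∀ t ∈ Icc t₁ (t₁ + δ), t ∈ J := by
    intro t ht
    rcases eq_or_lt_of_le ht.1 with h | h
    · rw [← h]; exact ht₁
    · have := (ha (t - t₁) ⟨by linarith, by linarith [ht.2]⟩).1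
      rwa [add_sub_cancel] at this
  -- pointwise facts
  obtain ⟨A, hA⟩ : ∃ A, A = Ca / ca + Cb / ca := ⟨_, rfl⟩
  obtain ⟨B, hB⟩ : ∃ B, B = Cc / cb := ⟨_, rfl⟩
  obtain ⟨E, hE⟩ : ∃ E, E = Cc / ca ^ 2 := ⟨_, rfl⟩
  have hA0 : 0 < A := by rw [hA]; positivity
  have hB0 : 0 < B := by rw [hB]; positivity
  have hE0 : 0 < E := by rw [hE]; positivity
  have absle : ∀ (s x y : ℝ), (s = 1 ∨ s = -1) → y ≤ s * x → y ≤ |x| := by
    intro s x y hs hy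
    rcases hs with rfl | rfl
    · rw [one_mul] at hy; exact hy.trans (le_abs_self x)
    · have : -x ≤ |x| := neg_le_abs x
      linarith
  have key : ∀ t ∈ Ioo 0 δ, ∀ θ, sn (t₁ + t) θ ≠ 0 ∧ Δ (t₁ + t) θ ≠ 0 ∧
      |sm (t₁ + t) θ| ≤ A * |sn (t₁ + t) θ| ∧ |ph sm (t₁ + t) θ| ≤ A * |sn (t₁ + t) θ| ∧
      |ph sn (t₁ + t) θ| ≤ A * |sn (t₁ + t) θ| ∧
      |t * pt sn (t₁ + t) θ - j * sn (t₁ + t) θ| ≤ A * t * |sn (t₁ + t) θ| ∧
      |ph Δ (t₁ + t) θ| ≤ B * |Δ (t₁ + t) θ| ∧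
      |t * pt Δ (t₁ + t) θ - k * Δ (t₁ + t) θ| ≤ B * t * |Δ (t₁ + t) θ| ∧
      |Δ (t₁ + t) θ| * t ≤ E * |sn (t₁ + t) θ| ^ 2 := by
    intro t ht θ
    have ht0 := ht.1
    have p1 : 0 < t ^ j := pow_pos ht0 j
    have p2 : 0 < t ^ k := pow_pos ht0 k
    obtain ⟨-, qa⟩ := ha t ⟨ht.1, ht.2.trans hδa'⟩
    obtain ⟨-, qb⟩ := hb t ⟨ht.1, ht.2.trans hδb'⟩
    obtain ⟨-, qc⟩ := hc t ⟨ht.1, ht.2.trans hδc'⟩
    have qd := absle sa _ _ hsa (hd t ⟨ht.1, ht.2.trans hδd'⟩ θ)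
    have qe := absle sb _ _ hsb (he t ⟨ht.1, ht.2.trans hδe'⟩ θ)
    obtain ⟨a1, a2, a3⟩ := qa θ
    obtain ⟨b1, b2, b3⟩ := qb θ
    obtain ⟨c1, c2, c3⟩ := qc θ
    have r1 : t ^ j ≤ |sn (t₁ + t) θ| / ca := by rw [le_div_iff₀ hca]; linarith
    have r2 : t ^ k ≤ |Δ (t₁ + t) θ| / cb := by rw [le_div_iff₀ hcb]; linarith
    have u1 : ∀ x C, 0 ≤ C → C ≤ Ca + Cb → |x| ≤ C * t ^ j → |x| ≤ A * |sn (t₁ + t) θ| := by
      intro x C hC hC2 hx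
      calc |x| ≤ C * t ^ j := hx
        _ ≤ (Ca + Cb) * t ^ j := mul_le_mul_of_nonneg_right hC2 p1.le
        _ ≤ (Ca + Cb) * (|sn (t₁ + t) θ| / ca) := mul_le_mul_of_nonneg_left r1 (by positivity)
        _ = A * |sn (t₁ + t) θ| := by rw [hA]; field_simp
    refine ⟨?_, ?_, u1 _ _ hCb.le (by linarith) b1, u1 _ _ hCb.le (by linarith) b2,
      u1 _ _ hCa.le (by linarith) a2, ?_, ?_, ?_, ?_⟩
    · intro h0
      rw [h0, abs_zero] at qd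
      have : 0 < ca * t ^ j := by positivity
      linarith
    · intro h0
      rw [h0, abs_zero] at qe
      have : 0 < cb * t ^ k := by positivity
      linarith
    · calc |t * pt sn (t₁ + t) θ - j * sn (t₁ + t) θ| ≤ Ca * t ^ (j + 1) := a3
        _ = Ca * t * t ^ j := by ring
        _ ≤ (Ca + Cb) * t * t ^ j := mul_le_mul_of_nonneg_right
            (mul_le_mul_of_nonneg_right (by linarith) ht0.le) p1.le
        _ ≤ (Ca + Cb) * t * (|sn (t₁ + t) θ| / ca) := mul_le_mul_of_nonneg_left r1 (by positivity)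
        _ = A * t * |sn (t₁ + t) θ| := by rw [hA]; field_simp
    · calc |ph Δ (t₁ + t) θ| ≤ Cc * t ^ k := c2
        _ ≤ Cc * (|Δ (t₁ + t) θ| / cb) := mul_le_mul_of_nonneg_left r2 hCc.le
        _ = B * |Δ (t₁ + t) θ| := by rw [hB]; ring
    · calc |t * pt Δ (t₁ + t) θ - k * Δ (t₁ + t) θ| ≤ Cc * t ^ (k + 1) := c3
        _ = Cc * t * t ^ k := by ring
        _ ≤ Cc * t * (|Δ (t₁ + t) θ| / cb) := mul_le_mul_of_nonneg_left r2 (by positivity)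
        _ = B * t * |Δ (t₁ + t) θ| := by rw [hB]; ring
    · have r3 : t ^ (k + 1) ≤ t ^ (2 * j) :=
        pow_le_pow_of_le_one ht0.le (ht.2.trans hδ1).le (by omega)
      have r4 : t ^ (2 * j) = t ^ j * t ^ j := by rw [two_mul, pow_add]
      have r5 : t ^ j * t ^ j ≤ (|sn (t₁ + t) θ| / ca) * (|sn (t₁ + t) θ| / ca) :=
        mul_le_mul r1 r1 p1.le (by positivity)
      calc |Δ (t₁ + t) θ| * t ≤ Cc * t ^ k * t := mul_le_mul_of_nonneg_right c1 ht0.le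
        _ = Cc * t ^ (k + 1) := by ring
        _ ≤ Cc * ((|sn (t₁ + t) θ| / ca) * (|sn (t₁ + t) θ| / ca)) :=
            mul_le_mul_of_nonneg_left (by rw [r4] at r3; exact r3.trans r5) hCc.le
        _ = E * |sn (t₁ + t) θ| ^ 2 := by rw [hE]; field_simp
  obtain ⟨D, hDdef⟩ : ∃ D : ℝ → ℝ → ℝ, D = fun t θ => -Δ (t₁ + t) θ / sn (t₁ + t) θ ^ 2 := ⟨_, rfl⟩
  obtain ⟨ν, hνdef⟩ : ∃ ν : ℝ → ℝ → ℝ, ν = fun t θ => sm (t₁ + t) θ / sn (t₁ + t) θ := ⟨_, rfl⟩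
  have S1 : SJ (Ioo 0 δ) (fun t θ => sn (t₁ + t) θ) := SJ_shift Ssn hJ1
  have S2 : SJ (Ioo 0 δ) (fun t θ => sm (t₁ + t) θ) := SJ_shift Ssm hJ1
  have S3 : SJ (Ioo 0 δ) (fun t θ => Δ (t₁ + t) θ) := SJ_shift SΔ hJ1
  have SD : SJ (Ioo 0 δ) D := by
    rw [hDdef]
    exact ContDiffOn.div (ContDiffOn.neg S3) (ContDiffOn.pow S1 2)
      (fun p hp => pow_ne_zero 2 (key p.1 hp.1 p.2).1)
  have Sν : SJ (Ioo 0 δ) ν := by
    rw [hνdef]
    exact ContDiffOn.div S2 S1 (fun p hp => (key p.1 hp.1 p.2).1)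
  have PD : Per (Ioo 0 δ) D := fun t ht θ => by
    rw [hDdef]; show -_ / _ ^ 2 = -_ / _ ^ 2; rw [PΔ _ (hJ1 t ht), Psn _ (hJ1 t ht)]
  have Pν : Per (Ioo 0 δ) ν := fun t ht θ => by
    rw [hνdef]; show _ / _ = _ / _; rw [Psm _ (hJ1 t ht), Psn _ (hJ1 t ht)]
  obtain ⟨M1, hM1, b1⟩ := cbd sA11 pA11 hIcc
  obtain ⟨M2, hM2, b2⟩ := cbd sA12 pA12 hIcc
  obtain ⟨M3, hM3, b3⟩ := cbd sA13 pA13 hIcc
  obtain ⟨M4, hM4, b4⟩ := cbd sA21 pA21 hIcc
  obtain ⟨M5, hM5, b5⟩ := cbd sA22 pA22 hIcc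
  obtain ⟨M6, hM6, b6⟩ := cbd sA23 pA23 hIcc
  obtain ⟨C, hC⟩ : ∃ C, C = M1 + M2 + M3 + M4 + M5 + M6 + (A + A ^ 2) + (B + 2 * A) + E := ⟨_, rfl⟩
  have hC0 : 0 < C := by rw [hC]; positivity
  have hA2 : 0 < A ^ 2 := by positivity
  have hβ : (-1 : ℝ) ≤ (k : ℝ) - 2 * j := by
    have : (2 : ℝ) * j ≤ k + 1 := by exact_mod_cast hjk
    linarith
  obtain ⟨δ', hδ'0, hδ'δ, hfin⟩ := hUN2 δ C ((k : ℝ) - 2 * j) (fun t θ => n (t₁ + t) θ)
    (fun t θ => m (t₁ + t) θ) (fun t θ => l (t₁ + t) θ) (fun t θ => sn (t₁ + t) θ)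
    (fun t θ => sm (t₁ + t) θ) (fun t θ => sl (t₁ + t) θ) D ν
    (fun t θ => A11 (t₁ + t) θ) (fun t θ => A12 (t₁ + t) θ) (fun t θ => A13 (t₁ + t) θ)
    (fun t θ => A21 (t₁ + t) θ) (fun t θ => A22 (t₁ + t) θ) (fun t θ => A23 (t₁ + t) θ)
    hδ0 hC0 hβ (SJ_shift Sn hJ1) (SJ_shift Sm hJ1) (SJ_shift Sl hJ1) S1 S2 (SJ_shift Ssl hJ1) SD Sν
    (fun t ht θ => Pn _ (hJ1 t ht) θ) (fun t ht θ => Pm _ (hJ1 t ht) θ) (fun t ht θ => Pl _ (hJ1 t ht) θ)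
    (fun t ht θ => Psn _ (hJ1 t ht) θ) (fun t ht θ => Psm _ (hJ1 t ht) θ) (fun t ht θ => Psl _ (hJ1 t ht) θ)
    PD Pν
    (by
      intro t ht θ
      have hb := (key t ht θ).1
      have hg := hgau (t₁ + t) (hJ1 t ht) θ
      have hrel : sn (t₁ + t) θ * l (t₁ + t) θ = -(sl (t₁ + t) θ * n (t₁ + t) θ) +
          2 * sm (t₁ + t) θ * m (t₁ + t) θ := by
        unfold gk at hg
        rw [hsn, hsl, hsm, hl, hn, hm]
        linear_combination 2 * hg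
      have e1 : l (t₁ + t) θ = (-(sl (t₁ + t) θ * n (t₁ + t) θ) +
          2 * sm (t₁ + t) θ * m (t₁ + t) θ) / sn (t₁ + t) θ := by
        rw [← hrel]; field_simp
      rw [hDdef, hνdef, hΔ]
      show l (t₁ + t) θ = _
      rw [e1]
      show _ = (-(sl (t₁ + t) θ * sn (t₁ + t) θ - sm (t₁ + t) θ ^ 2) / sn (t₁ + t) θ ^ 2 -
        (sm (t₁ + t) θ / sn (t₁ + t) θ) ^ 2) * n (t₁ + t) θ +
        2 * (sm (t₁ + t) θ / sn (t₁ + t) θ) * m (t₁ + t) θ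
      field_simp
      ring)
    (by
      intro t ht θ
      have hb := (key t ht θ).1
      refine ⟨?_, ?_, hb⟩
      · rw [hνdef]
        show _ = sm (t₁ + t) θ / sn (t₁ + t) θ * sn (t₁ + t) θ
        field_simp
      · rw [hDdef, hνdef, hΔ]
        show _ = ((sm (t₁ + t) θ / sn (t₁ + t) θ) ^ 2 -
          -(sl (t₁ + t) θ * sn (t₁ + t) θ - sm (t₁ + t) θ ^ 2) / sn (t₁ + t) θ ^ 2) * sn (t₁ + t) θ
        field_simp
        ring)
    (by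
      intro t ht θ
      have hJt := hJ1 t ht
      have cX := (hcod X (Or.inl rfl) _ hJt θ).1
      have cY := (hcod Y (Or.inr rfl) _ hJt θ).1
      have e1 : pt (fun t θ => n (t₁ + t) θ) t θ = pt (gn Y) (t₁ + t) θ - pt (gn X) (t₁ + t) θ := by
        rw [pt_shift n, hn]
        exact pt_sub hDR2 hJ sYn sXn hJt θ
      have e2 : ph (fun t θ => m (t₁ + t) θ) t θ = ph (gm Y) (t₁ + t) θ - ph (gm X) (t₁ + t) θ := by
        show ph m (t₁ + t) θ = _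
        rw [hm]
        exact ph_sub hDR2 hJ sYm sXm hJt θ
      rw [e1, e2, cX, cY, hl, hm, hn]
      ring)
    (by
      intro t ht θ
      have hJt := hJ1 t ht
      have cX := (hcod X (Or.inl rfl) _ hJt θ).2
      have cY := (hcod Y (Or.inr rfl) _ hJt θ).2
      have e1 : pt (fun t θ => m (t₁ + t) θ) t θ = pt (gm Y) (t₁ + t) θ - pt (gm X) (t₁ + t) θ := by
        rw [pt_shift m, hm]
        exact pt_sub hDR2 hJ sYm sXm hJt θ
      have e2 : ph (fun t θ => l (t₁ + t) θ) t θ = ph (gl Y) (t₁ + t) θ - ph (gl X) (t₁ + t) θ := by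
        show ph l (t₁ + t) θ = _
        rw [hl]
        exact ph_sub hDR2 hJ sYl sXl hJt θ
      rw [e1, e2, cX, cY, hl, hm, hn]
      ring)
    (by
      intro t ht θ
      have hJt := hJ1 t ht
      have cX := (hcod X (Or.inl rfl) _ hJt θ).1
      have cY := (hcod Y (Or.inr rfl) _ hJt θ).1
      have e1 : pt (fun t θ => sn (t₁ + t) θ) t θ = pt (gn Y) (t₁ + t) θ + pt (gn X) (t₁ + t) θ := by
        rw [pt_shift sn, hsn]
        exact ((hDR2.hpt hJ sYn _ hJt θ).add (hDR2.hpt hJ sXn _ hJt θ)).deriv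
      have e2 : ph (fun t θ => sm (t₁ + t) θ) t θ = ph (gm Y) (t₁ + t) θ + ph (gm X) (t₁ + t) θ := by
        show ph sm (t₁ + t) θ = _
        rw [hsm]
        exact ((hDR2.hph hJ sYm _ hJt θ).add (hDR2.hph hJ sXm _ hJt θ)).deriv
      rw [e1, e2, cX, cY, hsl, hsm, hsn]
      ring)
    (by
      intro t ht θ
      have hJt := hJ1 t ht
      have cX := (hcod X (Or.inl rfl) _ hJt θ).2
      have cY := (hcod Y (Or.inr rfl) _ hJt θ).2
      have e1 : pt (fun t θ => sm (t₁ + t) θ) t θ = pt (gm Y) (t₁ + t) θ + pt (gm X) (t₁ + t) θ := by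
        rw [pt_shift sm, hsm]
        exact ((hDR2.hpt hJ sYm _ hJt θ).add (hDR2.hpt hJ sXm _ hJt θ)).deriv
      have e2 : ph (fun t θ => sl (t₁ + t) θ) t θ = ph (gl Y) (t₁ + t) θ + ph (gl X) (t₁ + t) θ := by
        show ph sl (t₁ + t) θ = _
        rw [hsl]
        exact ((hDR2.hph hJ sYl _ hJt θ).add (hDR2.hph hJ sXl _ hJt θ)).deriv
      rw [e1, e2, cX, cY, hsl, hsm, hsn]
      ring)
    (by
      intro t ht θ
      refine ⟨(b1 t ht θ).trans ?_, (b2 t ht θ).trans ?_, (b3 t ht θ).trans ?_, (b4 t ht θ).trans ?_,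
        (b5 t ht θ).trans ?_, (b6 t ht θ).trans ?_⟩ <;> rw [hC] <;> linarith)
    (by
      rcases hsb with h1 | h1
      · right
        intro t ht θ
        have hk := key t ht θ
        have q := he t ⟨ht.1, ht.2.trans hδe'⟩ θ
        rw [h1, one_mul] at q
        have q2 : 0 < cb * t ^ k := mul_pos hcb (pow_pos ht.1 k)
        rw [hDdef]
        show -Δ (t₁ + t) θ / sn (t₁ + t) θ ^ 2 < 0
        apply div_neg_of_neg_of_pos
        · linarith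
        · have h0 := hk.1
          positivity
      · left
        intro t ht θ
        have hk := key t ht θ
        have q := he t ⟨ht.1, ht.2.trans hδe'⟩ θ
        rw [h1] at q
        have q2 : 0 < cb * t ^ k := mul_pos hcb (pow_pos ht.1 k)
        rw [hDdef]
        show 0 < -Δ (t₁ + t) θ / sn (t₁ + t) θ ^ 2
        apply div_pos
        · linarith
        · have h0 := hk.1
          positivity)
    (by
      intro t ht θ
      have ht0 := ht.1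
      have hJt := hJ1 t ht
      obtain ⟨k1, k2, k3, k4, k5, k6, k7, k8, k9⟩ := key t ht θ
      have hp : 0 < |sn (t₁ + t) θ| := abs_pos.2 k1
      obtain ⟨ν1, ν2⟩ := nuB hA0.le k1 k3 k4 k5
      have dsn := ptc hDR2 hJ θ Ssn hJt
      have dΔ := ptc hDR2 hJ θ SΔ hJt
      have hsn' := hDR2.hph hJ Ssn _ hJt θ
      have hsm' := hDR2.hph hJ Ssm _ hJt θ
      have hΔ' := hDR2.hph hJ SΔ _ hJt θ
      have eDt : pt D t θ = (-pt Δ (t₁ + t) θ * sn (t₁ + t) θ ^ 2 -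
          -Δ (t₁ + t) θ * (2 * sn (t₁ + t) θ * pt sn (t₁ + t) θ)) / (sn (t₁ + t) θ ^ 2) ^ 2 := by
        rw [hDdef]
        have h1 := (dΔ.neg.div (dsn.pow 2) (pow_ne_zero 2 k1)).deriv
        simp only [Nat.cast_ofNat, Nat.reduceSub, pow_one] at h1
        exact h1
      have eDh : ph D t θ = (-ph Δ (t₁ + t) θ * sn (t₁ + t) θ ^ 2 -
          -Δ (t₁ + t) θ * (2 * sn (t₁ + t) θ * ph sn (t₁ + t) θ)) / (sn (t₁ + t) θ ^ 2) ^ 2 := by
        rw [hDdef]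
        have h1 := (hΔ'.neg.div (hsn'.pow 2) (pow_ne_zero 2 k1)).deriv
        simp only [Nat.cast_ofNat, Nat.reduceSub, pow_one] at h1
        exact h1
      have eνh : ph ν t θ = (ph sm (t₁ + t) θ * sn (t₁ + t) θ -
          sm (t₁ + t) θ * ph sn (t₁ + t) θ) / sn (t₁ + t) θ ^ 2 := by
        rw [hνdef]
        exact (hsm'.div hsn' k1).deriv
      have eD : D t θ = -Δ (t₁ + t) θ / sn (t₁ + t) θ ^ 2 := by rw [hDdef]
      have eν : ν t θ = sm (t₁ + t) θ / sn (t₁ + t) θ := by rw [hνdef]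
      refine ⟨?_, ?_, ?_, ?_, ?_, ?_⟩
      · rw [eD, abs_div, abs_neg, abs_pow, le_div_iff₀ ht0]
        have : |Δ (t₁ + t) θ| / |sn (t₁ + t) θ| ^ 2 * t ≤ E := by
          rw [div_mul_eq_mul_div, div_le_iff₀ (by positivity)]
          exact k9
        rw [hC]
        linarith
      · have h1 := DB (x := (k : ℝ)) (y := (j : ℝ)) (A := A) (B := B) (τ := t) k1 k8 k6
        rw [eDt, eD]
        have e1 : t * ((-pt Δ (t₁ + t) θ * sn (t₁ + t) θ ^ 2 -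
            -Δ (t₁ + t) θ * (2 * sn (t₁ + t) θ * pt sn (t₁ + t) θ)) / (sn (t₁ + t) θ ^ 2) ^ 2) =
            (-(t * pt Δ (t₁ + t) θ) * sn (t₁ + t) θ ^ 2 -
            -Δ (t₁ + t) θ * (2 * sn (t₁ + t) θ * (t * pt sn (t₁ + t) θ))) / (sn (t₁ + t) θ ^ 2) ^ 2 := by
          ring
        rw [e1]
        refine h1.trans (mul_le_mul_of_nonneg_right (mul_le_mul_of_nonneg_right ?_ ht0.le) (abs_nonneg _))
        rw [hC]; linarith
      · have h1 := DB (x := 0) (y := 0) (A := A) (B := B) (τ := 1) (d := Δ (t₁ + t) θ)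
          (d' := ph Δ (t₁ + t) θ) (s' := ph sn (t₁ + t) θ) k1
          (by rw [zero_mul, sub_zero, mul_one]; exact k7) (by rw [zero_mul, sub_zero, mul_one]; exact k5)
        rw [mul_zero, sub_zero, zero_mul, sub_zero, mul_one] at h1
        rw [eDh, eD]
        refine h1.trans (mul_le_mul_of_nonneg_right ?_ (abs_nonneg _))
        rw [hC]; linarith
      · rw [eν]
        refine ν1.trans ?_
        rw [hC]; linarith
      · rw [eνh]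
        refine ν2.trans ?_
        rw [hC]; linarith
      · show |ph sn (t₁ + t) θ| ≤ C * |sn (t₁ + t) θ|
        refine k5.trans (mul_le_mul_of_nonneg_right ?_ (abs_nonneg _))
        rw [hC]; linarith)
    (fun N => by
      obtain ⟨B1, hB1⟩ := flat_est hFLT hJ Sn Pn ht₁ hFn hIcc N
      obtain ⟨B2, hB2⟩ := flat_est hFLT hJ Sm Pm ht₁ hFm hIcc N
      refine ⟨B1 + B2, fun t ht θ => ?_⟩
      have h1 := hB1 t ht θ
      have h2 := hB2 t ht θ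
      rw [Real.norm_eq_abs] at h1 h2
      linarith)
  refine ⟨δ', hδ'0, fun t ht => ?_⟩
  have ht' : t - t₁ ∈ Ioo 0 δ' := ⟨by linarith [ht.1], by linarith [ht.2]⟩
  have ht'' : t - t₁ ∈ Ioo 0 δ := ⟨ht'.1, ht'.2.trans_le hδ'δ⟩
  have hJt := hJ1 _ ht''
  rw [add_sub_cancel] at hJt
  refine ⟨hJt, fun θ => ?_⟩
  obtain ⟨c1, c2, c3⟩ := hfin _ ht' θ
  simp only [add_sub_cancel] at c1 c2 c3
  rw [hn] at c1
  rw [hm] at c2
  rw [hl] at c3
  exact ⟨sub_eq_zero.mp c3, sub_eq_zero.mp c2, sub_eq_zero.mp c1⟩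

end Rim478
end

section
set_option autoImplicit false

/-!
# MP_478c11_gt, part G: STR (the strip theorem)
-/

open Real MeasureTheory Set Filter Topology
open scoped ContDiff InnerProductSpace Manifold

namespace Rim478

namespace STRM

/-- uniqueness to the right of an admissible level -/
theorem right (hRT : SpecRT2) (hCN : SpecCN2) (hFF : SpecFF2) {J : Set ℝ} {X Y : ℝ → ℝ → E3} {t₁ : ℝ}
    (oJ : IsOpen J) (ht₁ : t₁ ∈ J) (S : SI J X Y) (A : Adm X t₁) (h : Fl t₁ (fun t θ => Y t θ - X t θ)) :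
    ∃ δ : ℝ, 0 < δ ∧ ∀ t ∈ Ico t₁ (t₁ + δ), ∀ θ, Y t θ = X t θ := by
  obtain ⟨f1, f2, f3⟩ := hFF J X Y t₁ oJ ht₁ S h
  obtain ⟨δ, hδ, H⟩ := hRT J X Y t₁ oJ ht₁ S A f1 f2 f3
  have hsub : Ico t₁ (t₁ + δ) ⊆ J := by
    intro t ht
    rcases eq_or_lt_of_le ht.1 with e | l
    · rw [← e]
      exact ht₁
    · exact (H t ⟨l, ht.2⟩).1
  have h0 : ∀ θ, Y t₁ θ = X t₁ θ := fun θ => sub_eq_zero.1 (h 0 θ)
  have h1 : ∀ θ, pt Y t₁ θ = pt X t₁ θ := by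
    intro θ
    have e1 : pt (fun t θ => Y t θ - X t θ) t₁ θ = 0 := h 1 θ
    have e2 : pt (fun t θ => Y t θ - X t θ) t₁ θ = pt Y t₁ θ - pt X t₁ θ :=
      ((hDR2.hpt oJ S.sY t₁ ht₁ θ).sub (hDR2.hpt oJ S.sX t₁ ht₁ θ)).deriv
    rw [e2] at e1
    exact sub_eq_zero.1 e1
  exact ⟨δ, hδ, hCN J X Y t₁ (t₁ + δ) oJ hsub S (fun t ht θ => (H t ht).2 θ) h0 h1⟩

/-- uniqueness to the left of an admissible level -/
theorem left (hRT : SpecRT2) (hCN : SpecCN2) (hFF : SpecFF2) (hRF : SpecRF2) {J : Set ℝ} {X Y : ℝ → ℝ → E3} {t₁ : ℝ}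
    (oJ : IsOpen J) (ht₁ : t₁ ∈ J) (S : SI J X Y) (A : Adm X t₁) (h : Fl t₁ (fun t θ => Y t θ - X t θ)) :
    ∃ δ : ℝ, 0 < δ ∧ ∀ t ∈ Ioc (t₁ - δ) t₁, ∀ θ, Y t θ = X t θ := by
  have oJ' : IsOpen {t : ℝ | -t ∈ J} := oJ.preimage continuous_neg
  have ht' : -t₁ ∈ {t : ℝ | -t ∈ J} := by
    show -(-t₁) ∈ J
    rwa [neg_neg]
  have hf : Fl (-t₁) (fun t θ => rf Y t θ - rf X t θ) := hRF.fl h
  obtain ⟨δ, hδ, H⟩ := right hRT hCN hFF oJ' ht' (hRF.si S) (hRF.adm A) hf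
  refine ⟨δ, hδ, fun t ht θ => ?_⟩
  have h1 : -t ∈ Ico (-t₁) (-t₁ + δ) := ⟨by linarith [ht.2], by linarith [ht.1]⟩
  have h2 : Y (-(-t)) (-(-θ)) = X (-(-t)) (-(-θ)) := H (-t) h1 (-θ)
  rwa [neg_neg, neg_neg] at h2

end STRM

open STRM in
/-- **STR**, the strip theorem. -/
theorem specSTR (hRT : SpecRT2) (hCN : SpecCN2) (hFF : SpecFF2) (hRF : SpecRF2) : SpecSTR := by
  intro J X Y t₀ oJ cJ S A ht₀ hfl
  have hs : SJ J (fun t θ => Y t θ - X t θ) := S.sY.sub S.sX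
  have key := hPRP J (fun t θ => Y t θ - X t θ) t₀ oJ cJ ht₀ hs hfl (by
    intro t₁ ht₁ hf
    obtain ⟨δ₁, hδ₁, H₁⟩ := right hRT hCN hFF oJ ht₁ S (A t₁ ht₁) hf
    obtain ⟨δ₂, hδ₂, H₂⟩ := left hRT hCN hFF hRF oJ ht₁ S (A t₁ ht₁) hf
    refine ⟨min δ₁ δ₂, lt_min hδ₁ hδ₂, fun t ht _ θ => ?_⟩
    have m1 := min_le_left δ₁ δ₂
    have m2 := min_le_right δ₁ δ₂
    apply sub_eq_zero.2
    rcases le_total t₁ t with h | h
    · exact H₁ t ⟨h, by linarith [ht.2]⟩ θ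
    · exact H₂ t ⟨by linarith [ht.1], h⟩ θ)
  intro t ht θ
  exact sub_eq_zero.1 (key t ht θ)

end Rim478
end

section
set_option autoImplicit false

/-!
Module TAY of MP_478c11_gt, part G (helper93): Taylor at a level of a strip.
-/

open Real MeasureTheory Set Filter Topology
open scoped ContDiff InnerProductSpace Manifold

namespace Rim478

namespace TAYM

section
variable (hDR : SpecDR2) {J : Set ℝ} {t₁ : ℝ} (hJ : IsOpen J)
include hDR hJ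

/-- estimate for functions which vanish to order `N` on a level -/
theorem est (ht : t₁ ∈ J) (N : ℕ) :
    ∀ u : ℝ → ℝ → ℝ, SJ J u → Per J u → Van t₁ N u → ∃ C δ : ℝ, 0 < δ ∧
      (∀ t, |t - t₁| < δ → t ∈ J) ∧ ∀ t, |t - t₁| < δ → ∀ θ, |u t θ| ≤ C * |t - t₁| ^ N := by
  induction N with
  | zero =>
    intro u hu hp _
    obtain ⟨ε, hε, hsub⟩ := Metric.isOpen_iff.1 hJ t₁ ht
    have hK : Icc (t₁ - ε / 2) (t₁ + ε / 2) ⊆ J := by
      intro x hx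
      apply hsub
      rw [Metric.mem_ball, Real.dist_eq, abs_lt]
      constructor <;> [linarith [hx.1]; linarith [hx.2]]
    obtain ⟨M, _, hM⟩ := LCRM.bdd hu hp hK
    have hI : ∀ t, |t - t₁| < ε / 2 → t ∈ Icc (t₁ - ε / 2) (t₁ + ε / 2) := by
      intro t h
      obtain ⟨h1, h2⟩ := abs_lt.1 h
      exact ⟨by linarith, by linarith⟩
    refine ⟨M, ε / 2, by positivity, fun t h => hK (hI t h), fun t h θ => ?_⟩
    rw [pow_zero, mul_one, ← Real.norm_eq_abs]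
    exact hM t (hI t h) θ
  | succ N ih =>
    intro u hu hp hf
    have hv : Van t₁ N (pt u) := by
      intro i hi θ
      rw [← Function.iterate_succ_apply]
      exact hf (i + 1) (Nat.succ_lt_succ hi) θ
    obtain ⟨C, δ, hδ, hJδ, h⟩ := ih (pt u) (hDR.spt hJ hu) (hDR.perp hJ hp) hv
    refine ⟨C, δ, hδ, hJδ, fun t ht' θ => ?_⟩
    have h2 := FLTM.step hDR hJ hu hJδ (hf 0 (Nat.succ_pos N) θ) (C := C) (N := N) (θ := θ)
      (fun s hs => by rw [Real.norm_eq_abs]; exact h s hs θ) t ht'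
    rwa [Real.norm_eq_abs] at h2

/-- the iterated derivatives of `(t - t₁) u_t - k u` -/
theorem itw {u : ℝ → ℝ → ℝ} (hu : SJ J u) (k i : ℕ) : ∀ t ∈ J, ∀ θ,
    (pt^[i] (fun t θ => (t - t₁) * pt u t θ - k * u t θ)) t θ =
      (t - t₁) * (pt^[i + 1] u) t θ + ((i : ℝ) - k) * (pt^[i] u) t θ := by
  induction i with
  | zero =>
    intro t _ θ
    simp only [Function.iterate_zero, id_eq, zero_add, Function.iterate_one, Nat.cast_zero]
    ring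
  | succ i ih =>
    intro t ht θ
    rw [Function.iterate_succ_apply', hDR.pcg hJ ih t ht θ]
    have h1 := hDR.hpt hJ (FLTM.sk hDR hJ hu (i + 1)) t ht θ
    have h2 := hDR.hpt hJ (FLTM.sk hDR hJ hu i) t ht θ
    have h3 : HasDerivAt (fun s : ℝ => s - t₁) 1 t := (hasDerivAt_id t).sub_const t₁
    have h4 := (h3.mul h1).add (h2.const_mul ((i : ℝ) - k))
    have h5 : pt (fun t θ => (t - t₁) * (pt^[i + 1] u) t θ + ((i : ℝ) - k) * (pt^[i] u) t θ) t θ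
        = 1 * (pt^[i + 1] u) t θ + (t - t₁) * pt (pt^[i + 1] u) t θ
          + ((i : ℝ) - k) * pt (pt^[i] u) t θ := h4.deriv
    rw [h5, ← Function.iterate_succ_apply' pt (i + 1) u, ← Function.iterate_succ_apply' pt i u]
    push_cast
    ring

/-- lower bound by integration, `m` times -/
theorem low {δ c s : ℝ} (hδ : ∀ t ∈ Ico 0 δ, t₁ + t ∈ J) (m : ℕ) :
    ∀ v : ℝ → ℝ → ℝ, SJ J v → Van t₁ m v → ∀ θ,
      (∀ t ∈ Ico 0 δ, c ≤ s * (pt^[m] v) (t₁ + t) θ) →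
      ∀ t ∈ Ico 0 δ, c * (t ^ m / (m.factorial : ℝ)) ≤ s * v (t₁ + t) θ := by
  induction m with
  | zero =>
    intro v _ _ θ h t ht
    simpa using h t ht
  | succ m ih =>
    intro v hv h0 θ h t ht
    have hvan : Van t₁ m (pt v) := by
      intro i hi θ
      rw [← Function.iterate_succ_apply]
      exact h0 (i + 1) (Nat.succ_lt_succ hi) θ
    have h1 := ih (pt v) (hDR.spt hJ hv) hvan θ (fun t ht => by
      rw [← Function.iterate_succ_apply]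
      exact h t ht)
    have hder : ∀ x ∈ Icc (0 : ℝ) t, HasDerivAt
        (fun x => s * v (t₁ + x) θ - c * (x ^ (m + 1) / ((m + 1).factorial : ℝ)))
        (s * pt v (t₁ + x) θ - c * (x ^ m / (m.factorial : ℝ))) x := by
      intro x hx
      have hxJ : t₁ + x ∈ J := hδ x ⟨hx.1, hx.2.trans_lt ht.2⟩
      have e1 : HasDerivAt (fun x => v (t₁ + x) θ) (pt v (t₁ + x) θ) x := by
        have := (hDR.hpt hJ hv (t₁ + x) hxJ θ).comp_const_add t₁ x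
        exact this
      have e2 : HasDerivAt (fun x : ℝ => x ^ (m + 1)) (((m + 1 : ℕ) : ℝ) * x ^ m) x := by
        simpa using hasDerivAt_pow (m + 1) x
      have e3 := (e1.const_mul s).sub ((e2.div_const ((m + 1).factorial : ℝ)).const_mul c)
      have e4 : ((m + 1 : ℕ) : ℝ) * x ^ m / ((m + 1).factorial : ℝ) = x ^ m / (m.factorial : ℝ) := by
        rw [Nat.factorial_succ, Nat.cast_mul]
        have : ((m + 1 : ℕ) : ℝ) ≠ 0 := by positivity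
        have : (m.factorial : ℝ) ≠ 0 := by positivity
        field_simp
      rw [e4] at e3
      exact e3
    have hmono : MonotoneOn
        (fun x => s * v (t₁ + x) θ - c * (x ^ (m + 1) / ((m + 1).factorial : ℝ))) (Icc 0 t) := by
      refine monotoneOn_of_deriv_nonneg (convex_Icc 0 t)
        (fun x hx => (hder x hx).continuousAt.continuousWithinAt)
        (fun x hx => (hder x (interior_subset hx)).differentiableAt.differentiableWithinAt) ?_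
      intro x hx
      have hx' : x ∈ Icc (0 : ℝ) t := interior_subset hx
      rw [(hder x hx').deriv]
      have := h1 x ⟨hx'.1, hx'.2.trans_lt ht.2⟩
      linarith
    have h2 := hmono ⟨le_rfl, ht.1⟩ ⟨ht.1, le_rfl⟩ ht.1
    have h3 : v t₁ θ = 0 := h0 0 (Nat.succ_pos m) θ
    simp only [add_zero, h3, mul_zero, ne_eq, Nat.succ_ne_zero, not_false_eq_true, zero_pow,
      zero_div, sub_zero] at h2
    linarith

end

end TAYM

open TAYM in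
theorem specTAY (hDR : SpecDR2) : SpecTAY where
  van := by
    intro J u t₁ k hJ hu hp ht hv
    have hvh : Van t₁ k (ph u) := by
      intro i hi θ
      rw [FLTM.cm hDR hJ hu i t₁ ht θ]
      show deriv (fun s => (pt^[i] u) t₁ s) θ = 0
      have : (fun s => (pt^[i] u) t₁ s) = fun _ => (0 : ℝ) := funext fun s => hv i hi s
      rw [this, deriv_const]
    have hw : SJ J (fun t θ => (t - t₁) * pt u t θ - k * u t θ) := by
      have e1 : SJ J (fun t _ => t - t₁) := by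
        unfold SJ
        apply ContDiff.contDiffOn
        fun_prop
      have e2 : SJ J (fun _ _ => (k : ℝ)) := by
        unfold SJ
        exact contDiffOn_const
      exact LCRM.SJ_sub (LCRM.SJ_mul e1 (hDR.spt hJ hu)) (LCRM.SJ_mul e2 hu)
    have hpw : Per J (fun t θ => (t - t₁) * pt u t θ - k * u t θ) := by
      intro t ht θ
      have h1 := hDR.perp hJ hp t ht θ
      have h2 := hp t ht θ
      simp only [h1, h2]
    have hvw : Van t₁ (k + 1) (fun t θ => (t - t₁) * pt u t θ - k * u t θ) := by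
      intro i hi θ
      rw [itw hDR hJ hu k i t₁ ht θ, sub_self, zero_mul, zero_add]
      rcases Nat.lt_or_ge i k with h | h
      · rw [hv i h θ, mul_zero]
      · have : i = k := by omega
        rw [this, sub_self, zero_mul]
    obtain ⟨C₁, δ₁, hδ₁, hJ₁, h₁⟩ := est hDR hJ ht k u hu hp hv
    obtain ⟨C₂, δ₂, hδ₂, _, h₂⟩ := est hDR hJ ht k (ph u) (hDR.sph hJ hu) (hDR.perh hp) hvh
    obtain ⟨C₃, δ₃, hδ₃, _, h₃⟩ := est hDR hJ ht (k + 1) _ hw hpw hvw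
    refine ⟨|C₁| + |C₂| + |C₃| + 1, min δ₁ (min δ₂ δ₃), by positivity,
      lt_min hδ₁ (lt_min hδ₂ hδ₃), ?_⟩
    intro t htt
    have ht0 : 0 < t := htt.1
    have a1 : t < δ₁ := lt_of_lt_of_le htt.2 (min_le_left _ _)
    have a2 : t < δ₂ := lt_of_lt_of_le htt.2 ((min_le_right _ _).trans (min_le_left _ _))
    have a3 : t < δ₃ := lt_of_lt_of_le htt.2 ((min_le_right _ _).trans (min_le_right _ _))
    have e : |t₁ + t - t₁| = t := by rw [add_sub_cancel_left, abs_of_pos ht0]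
    have e' : t₁ + t - t₁ = t := by ring
    have b1 := h₁ (t₁ + t) (by rw [e]; exact a1)
    have b2 := h₂ (t₁ + t) (by rw [e]; exact a2)
    have b3 := h₃ (t₁ + t) (by rw [e]; exact a3)
    rw [e] at b1 b2 b3
    have p1 : 0 < t ^ k := pow_pos ht0 k
    have p2 : 0 < t ^ (k + 1) := pow_pos ht0 (k + 1)
    refine ⟨hJ₁ _ (by rw [e]; exact a1), fun θ => ⟨?_, ?_, ?_⟩⟩
    · refine (b1 θ).trans (mul_le_mul_of_nonneg_right ?_ p1.le)
      linarith [le_abs_self C₁, abs_nonneg C₂, abs_nonneg C₃]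
    · refine (b2 θ).trans (mul_le_mul_of_nonneg_right ?_ p1.le)
      linarith [le_abs_self C₂, abs_nonneg C₁, abs_nonneg C₃]
    · have b := b3 θ
      simp only [e'] at b
      refine b.trans (mul_le_mul_of_nonneg_right ?_ p2.le)
      linarith [le_abs_self C₃, abs_nonneg C₁, abs_nonneg C₂]
  ord := by
    intro J u t₁ k hJ hu hp ht hv
    obtain ⟨hv, hne⟩ := hv
    have hsk := FLTM.sk hDR hJ hu k
    have hpk : Per J (pt^[k] u) := by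
      clear hv hne hsk
      induction k with
      | zero => exact hp
      | succ k ih => rw [Function.iterate_succ_apply']; exact hDR.perp hJ ih
    have hcont : Continuous (fun θ => (pt^[k] u) t₁ θ) := (hDR.cont hsk t₁ ht).continuous
    -- the sign
    have hsign : ∃ s : ℝ, (s = 1 ∨ s = -1) ∧ ∀ θ, 0 < s * (pt^[k] u) t₁ θ := by
      by_cases h0 : 0 < (pt^[k] u) t₁ 0
      · refine ⟨1, Or.inl rfl, fun θ => ?_⟩
        rw [one_mul]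
        by_contra hneg
        push Not at hneg
        have hlt : (pt^[k] u) t₁ θ < 0 := lt_of_le_of_ne hneg (hne θ)
        obtain ⟨z, hz⟩ := mem_range_of_exists_le_of_exists_ge hcont ⟨θ, hlt.le⟩ ⟨0, h0.le⟩
        exact hne z hz
      · refine ⟨-1, Or.inr rfl, fun θ => ?_⟩
        push Not at h0
        have h0' : (pt^[k] u) t₁ 0 < 0 := lt_of_le_of_ne h0 (hne 0)
        by_contra hneg
        push Not at hneg
        have hge : 0 ≤ (pt^[k] u) t₁ θ := by linarith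
        obtain ⟨z, hz⟩ := mem_range_of_exists_le_of_exists_ge hcont ⟨0, h0'.le⟩ ⟨θ, hge⟩
        exact hne z hz
    obtain ⟨s, hs, hpos⟩ := hsign
    have hcont' : Continuous (fun θ => s * (pt^[k] u) t₁ θ) := continuous_const.mul hcont
    obtain ⟨z, _, hz⟩ := (isCompact_Icc (a := (0 : ℝ)) (b := 2 * π)).exists_isMinOn
      ⟨0, le_rfl, by positivity⟩ hcont'.continuousOn
    have hz0 : 0 < s * (pt^[k] u) t₁ z := hpos z
    obtain ⟨c, hc⟩ : ∃ c, c = s * (pt^[k] u) t₁ z / 2 := ⟨_, rfl⟩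
    have hc0 : 0 < c := by rw [hc]; positivity
    have hcz : ∀ θ ∈ Icc (0 : ℝ) (2 * π), c < s * (pt^[k] u) t₁ θ := by
      intro θ hθ
      have := hz hθ
      simp only [mem_ofPred_eq] at this
      rw [hc]
      linarith
    have hev : ∀ᶠ t in 𝓝 t₁, ∀ θ ∈ Icc (0 : ℝ) (2 * π), c < s * (pt^[k] u) t θ := by
      refine (isCompact_Icc (a := (0 : ℝ)) (b := 2 * π)).eventually_forall_of_forall_eventually ?_
      intro θ hθ
      have hca : ContinuousAt (fun p : ℝ × ℝ => s * (pt^[k] u) p.1 p.2) (t₁, θ) :=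
        continuousAt_const.mul ((ContDiffOn.continuousOn hsk).continuousAt (DR2M.nh hJ ht θ))
      exact hca.eventually_const_lt (hcz θ hθ)
    obtain ⟨δ, hδ, hball⟩ := Metric.eventually_nhds_iff.1 (hev.and (hJ.mem_nhds ht))
    have hall : ∀ t ∈ Ico 0 δ, t₁ + t ∈ J ∧ ∀ θ, c ≤ s * (pt^[k] u) (t₁ + t) θ := by
      intro t htt
      have hb := hball (y := t₁ + t) (by
        rw [Real.dist_eq, add_sub_cancel_left, abs_of_nonneg htt.1]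
        exact htt.2)
      refine ⟨hb.2, fun θ => ?_⟩
      obtain ⟨θ', hθ', e⟩ := LCRM.per_red hpk hb.2 θ
      rw [e]
      exact (hb.1 θ' hθ').le
    have hlow := low hDR hJ (t₁ := t₁) (δ := δ) (c := c) (s := s) (fun t ht => (hall t ht).1) k u hu hv
    refine ⟨c / (k.factorial : ℝ), δ, s, by positivity, hδ, hs, fun t htt θ => ?_⟩
    have := hlow θ (fun t ht => (hall t ht).2 θ) t ⟨htt.1.le, htt.2⟩
    calc c / (k.factorial : ℝ) * t ^ k = c * (t ^ k / (k.factorial : ℝ)) := by ring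
      _ ≤ _ := this

end Rim478
end
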