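import Pool.Agent.Lib.MP_478c11_gt.G.Spec
import Pool.Agent.Lib.MP_478c11_gt.G.TAY

section
set_option autoImplicit false

/-!
Module UN2 of part G of MP_478c11_gt (helper9): unique continuation for the Codazzi system in arbitrary coordinates.
-/

open Real MeasureTheory Set Filter Topology
open scoped ContDiff InnerProductSpace

namespace Rim478

namespace UN2M

open ELLM UNQM

section Ptw

variable {t C β e n m s D ν nt nh mt mh st sh νt νh Dt Dh A11 A12 A13 A21 A22 A23 S St Sh : ℝ}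

lemma T1_bound (ht : 0 < t) (ht1 : t ≤ 1) (hC : 1 ≤ C) (hs : 0 < s) (hst : |st| ≤ (|β| + 1) / t * s)
    (hsh : |sh| ≤ C / 2 * s) (hsC : s ≤ C / t) (hD : |D| ≤ C / t) (hν : |ν| ≤ C) (hνh : |νh| ≤ C)
    (h11 : |A11| ≤ C) (h12 : |A12| ≤ C) (h13 : |A13| ≤ C)
    (hB : nt = mh + A11 * ((D - ν ^ 2) * n + 2 * ν * m) + A12 * m + A13 * n) :
    |st * n + s * nt - ν * (sh * n + s * nh) - s * (mh - νh * n - ν * nh)| ≤
      (|β| + 20 * C ^ 5) / t * (|s * n| + |m - ν * n|) := by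
  have hC0 : 0 < C := by linarith
  have e1 : st * n + s * nt - ν * (sh * n + s * nh) - s * (mh - νh * n - ν * nh) =
      (st - ν * sh + s * (νh + A11 * (D + ν ^ 2) + A12 * ν + A13)) * n +
        s * (2 * ν * A11 + A12) * (m - ν * n) := by
    rw [hB]; ring
  rw [e1]
  have p2 : C ≤ C ^ 2 := le_self_pow₀ hC (by norm_num)
  have p3 : C ^ 2 ≤ C ^ 3 := pow_le_pow_right₀ hC (by norm_num)
  have p5 : C ^ 3 ≤ C ^ 5 := pow_le_pow_right₀ hC (by norm_num)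
  have ν2 : |ν ^ 2| ≤ C ^ 2 := by
    rw [abs_pow]; exact pow_le_pow_left₀ (abs_nonneg _) hν 2
  have i1 : 1 ≤ 1 / t := by rw [le_div_iff₀ ht]; linarith
  have c1 : |νh + A11 * (D + ν ^ 2) + A12 * ν + A13| ≤ 5 * C ^ 3 / t := by
    have h1 : |A11 * (D + ν ^ 2)| ≤ C * (C / t + C ^ 2) := by
      rw [abs_mul]
      refine mul_le_mul h11 ((abs_add_le _ _).trans (add_le_add hD ν2)) (abs_nonneg _) hC0.le
    have h2 : |A12 * ν| ≤ C * C := by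
      rw [abs_mul]
      exact mul_le_mul h12 hν (abs_nonneg _) hC0.le
    have h3 : |νh + A11 * (D + ν ^ 2) + A12 * ν + A13| ≤ C + C * (C / t + C ^ 2) + C * C + C := by
      refine (abs_add_le _ _).trans (add_le_add ?_ h13)
      refine (abs_add_le _ _).trans (add_le_add ?_ h2)
      exact (abs_add_le _ _).trans (add_le_add hνh h1)
    refine h3.trans ?_
    rw [le_div_iff₀ ht]
    have h4 : (C + C * (C / t + C ^ 2) + C * C + C) * t = C ^ 2 + (2 * C + C ^ 3 + C ^ 2) * t := by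
      field_simp
      ring
    rw [h4]
    have h5 : (2 * C + C ^ 3 + C ^ 2) * t ≤ 2 * C + C ^ 3 + C ^ 2 := mul_le_of_le_one_right (by positivity) ht1
    linarith
  have b1 : |(st - ν * sh + s * (νh + A11 * (D + ν ^ 2) + A12 * ν + A13)) * n| ≤
      ((|β| + 1) / t + C ^ 2 / t + 5 * C ^ 3 / t) * |s * n| := by
    rw [abs_mul, abs_mul s n, abs_of_pos hs]
    have h1 : |st - ν * sh + s * (νh + A11 * (D + ν ^ 2) + A12 * ν + A13)| ≤
        ((|β| + 1) / t + C ^ 2 / t + 5 * C ^ 3 / t) * s := by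
      have h2 : |ν * sh| ≤ C ^ 2 / t * s := by
        rw [abs_mul]
        calc |ν| * |sh| ≤ C * (C / 2 * s) := mul_le_mul hν hsh (abs_nonneg _) hC0.le
          _ = C ^ 2 / 2 * s := by ring
          _ ≤ C ^ 2 / t * s := by
            apply mul_le_mul_of_nonneg_right _ hs.le
            apply div_le_div_of_nonneg_left (by positivity) ht
            linarith
      have h3 : |s * (νh + A11 * (D + ν ^ 2) + A12 * ν + A13)| ≤ 5 * C ^ 3 / t * s := by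
        rw [abs_mul, abs_of_pos hs, mul_comm]
        exact mul_le_mul_of_nonneg_right c1 hs.le
      have h4 : |st - ν * sh + s * (νh + A11 * (D + ν ^ 2) + A12 * ν + A13)| ≤
          (|β| + 1) / t * s + C ^ 2 / t * s + 5 * C ^ 3 / t * s := by
        refine (abs_add_le _ _).trans (add_le_add ?_ h3)
        exact (abs_sub _ _).trans (add_le_add hst h2)
      refine h4.trans (le_of_eq ?_)
      ring
    calc _ ≤ (((|β| + 1) / t + C ^ 2 / t + 5 * C ^ 3 / t) * s) * |n| :=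
          mul_le_mul_of_nonneg_right h1 (abs_nonneg _)
      _ = _ := by ring
  have b2 : |s * (2 * ν * A11 + A12) * (m - ν * n)| ≤ 3 * C ^ 3 / t * |m - ν * n| := by
    rw [abs_mul]
    apply mul_le_mul_of_nonneg_right _ (abs_nonneg _)
    rw [abs_mul, abs_of_pos hs]
    have h1 : |2 * ν * A11 + A12| ≤ 2 * C * C + C := by
      refine (abs_add_le _ _).trans (add_le_add ?_ h12)
      rw [abs_mul, abs_mul, abs_of_pos (by norm_num : (0:ℝ) < 2)]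
      gcongr
    calc s * |2 * ν * A11 + A12| ≤ C / t * (2 * C * C + C) := by gcongr
      _ = (2 * C ^ 3 + C ^ 2) / t := by ring
      _ ≤ 3 * C ^ 3 / t := by
        apply div_le_div_of_nonneg_right _ ht.le
        linarith
  refine (abs_add_le _ _).trans ((add_le_add b1 b2).trans ?_)
  set P := |s * n| with hP
  set Q := |m - ν * n| with hQ
  have hP0 : 0 ≤ P := abs_nonneg _
  have hQ0 : 0 ≤ Q := abs_nonneg _
  have e2 : ((|β| + 1) / t + C ^ 2 / t + 5 * C ^ 3 / t) * P + 3 * C ^ 3 / t * Q =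
      ((|β| + 1 + C ^ 2 + 5 * C ^ 3) * P + 3 * C ^ 3 * Q) / t := by ring
  have e3 : (|β| + 20 * C ^ 5) / t * (P + Q) = ((|β| + 20 * C ^ 5) * (P + Q)) / t := by ring
  rw [e2, e3]
  apply div_le_div_of_nonneg_right _ ht.le
  have hβ := abs_nonneg β
  have h1C : 1 ≤ C ^ 3 := one_le_pow₀ hC
  have q1 : (|β| + 1 + C ^ 2 + 5 * C ^ 3) * P ≤ (|β| + 20 * C ^ 5) * P :=
    mul_le_mul_of_nonneg_right (by linarith) hP0
  have q2 : 3 * C ^ 3 * Q ≤ (|β| + 20 * C ^ 5) * Q :=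
    mul_le_mul_of_nonneg_right (by linarith) hQ0
  linarith

lemma T2_bound (ht : 0 < t) (ht1 : t ≤ 1) (hC : 1 ≤ C) (hs : 0 < s) (he : e ^ 2 = 1)
    (hsD : s * s = e * D) (hsh2 : 2 * (s * sh) = e * Dh)
    (hsC : s ≤ C / t) (hDabs : |D| = s * s) (hDh : |Dh| ≤ C * |D|) (hν : |ν| ≤ C)
    (hνh : |νh| ≤ C) (h11 : |A11| ≤ C) (h12 : |A12| ≤ C)
    (h21 : |A21| ≤ C) (h22 : |A22| ≤ C) (hS : S ≠ 0) (hSh : |Sh| ≤ C * |S|)
    (hB : nt = mh + A11 * ((D - ν ^ 2) * n + 2 * ν * m) + A12 * m + A13 * n)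
    (hM : mt = (Dh - 2 * ν * νh) * n + (D - ν ^ 2) * nh + 2 * νh * m + 2 * ν * mh +
      A21 * ((D - ν ^ 2) * n + 2 * ν * m) + A22 * m + A23 * n)
    (hS1 : St = (νh * S + ν * Sh) + A11 * ((ν ^ 2 - D) * S) + A12 * (ν * S) + A13 * S)
    (hS2 : νt * S + ν * St = ((2 * ν * νh - Dh) * S + (ν ^ 2 - D) * Sh) + A21 * ((ν ^ 2 - D) * S) +
      A22 * (ν * S) + A23 * S) :
    |(mt - νt * n - ν * nt) - ν * (mh - νh * n - ν * nh) - e * s * (sh * n + s * nh)| ≤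
      (|β| + 20 * C ^ 5) / t * (|s * n| + |m - ν * n|) := by
  have hC0 : 0 < C := by linarith
  obtain ⟨c, hc⟩ : ∃ c : ℝ, c = Dh / 2 + ν * νh - νt + (A23 - ν * A13) + (A21 - ν * A11) * (D + ν ^ 2) +
    (A22 - ν * A12) * ν := ⟨_, rfl⟩
  have e1 : (mt - νt * n - ν * nt) - ν * (mh - νh * n - ν * nh) - e * s * (sh * n + s * nh) =
      c * n + (2 * νh + 2 * ν * (A21 - ν * A11) + (A22 - ν * A12)) * (m - ν * n) := by
    rw [hB, hM, hc]
    linear_combination (-e * nh) * hsD - (e * n / 2) * hsh2 - (D * nh + Dh * n / 2) * he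
  have e2 : c * S = 3 / 2 * Dh * S + D * Sh + 2 * (A21 - ν * A11) * D * S := by
    rw [hc]
    linear_combination ν * hS1 - hS2
  have p2 : C ≤ C ^ 2 := le_self_pow₀ hC (by norm_num)
  have p3 : C ^ 2 ≤ C ^ 3 := pow_le_pow_right₀ hC (by norm_num)
  have p5 : C ^ 3 ≤ C ^ 5 := pow_le_pow_right₀ hC (by norm_num)
  have g21 : |A21 - ν * A11| ≤ 2 * C ^ 2 := by
    refine (abs_sub _ _).trans ?_
    rw [abs_mul]
    have : |ν| * |A11| ≤ C * C := mul_le_mul hν h11 (abs_nonneg _) hC0.le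
    have e : C * C = C ^ 2 := by ring
    linarith
  have g22 : |A22 - ν * A12| ≤ 2 * C ^ 2 := by
    refine (abs_sub _ _).trans ?_
    rw [abs_mul]
    have : |ν| * |A12| ≤ C * C := mul_le_mul hν h12 (abs_nonneg _) hC0.le
    have e : C * C = C ^ 2 := by ring
    linarith
  have hSp : 0 < |S| := abs_pos.2 hS
  have hDn := abs_nonneg D
  have cb : |c| ≤ 7 * C ^ 2 * |D| := by
    have h1 : |c| * |S| ≤ (7 * C ^ 2 * |D|) * |S| := by
      rw [← abs_mul, e2]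
      have k1 : |3 / 2 * Dh * S| ≤ 3 / 2 * C * |D| * |S| := by
        rw [abs_mul, abs_mul, abs_of_pos (by norm_num : (0:ℝ) < 3 / 2)]
        have := mul_le_mul_of_nonneg_right hDh hSp.le
        linarith
      have k2 : |D * Sh| ≤ C * |D| * |S| := by
        rw [abs_mul]
        have := mul_le_mul_of_nonneg_left hSh hDn
        linarith
      have k3 : |2 * (A21 - ν * A11) * D * S| ≤ 4 * C ^ 2 * |D| * |S| := by
        rw [abs_mul, abs_mul, abs_mul, abs_of_pos (by norm_num : (0:ℝ) < 2)]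
        apply mul_le_mul_of_nonneg_right _ hSp.le
        apply mul_le_mul_of_nonneg_right _ hDn
        linarith
      have k4 : |3 / 2 * Dh * S + D * Sh + 2 * (A21 - ν * A11) * D * S| ≤
          3 / 2 * C * |D| * |S| + C * |D| * |S| + 4 * C ^ 2 * |D| * |S| := by
        refine (abs_add_le _ _).trans (add_le_add ?_ k3)
        exact (abs_add_le _ _).trans (add_le_add k1 k2)
      refine k4.trans ?_
      have k5 : C * (|D| * |S|) ≤ C ^ 2 * (|D| * |S|) := mul_le_mul_of_nonneg_right p2 (by positivity)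
      have k6 : 0 ≤ C ^ 2 * (|D| * |S|) := by positivity
      linarith
    exact le_of_mul_le_mul_right h1 hSp
  rw [e1]
  have b1 : |c * n| ≤ 7 * C ^ 3 / t * |s * n| := by
    rw [abs_mul, abs_mul s n, abs_of_pos hs]
    have h1 : |c| ≤ 7 * C ^ 3 / t * s := by
      refine cb.trans ?_
      rw [hDabs]
      calc 7 * C ^ 2 * (s * s) ≤ 7 * C ^ 2 * (C / t * s) := by gcongr
        _ = _ := by ring
    calc |c| * |n| ≤ (7 * C ^ 3 / t * s) * |n| := mul_le_mul_of_nonneg_right h1 (abs_nonneg _)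
      _ = _ := by ring
  have b2 : |(2 * νh + 2 * ν * (A21 - ν * A11) + (A22 - ν * A12)) * (m - ν * n)| ≤
      8 * C ^ 3 / t * |m - ν * n| := by
    rw [abs_mul]
    apply mul_le_mul_of_nonneg_right _ (abs_nonneg _)
    have h1 : |2 * νh + 2 * ν * (A21 - ν * A11) + (A22 - ν * A12)| ≤ 2 * C + 2 * C * (2 * C ^ 2) + 2 * C ^ 2 := by
      refine (abs_add_le _ _).trans (add_le_add ?_ g22)
      refine (abs_add_le _ _).trans (add_le_add ?_ ?_)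
      · rw [abs_mul, abs_of_pos (by norm_num : (0:ℝ) < 2)]; linarith
      · rw [abs_mul, abs_mul, abs_of_pos (by norm_num : (0:ℝ) < 2)]; gcongr
    refine h1.trans ?_
    rw [le_div_iff₀ ht]
    have h4 : 2 * C * (2 * C ^ 2) = 4 * C ^ 3 := by ring
    have h2 : 2 * C + 2 * C * (2 * C ^ 2) + 2 * C ^ 2 ≤ 8 * C ^ 3 := by linarith
    have h3 : 0 ≤ 2 * C + 2 * C * (2 * C ^ 2) + 2 * C ^ 2 := by positivity
    exact (mul_le_of_le_one_right h3 ht1).trans h2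
  refine (abs_add_le _ _).trans ((add_le_add b1 b2).trans ?_)
  set P := |s * n| with hP
  set Q := |m - ν * n| with hQ
  have hP0 : 0 ≤ P := abs_nonneg _
  have hQ0 : 0 ≤ Q := abs_nonneg _
  have e4 : 7 * C ^ 3 / t * P + 8 * C ^ 3 / t * Q = (7 * C ^ 3 * P + 8 * C ^ 3 * Q) / t := by ring
  have e3 : (|β| + 20 * C ^ 5) / t * (P + Q) = ((|β| + 20 * C ^ 5) * (P + Q)) / t := by ring
  rw [e4, e3]
  apply div_le_div_of_nonneg_right _ ht.le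
  have hβ := abs_nonneg β
  have h1C : 1 ≤ C ^ 3 := one_le_pow₀ hC
  have q1 : 7 * C ^ 3 * P ≤ (|β| + 20 * C ^ 5) * P := mul_le_mul_of_nonneg_right (by linarith) hP0
  have q2 : 8 * C ^ 3 * Q ≤ (|β| + 20 * C ^ 5) * Q := mul_le_mul_of_nonneg_right (by linarith) hQ0
  linarith

end Ptw

/-- the reduction to the two abstract lemmas; `e = 1` for `D > 0` and `e = -1` for `D < 0` -/
lemma core (hD : SpecDR2) (δ C β e : ℝ) (n m l sn sm sl D ν A11 A12 A13 A21 A22 A23 : ℝ → ℝ → ℝ) (hδ : 0 < δ)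
    (hC1 : 1 ≤ C) (he : e ^ 2 = 1) (hn : SJ (Ioo 0 δ) n) (hm : SJ (Ioo 0 δ) m)
    (hsn : SJ (Ioo 0 δ) sn) (sD : SJ (Ioo 0 δ) D) (sν : SJ (Ioo 0 δ) ν)
    (pn : Per (Ioo 0 δ) n) (pm : Per (Ioo 0 δ) m) (pD : Per (Ioo 0 δ) D) (pν : Per (Ioo 0 δ) ν)
    (A : ∀ t ∈ Ioo 0 δ, ∀ θ, l t θ = (D t θ - ν t θ ^ 2) * n t θ + 2 * ν t θ * m t θ)
    (S0 : ∀ t ∈ Ioo 0 δ, ∀ θ, sm t θ = ν t θ * sn t θ ∧ sl t θ = (ν t θ ^ 2 - D t θ) * sn t θ ∧ sn t θ ≠ 0)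
    (B : ∀ t ∈ Ioo 0 δ, ∀ θ, pt n t θ = ph m t θ + A11 t θ * l t θ + A12 t θ * m t θ + A13 t θ * n t θ)
    (M : ∀ t ∈ Ioo 0 δ, ∀ θ, pt m t θ = ph l t θ + A21 t θ * l t θ + A22 t θ * m t θ + A23 t θ * n t θ)
    (SB : ∀ t ∈ Ioo 0 δ, ∀ θ, pt sn t θ = ph sm t θ + A11 t θ * sl t θ + A12 t θ * sm t θ + A13 t θ * sn t θ)
    (SM : ∀ t ∈ Ioo 0 δ, ∀ θ, pt sm t θ = ph sl t θ + A21 t θ * sl t θ + A22 t θ * sm t θ + A23 t θ * sn t θ)
    (bA : ∀ t ∈ Ioo 0 δ, ∀ θ, |A11 t θ| ≤ C ∧ |A12 t θ| ≤ C ∧ |A13 t θ| ≤ C ∧ |A21 t θ| ≤ C ∧ |A22 t θ| ≤ C ∧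
      |A23 t θ| ≤ C)
    (hpos : ∀ t ∈ Ioo 0 δ, ∀ θ, 0 < e * D t θ)
    (N1 : ∀ t ∈ Ioo 0 δ, ∀ θ, |D t θ| ≤ C / t ∧ |t * pt D t θ - β * D t θ| ≤ C * t * |D t θ| ∧
      |ph D t θ| ≤ C * |D t θ| ∧ |ν t θ| ≤ C ∧ |ph ν t θ| ≤ C ∧ |ph sn t θ| ≤ C * |sn t θ|)
    (F1 : ∀ N : ℕ, ∃ B : ℝ, ∀ t ∈ Ioo 0 δ, ∀ θ, |n t θ| + |m t θ| ≤ B * t ^ N) :
    ∃ (δ₁ C' : ℝ) (y V a q : ℝ → ℝ → ℝ), 0 < δ₁ ∧ δ₁ ≤ δ ∧ δ₁ ≤ 1 ∧ 0 < C' ∧ SJ (Ioo 0 δ₁) y ∧
      SJ (Ioo 0 δ₁) V ∧ SJ (Ioo 0 δ₁) a ∧ SJ (Ioo 0 δ₁) q ∧ Per (Ioo 0 δ₁) y ∧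
      Per (Ioo 0 δ₁) V ∧ Per (Ioo 0 δ₁) a ∧ Per (Ioo 0 δ₁) q ∧
      (∀ t ∈ Ioo 0 δ₁, ∀ θ, 0 < q t θ) ∧
      (∀ t ∈ Ioo 0 δ₁, ∀ θ, |pt y t θ - a t θ * ph y t θ - q t θ * ph V t θ| ≤
        C' / t * (|y t θ| + |V t θ|)) ∧
      (∀ t ∈ Ioo 0 δ₁, ∀ θ, |pt V t θ - a t θ * ph V t θ - e * q t θ * ph y t θ| ≤
        C' / t * (|y t θ| + |V t θ|)) ∧
      (∀ t ∈ Ioo 0 δ₁, ∀ θ, |t * pt q t θ - β / 2 * q t θ| ≤ 1 / 8 * q t θ) ∧
      (∀ t ∈ Ioo 0 δ₁, ∀ θ, |ph a t θ| ≤ C') ∧ (∀ t ∈ Ioo 0 δ₁, ∀ θ, |ph q t θ| ≤ C' / √t) ∧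
      (∀ t ∈ Ioo 0 δ₁, ∀ θ, |a t θ * ph q t θ| ≤ C' * q t θ) ∧
      (∀ N : ℕ, ∃ D : ℝ, ∀ t ∈ Ioo 0 δ₁, ∀ θ, |y t θ| + |V t θ| ≤ D * t ^ N) ∧
      (∀ t ∈ Ioo 0 δ₁, ∀ θ, y t θ = 0 ∧ V t θ = 0 → n t θ = 0 ∧ m t θ = 0 ∧ l t θ = 0) := by
  have hJ : IsOpen (Ioo 0 δ) := isOpen_Ioo
  have hC : 0 < C := by linarith
  set s : ℝ → ℝ → ℝ := fun t θ => √(e * D t θ) with hs
  have ss : SJ (Ioo 0 δ) s := by
    apply ContDiffOn.sqrt
    · exact ContDiffOn.mul contDiffOn_const sD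
    · rintro ⟨t, θ⟩ ⟨ht, _⟩
      exact (hpos t ht θ).ne'
  have ps : Per (Ioo 0 δ) s := by
    intro t ht θ
    show √(e * D t (θ + 2 * π)) = √(e * D t θ)
    rw [pD t ht]
  have s0 : ∀ t ∈ Ioo 0 δ, ∀ θ, 0 < s t θ := fun t ht θ => Real.sqrt_pos.2 (hpos t ht θ)
  have ssD : ∀ t ∈ Ioo 0 δ, ∀ θ, s t θ * s t θ = e * D t θ := fun t ht θ =>
    Real.mul_self_sqrt (hpos t ht θ).le
  have cst : ∀ c : ℝ, SJ (Ioo 0 δ) (fun _ _ => c) := fun c => contDiffOn_const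
  have ptc : ∀ (c t θ : ℝ), pt (fun _ _ => c) t θ = 0 := fun c t θ => by
    show deriv (fun _ => c) t = 0
    simp
  have phc : ∀ (c t θ : ℝ), ph (fun _ _ => c) t θ = 0 := fun c t θ => by
    show deriv (fun _ => c) θ = 0
    simp
  have sst : ∀ t ∈ Ioo 0 δ, ∀ θ, 2 * (s t θ * pt s t θ) = e * pt D t θ := by
    intro t ht θ
    have h := hD.pcg hJ ssD t ht θ
    rw [pt_mul hD hJ ss ss ht, pt_mul hD hJ (cst e) sD ht, ptc] at h
    linarith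
  have ssh : ∀ t ∈ Ioo 0 δ, ∀ θ, 2 * (s t θ * ph s t θ) = e * ph D t θ := by
    intro t ht θ
    have h := hD.hcg ssD t ht θ
    rw [ph_mul hD hJ ss ss ht, ph_mul hD hJ (cst e) sD ht, phc] at h
    linarith
  -- the equations
  have hl : ∀ t ∈ Ioo 0 δ, ∀ θ, ph l t θ = (ph D t θ - 2 * ν t θ * ph ν t θ) * n t θ +
      (D t θ - ν t θ ^ 2) * ph n t θ + 2 * ph ν t θ * m t θ + 2 * ν t θ * ph m t θ := by
    intro t ht θ
    have h := hD.hcg (G := l) (H := fun t θ => (D t θ - ν t θ * ν t θ) * n t θ +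
      (ν t θ * m t θ + ν t θ * m t θ)) (fun t ht θ => by rw [A t ht θ]; ring) t ht θ
    have k1 : SJ (Ioo 0 δ) (fun t θ => ν t θ * ν t θ) := sj_mul sν sν
    have k2 : SJ (Ioo 0 δ) (fun t θ => D t θ - ν t θ * ν t θ) := ELLM.sj_sub sD k1
    have k3 : SJ (Ioo 0 δ) (fun t θ => ν t θ * m t θ) := sj_mul sν hm
    rw [h, ph_add hD hJ (sj_mul k2 hn) (sj_add k3 k3) ht, ph_mul hD hJ k2 hn ht,
      ph_sub hD hJ sD k1 ht, ph_mul hD hJ sν sν ht, ph_add hD hJ k3 k3 ht, ph_mul hD hJ sν hm ht]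
    ring
  have hB : ∀ t ∈ Ioo 0 δ, ∀ θ, pt n t θ = ph m t θ + A11 t θ * ((D t θ - ν t θ ^ 2) * n t θ +
      2 * ν t θ * m t θ) + A12 t θ * m t θ + A13 t θ * n t θ := by
    intro t ht θ
    have h := B t ht θ
    rw [A t ht θ] at h
    exact h
  have hM : ∀ t ∈ Ioo 0 δ, ∀ θ, pt m t θ = (ph D t θ - 2 * ν t θ * ph ν t θ) * n t θ +
      (D t θ - ν t θ ^ 2) * ph n t θ + 2 * ph ν t θ * m t θ + 2 * ν t θ * ph m t θ +
      A21 t θ * ((D t θ - ν t θ ^ 2) * n t θ + 2 * ν t θ * m t θ) + A22 t θ * m t θ + A23 t θ * n t θ := by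
    intro t ht θ
    have h := M t ht θ
    rw [hl t ht θ, A t ht θ] at h
    exact h
  -- the equations of the sums
  have smh : ∀ t ∈ Ioo 0 δ, ∀ θ, ph sm t θ = ph ν t θ * sn t θ + ν t θ * ph sn t θ := by
    intro t ht θ
    rw [hD.hcg (G := sm) (H := fun t θ => ν t θ * sn t θ) (fun t ht θ => (S0 t ht θ).1) t ht θ,
      ph_mul hD hJ sν hsn ht]
  have smt : ∀ t ∈ Ioo 0 δ, ∀ θ, pt sm t θ = pt ν t θ * sn t θ + ν t θ * pt sn t θ := by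
    intro t ht θ
    rw [hD.pcg hJ (G := sm) (H := fun t θ => ν t θ * sn t θ) (fun t ht θ => (S0 t ht θ).1) t ht θ,
      pt_mul hD hJ sν hsn ht]
  have slh : ∀ t ∈ Ioo 0 δ, ∀ θ, ph sl t θ = (2 * ν t θ * ph ν t θ - ph D t θ) * sn t θ +
      (ν t θ ^ 2 - D t θ) * ph sn t θ := by
    intro t ht θ
    have k1 : SJ (Ioo 0 δ) (fun t θ => ν t θ * ν t θ) := sj_mul sν sν
    have k2 : SJ (Ioo 0 δ) (fun t θ => ν t θ * ν t θ - D t θ) := ELLM.sj_sub k1 sD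
    rw [hD.hcg (G := sl) (H := fun t θ => (ν t θ * ν t θ - D t θ) * sn t θ)
      (fun t ht θ => by rw [(S0 t ht θ).2.1]; ring) t ht θ,
      ph_mul hD hJ k2 hsn ht, ph_sub hD hJ k1 sD ht, ph_mul hD hJ sν sν ht]
    ring
  have hS1 : ∀ t ∈ Ioo 0 δ, ∀ θ, pt sn t θ = (ph ν t θ * sn t θ + ν t θ * ph sn t θ) +
      A11 t θ * ((ν t θ ^ 2 - D t θ) * sn t θ) + A12 t θ * (ν t θ * sn t θ) + A13 t θ * sn t θ := by
    intro t ht θ
    have h := SB t ht θ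
    rw [smh t ht θ, (S0 t ht θ).1, (S0 t ht θ).2.1] at h
    exact h
  have hS2 : ∀ t ∈ Ioo 0 δ, ∀ θ, pt ν t θ * sn t θ + ν t θ * pt sn t θ =
      ((2 * ν t θ * ph ν t θ - ph D t θ) * sn t θ + (ν t θ ^ 2 - D t θ) * ph sn t θ) +
      A21 t θ * ((ν t θ ^ 2 - D t θ) * sn t θ) + A22 t θ * (ν t θ * sn t θ) + A23 t θ * sn t θ := by
    intro t ht θ
    have h := SM t ht θ
    rw [smt t ht θ, slh t ht θ, (S0 t ht θ).1, (S0 t ht θ).2.1] at h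
    exact h
  -- the new functions
  have sy : SJ (Ioo 0 δ) (fun t θ => s t θ * n t θ) := sj_mul ss hn
  have sνn : SJ (Ioo 0 δ) (fun t θ => ν t θ * n t θ) := sj_mul sν hn
  have sV : SJ (Ioo 0 δ) (fun t θ => m t θ - ν t θ * n t θ) := ELLM.sj_sub hm sνn
  have py : Per (Ioo 0 δ) (fun t θ => s t θ * n t θ) := per_mul ps pn
  have pV : Per (Ioo 0 δ) (fun t θ => m t θ - ν t θ * n t θ) := ELLM.per_sub pm (per_mul pν pn)
  have hC5 : 1 ≤ C ^ 5 := one_le_pow₀ hC1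
  have hC15 : C ≤ C ^ 5 := le_self_pow₀ hC1 (by norm_num)
  have hC25 : C ^ 2 ≤ C ^ 5 := pow_le_pow_right₀ hC1 (by norm_num)
  have hβ0 := abs_nonneg β
  set δ₁ : ℝ := min δ (min 1 (1 / (8 * C))) with hδ₁
  have hδ₁0 : 0 < δ₁ := lt_min hδ (lt_min one_pos (by positivity))
  have hsub : ∀ t ∈ Ioo 0 δ₁, t ∈ Ioo 0 δ ∧ t ≤ 1 ∧ C * t ≤ 1 / 8 := by
    intro t ht
    have h2 := ht.2
    have h3 := lt_of_lt_of_le h2 (min_le_left _ _)
    have h4 := lt_of_lt_of_le h2 (le_trans (min_le_right _ _) (min_le_left _ _))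
    have h5 := lt_of_lt_of_le h2 (le_trans (min_le_right _ _) (min_le_right _ _))
    refine ⟨⟨ht.1, h3⟩, h4.le, ?_⟩
    rw [lt_div_iff₀ (by positivity)] at h5
    linarith
  have hsubset : Ioo 0 δ₁ ⊆ Ioo 0 δ := fun t ht => (hsub t ht).1
  have hmono : ∀ {f : ℝ → ℝ → ℝ}, SJ (Ioo 0 δ) f → SJ (Ioo 0 δ₁) f := fun hf =>
    ContDiffOn.mono hf (Set.prod_mono hsubset le_rfl)
  have hpmono : ∀ {f : ℝ → ℝ → ℝ}, Per (Ioo 0 δ) f → Per (Ioo 0 δ₁) f := fun hf t ht θ =>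
    hf t (hsubset ht) θ
  -- bounds of s at a point
  have bnd : ∀ t ∈ Ioo 0 δ₁, ∀ θ, |t * pt s t θ - β / 2 * s t θ| ≤ 1 / 16 * s t θ ∧
      |ph s t θ| ≤ C / 2 * s t θ ∧ |D t θ| = s t θ * s t θ ∧
      |pt s t θ| ≤ (|β| + 1) / t * s t θ ∧ s t θ ≤ C / t ∧ s t θ ≤ C / √t := by
    intro t ht θ
    obtain ⟨htδ, ht1, ht8⟩ := hsub t ht
    have ht0 : 0 < t := ht.1
    obtain ⟨D1, D2, D3, ν1, ν2, σ1⟩ := N1 t htδ θ
    obtain ⟨k1, k2, k3, k4⟩ := s_bounds (β := β) ht0 (s0 t htδ θ) he (ssD t htδ θ)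
      (sst t htδ θ) (ssh t htδ θ) (D2.trans (mul_le_mul_of_nonneg_right ht8 (abs_nonneg _))) D3
    have hs0 := s0 t htδ θ
    have h1 : s t θ * s t θ ≤ C / t := by rw [← k3]; exact D1
    have hsq : s t θ ≤ √C / √t := by
      rw [← Real.sqrt_div hC.le]
      exact Real.le_sqrt_of_sq_le (by rw [_root_.sq]; exact h1)
    have hCC : √C ≤ C := by
      rw [Real.sqrt_le_left hC.le]
      nlinarith
    have ht2 : 0 < √t := Real.sqrt_pos.2 ht0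
    have h2 : s t θ ≤ C / √t := hsq.trans (div_le_div_of_nonneg_right hCC ht2.le)
    have h3 : C / √t ≤ C / t := by
      apply div_le_div_of_nonneg_left hC.le ht0
      rw [Real.le_sqrt' ht0]
      nlinarith
    exact ⟨k1, k2, k3, k4, h2.trans h3, h2⟩
  have dy : ∀ t ∈ Ioo 0 δ, ∀ θ, pt (fun t θ => s t θ * n t θ) t θ =
      pt s t θ * n t θ + s t θ * pt n t θ := fun t ht θ => pt_mul hD hJ ss hn ht θ
  have dyh : ∀ t ∈ Ioo 0 δ, ∀ θ, ph (fun t θ => s t θ * n t θ) t θ =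
      ph s t θ * n t θ + s t θ * ph n t θ := fun t ht θ => ph_mul hD hJ ss hn ht θ
  have dV : ∀ t ∈ Ioo 0 δ, ∀ θ, pt (fun t θ => m t θ - ν t θ * n t θ) t θ =
      pt m t θ - pt ν t θ * n t θ - ν t θ * pt n t θ := fun t ht θ => by
    rw [ELLM.pt_sub hD hJ hm sνn ht, pt_mul hD hJ sν hn ht]; ring
  have dVh : ∀ t ∈ Ioo 0 δ, ∀ θ, ph (fun t θ => m t θ - ν t θ * n t θ) t θ =
      ph m t θ - ph ν t θ * n t θ - ν t θ * ph n t θ := fun t ht θ => by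
    rw [ELLM.ph_sub hD hJ hm sνn ht, ph_mul hD hJ sν hn ht]; ring
  refine ⟨δ₁, |β| + 20 * C ^ 5, fun t θ => s t θ * n t θ, fun t θ => m t θ - ν t θ * n t θ,
    ν, s, hδ₁0, min_le_left _ _,
    le_trans (min_le_right _ _) (min_le_left _ _), by positivity,
    hmono sy, hmono sV, hmono sν, hmono ss, hpmono py, hpmono pV, hpmono pν, hpmono ps,
    ?_, ?_, ?_, ?_, ?_, ?_, ?_, ?_, ?_⟩
  · intro t ht θ
    exact s0 t (hsubset ht) θ
  · intro t ht θ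
    obtain ⟨htδ, ht1, htC⟩ := hsub t ht
    obtain ⟨k1, k2, k3, k4, k5, k6⟩ := bnd t ht θ
    obtain ⟨D1, D2, D3, ν1, ν2, σ1⟩ := N1 t htδ θ
    obtain ⟨a1, a2, a3, a4, a5, a6⟩ := bA t htδ θ
    have h := T1_bound (β := β) ht.1 ht1 hC1 (s0 t htδ θ) k4 k2 k5 D1 ν1 ν2 a1 a2 a3 (hB t htδ θ)
      (nh := ph n t θ)
    rw [dy t htδ, dyh t htδ, dVh t htδ]
    exact h
  · intro t ht θ
    obtain ⟨htδ, ht1, htC⟩ := hsub t ht
    obtain ⟨k1, k2, k3, k4, k5, k6⟩ := bnd t ht θ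
    obtain ⟨D1, D2, D3, ν1, ν2, σ1⟩ := N1 t htδ θ
    obtain ⟨a1, a2, a3, a4, a5, a6⟩ := bA t htδ θ
    have h := T2_bound (β := β) ht.1 ht1 hC1 (s0 t htδ θ) he (ssD t htδ θ)
      (ssh t htδ θ) k5 k3 D3 ν1 ν2 a1 a2 a4 a5 (S0 t htδ θ).2.2 σ1 (hB t htδ θ) (hM t htδ θ) (hS1 t htδ θ)
      (hS2 t htδ θ)
    rw [dV t htδ, dyh t htδ, dVh t htδ]
    exact h
  · intro t ht θ
    have h := (bnd t ht θ).1
    have h0 := s0 t (hsubset ht) θ
    linarith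
  · intro t ht θ
    obtain ⟨htδ, ht1, htC⟩ := hsub t ht
    obtain ⟨D1, D2, D3, ν1, ν2, σ1⟩ := N1 t htδ θ
    linarith
  · intro t ht θ
    obtain ⟨htδ, ht1, htC⟩ := hsub t ht
    obtain ⟨k1, k2, k3, k4, k5, k6⟩ := bnd t ht θ
    have ht2 : 0 < √t := Real.sqrt_pos.2 ht.1
    calc |ph s t θ| ≤ C / 2 * s t θ := k2
      _ ≤ C / 2 * (C / √t) := by gcongr
      _ = (C ^ 2 / 2) / √t := by ring
      _ ≤ _ := div_le_div_of_nonneg_right (by linarith) ht2.le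
  · intro t ht θ
    obtain ⟨htδ, ht1, htC⟩ := hsub t ht
    obtain ⟨k1, k2, k3, k4, k5, k6⟩ := bnd t ht θ
    obtain ⟨D1, D2, D3, ν1, ν2, σ1⟩ := N1 t htδ θ
    have h0 := s0 t htδ θ
    rw [abs_mul]
    calc |ν t θ| * |ph s t θ| ≤ C * (C / 2 * s t θ) := by gcongr
      _ = (C ^ 2 / 2) * s t θ := by ring
      _ ≤ _ := mul_le_mul_of_nonneg_right (by linarith) h0.le
  · intro N
    obtain ⟨B', hB'⟩ := F1 (N + 1)
    refine ⟨(1 + 2 * C) * |B'|, fun t ht θ => ?_⟩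
    obtain ⟨htδ, ht1, htC⟩ := hsub t ht
    obtain ⟨k1, k2, k3, k4, k5, k6⟩ := bnd t ht θ
    obtain ⟨D1, D2, D3, ν1, ν2, σ1⟩ := N1 t htδ θ
    have h1 := hB' t htδ θ
    have hs0 := s0 t htδ θ
    have ht0 : 0 < t := ht.1
    have hn := abs_nonneg (n t θ)
    have hm := abs_nonneg (m t θ)
    have h2 : |s t θ * n t θ| + |m t θ - ν t θ * n t θ| ≤
        (C / t + 1 + C) * (|n t θ| + |m t θ|) := by
      have h3 : |m t θ - ν t θ * n t θ| ≤ |m t θ| + C * |n t θ| := by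
        refine (abs_sub _ _).trans ?_
        rw [abs_mul]
        have := mul_le_mul_of_nonneg_right ν1 hn
        linarith
      rw [abs_mul, abs_of_pos hs0]
      have h4 := mul_le_mul_of_nonneg_right k5 hn
      have h5 : 0 ≤ C / t := by positivity
      nlinarith [mul_nonneg h5 hm, mul_nonneg hC.le hm]
    have h6 : (C / t + 1 + C) ≤ (1 + 2 * C) / t := by
      rw [le_div_iff₀ ht0]
      have : (C / t + 1 + C) * t = C + t + C * t := by field_simp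
      rw [this]
      nlinarith
    have h7 : |n t θ| + |m t θ| ≤ |B'| * t ^ (N + 1) :=
      h1.trans (mul_le_mul_of_nonneg_right (le_abs_self _) (by positivity))
    calc |s t θ * n t θ| + |m t θ - ν t θ * n t θ| ≤ (C / t + 1 + C) * (|n t θ| + |m t θ|) := h2
      _ ≤ (1 + 2 * C) / t * (|B'| * t ^ (N + 1)) := by gcongr
      _ = (1 + 2 * C) * |B'| * t ^ N := by
          rw [pow_succ]; field_simp
  · rintro t ht θ ⟨h1, h2⟩
    have htδ := hsubset ht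
    have hn : n t θ = 0 := by
      rcases mul_eq_zero.1 h1 with h | h
      · exact absurd h (s0 t htδ θ).ne'
      · exact h
    have hm : m t θ = 0 := by
      have h3 : m t θ - ν t θ * n t θ = 0 := h2
      rw [hn, mul_zero, sub_zero] at h3
      exact h3
    refine ⟨hn, hm, ?_⟩
    rw [A t htδ θ, hn, hm]; ring

end UN2M

open UN2M in
theorem specUN2 (hD : SpecDR2) (hH : SpecHYP) (hE : SpecELL) : SpecUN2 := by
  intro δ C₀ β n m l sn sm sl D ν A11 A12 A13 A21 A22 A23 hδ hC₀ hβ hn hm hl hsn hsm hsl sD sν pn pm pl psn psm psl pD pν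
    A S0 B M SB SM bA₀ hsg N1₀ F1
  -- enlarge the constant
  obtain ⟨C, hC⟩ : ∃ C : ℝ, C = C₀ + 1 := ⟨_, rfl⟩
  have hC1 : 1 ≤ C := by linarith
  have hCC : C₀ ≤ C := by linarith
  have bA : ∀ t ∈ Ioo 0 δ, ∀ θ, |A11 t θ| ≤ C ∧ |A12 t θ| ≤ C ∧ |A13 t θ| ≤ C ∧ |A21 t θ| ≤ C ∧ |A22 t θ| ≤ C ∧
      |A23 t θ| ≤ C := by
    intro t ht θ
    obtain ⟨a1, a2, a3, a4, a5, a6⟩ := bA₀ t ht θ
    exact ⟨a1.trans hCC, a2.trans hCC, a3.trans hCC, a4.trans hCC, a5.trans hCC, a6.trans hCC⟩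
  have N1 : ∀ t ∈ Ioo 0 δ, ∀ θ, |D t θ| ≤ C / t ∧ |t * pt D t θ - β * D t θ| ≤ C * t * |D t θ| ∧
      |ph D t θ| ≤ C * |D t θ| ∧ |ν t θ| ≤ C ∧ |ph ν t θ| ≤ C ∧ |ph sn t θ| ≤ C * |sn t θ| := by
    intro t ht θ
    obtain ⟨a1, a2, a3, a4, a5, a6⟩ := N1₀ t ht θ
    have ht0 := ht.1
    refine ⟨a1.trans (div_le_div_of_nonneg_right hCC ht0.le), a2.trans ?_, a3.trans ?_, a4.trans hCC, a5.trans hCC,
      a6.trans ?_⟩ <;> gcongr
  rcases hsg with hp | hp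
  · obtain ⟨δ₁, C', y, V, a, q, h0, h1, h1', h2, sy, sV, sa, sq, py, pV, pa, pq, q0, T1, T2, q1,
      a1, q2, q3, fl, fin⟩ := core hD δ C β 1 n m l sn sm sl D ν A11 A12 A13 A21 A22 A23 hδ hC1 (by norm_num) hn hm
        hsn sD sν pn pm pD pν A S0 B M SB SM bA (fun t ht θ => by rw [one_mul]; exact hp t ht θ) N1 F1
    have h := hH δ₁ C' y V a q h0 h2 sy sV sa sq py pV pa pq T1
      (fun t ht θ => by have := T2 t ht θ; rw [one_mul] at this; exact this)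
      (fun t ht θ => (a1 t ht θ).trans (by
        rw [le_div_iff₀ ht.1]
        nlinarith [ht.2]))
      (fun t ht θ => (q2 t ht θ).trans (by
        apply div_le_div_of_nonneg_left h2.le ht.1
        rw [Real.le_sqrt' ht.1]
        nlinarith [ht.2, ht.1])) fl
    exact ⟨δ₁, h0, h1, fun t ht θ => fin t ht θ (h t ht θ)⟩
  · obtain ⟨δ₁, C', y, V, a, q, h0, h1, h1', h2, sy, sV, sa, sq, py, pV, pa, pq, q0, T1, T2, q1,
      a1, q2, q3, fl, fin⟩ := core hD δ C β (-1) n m l sn sm sl D ν A11 A12 A13 A21 A22 A23 hδ hC1 (by norm_num) hn hm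
        hsn sD sν pn pm pD pν A S0 B M SB SM bA (fun t ht θ => by have := hp t ht θ; linarith) N1 F1
    obtain ⟨δ', k0, k1, k2⟩ := hE δ₁ C' β y V a q h0 h2 hβ sy sV sa sq py pV pa pq q0 T1
      (fun t ht θ => by
        have := T2 t ht θ
        have e1 : pt V t θ - a t θ * ph V t θ + q t θ * ph y t θ =
          pt V t θ - a t θ * ph V t θ - -1 * q t θ * ph y t θ := by ring
        rw [e1]; exact this) q1 a1 q2 q3 fl
    exact ⟨δ', k0, k1.trans h1, fun t ht θ =>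
      fin t ⟨ht.1, lt_of_lt_of_le ht.2 k1⟩ θ (k2 t ht θ)⟩

end Rim478
end

section
set_option autoImplicit false

/-!
MP_478c11_gt (helper9): part G assembled.
-/

namespace Rim478

theorem hTAY : SpecTAY := specTAY hDR2
theorem hFR2 : SpecFR2 := specFR2 hDR2 hCRS
theorem hUN2 : SpecUN2 := specUN2 hDR2 (specHYP hDR2 hINT) (specELL hDR2 hINT)
theorem hRT2 : SpecRT2 := specRT2 hDR2 hFLT hTAY hFR2 hUN2
theorem hSTR : SpecSTR := specSTR hRT2 specCN2 specFF2 specRF2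
theorem hPCV : SpecPCV := specPCV
theorem hOPM : SpecOPM := specOPM
theorem hPOL : SpecPOL := specPOL hPCV
theorem hMLV : SpecMLV := specMLV hSTR hPCV hOPM hPOL hFR2

end Rim478
end
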