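import Pool.Agent.Lib.MP_478c11_gt.M.BND

set_option autoImplicit false

/-!
# MP_478c11_gt (helper9), part G: `C^∞` surfaces of ANY GENUS

Theorem (part G).  `f₀ : M → ℝ³` a `C^∞` immersion of a surface, which is covered (up to a nowhere dense set) by the points of positive curvature and by strips `ψ : J × ℝ → M` (`2π`-periodic in `θ`), all of whose levels `t = t₁` are ADMISSIBLE
(`L₂₂` vanishes exactly to order `j` on the level, `L₁₂` to order `≥ j`, `K` exactly to order `k`, `2j ≤ k + 1`); different strips meet only where `K > 0`; one strip has a nondegenerate convex rim.  Then a surface which is isometric to `f₀` and close along the rim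
is congruent to `f₀`, and all bendings are trivial.

Strategy: `iso` (part W, done) gives flat contact along the rim.  Part G: the strip theorem in ARBITRARY coordinates (`STR`: flat contact along one level implies equality on the whole strip; the abstract energy/frequency lemmas HYP and ELL of part U are reused), then
topology: in `{K > 0}` agreement spreads by polar coordinate strips, elsewhere by the given strips.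

Everything of parts U, W is available: `hDR2 hFLT hINT hCRS`, `iso`, `BRGM.*` (`rY*`, `it_sub`, `fl_cg`, `fl_back`, `g_pt`, `g_ph`, `g_sm`, `cr_sub_left`, ...), `BNDM.*`, `bend`, `isoBend` (`M/BND.lean`), `FLTM.tay`, `GLBM.*`.

Rules: one module `XXX` = file `Pool/Agent/Lib/MP_478c11_gt/G/XXX.lean` (import `Pool.Agent.Lib.MP_478c11_gt.G.Spec`), theorem `specXXX (hYYY : SpecYYY) … : SpecXXX`, own lemmas in the namespace `Rim478.XXXM`.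
If a statement here is wrong or awkward, tell helper9 (you may strengthen or weaken hypotheses by agreement).  Do not use words forbidden by RULES.md in the files, nor straight double quotes.
-/

open Real MeasureTheory Set Filter Topology
open scoped ContDiff InnerProductSpace Manifold

namespace Rim478

/-! ## Definitions -/

/-- the normal of a strip, not normalized: `X_t × X_θ` -/
noncomputable def cN (X : ℝ → ℝ → E3) (t θ : ℝ) : E3 := cr (pt X t θ) (ph X t θ)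

/-- `⟨X_tt, X_t × X_θ⟩`, `⟨X_tθ, X_t × X_θ⟩`, `⟨X_θθ, X_t × X_θ⟩`: second fundamental form times the area density -/
noncomputable def gl (X : ℝ → ℝ → E3) (t θ : ℝ) : ℝ := ⟪pt (pt X) t θ, cN X t θ⟫_ℝ
noncomputable def gm (X : ℝ → ℝ → E3) (t θ : ℝ) : ℝ := ⟪ph (pt X) t θ, cN X t θ⟫_ℝ
noncomputable def gn (X : ℝ → ℝ → E3) (t θ : ℝ) : ℝ := ⟪ph (ph X) t θ, cN X t θ⟫_ℝ

/-- the determinant, `K` times the square of `EG - F²` -/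
noncomputable def gk (X : ℝ → ℝ → E3) (t θ : ℝ) : ℝ := gl X t θ * gn X t θ - gm X t θ ^ 2

/-- two isometric periodic strips, immersed -/
structure SI (J : Set ℝ) (X Y : ℝ → ℝ → E3) : Prop where
  sX : SJ J X
  sY : SJ J Y
  pX : Per J X
  pY : Per J Y
  tt : ∀ t ∈ J, ∀ θ, ⟪pt Y t θ, pt Y t θ⟫_ℝ = ⟪pt X t θ, pt X t θ⟫_ℝ
  th : ∀ t ∈ J, ∀ θ, ⟪pt Y t θ, ph Y t θ⟫_ℝ = ⟪pt X t θ, ph X t θ⟫_ℝ
  hh : ∀ t ∈ J, ∀ θ, ⟪ph Y t θ, ph Y t θ⟫_ℝ = ⟪ph X t θ, ph X t θ⟫_ℝ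
  im : ∀ t ∈ J, ∀ θ, cN X t θ ≠ 0

/-- `u` vanishes at least to order `k` on the level `t = t₁` -/
def Van (t₁ : ℝ) (k : ℕ) (u : ℝ → ℝ → ℝ) : Prop := ∀ i < k, ∀ θ, (pt^[i] u) t₁ θ = 0

/-- `u` vanishes exactly to order `k` on the level `t = t₁`, at every point of the level -/
def Ord (t₁ : ℝ) (k : ℕ) (u : ℝ → ℝ → ℝ) : Prop := Van t₁ k u ∧ ∀ θ, (pt^[k] u) t₁ θ ≠ 0

/-- the level `t = t₁` of the strip `X` is admissible -/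
def Adm (X : ℝ → ℝ → E3) (t₁ : ℝ) : Prop :=
  ∃ j k : ℕ, Ord t₁ j (gn X) ∧ Van t₁ j (gm X) ∧ Ord t₁ k (gk X) ∧ 2 * j ≤ k + 1

/-! ## Analysis on one strip -/

/-- **TAY** (from DR2; 130 lines).  Taylor at a level, to the right, uniformly in `θ` (periodicity, compactness).  `w = u - t^k u_k(θ)/k!` vanishes to order `k + 1`, so do `t u_t - k u` (order `k+1`: its `t`-derivatives at `t₁` are `i ∂^i u - k ∂^i u`), and `u_θ`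
vanishes to order `k`.  Use the induction of `FLTM.est0` (which proves `|u| ≤ C |t - t₁|^N` from the vanishing of the first `N` derivatives, by `FLTM.step`); `FLTM.tay` is for functions of `t` alone.  The sign: `u_k(θ) ≠ 0` is continuous and periodic. -/
structure SpecTAY : Prop where
  van : ∀ {J : Set ℝ} {u : ℝ → ℝ → ℝ} {t₁ : ℝ} {k : ℕ}, IsOpen J → SJ J u → Per J u → t₁ ∈ J → Van t₁ k u →
    ∃ C δ : ℝ, 0 < C ∧ 0 < δ ∧ ∀ t ∈ Ioo 0 δ, t₁ + t ∈ J ∧ ∀ θ, |u (t₁ + t) θ| ≤ C * t ^ k ∧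
      |ph u (t₁ + t) θ| ≤ C * t ^ k ∧ |t * pt u (t₁ + t) θ - k * u (t₁ + t) θ| ≤ C * t ^ (k + 1)
  ord : ∀ {J : Set ℝ} {u : ℝ → ℝ → ℝ} {t₁ : ℝ} {k : ℕ}, IsOpen J → SJ J u → Per J u → t₁ ∈ J → Ord t₁ k u →
    ∃ c δ s : ℝ, 0 < c ∧ 0 < δ ∧ (s = 1 ∨ s = -1) ∧ ∀ t ∈ Ioo 0 δ, ∀ θ, c * t ^ k ≤ s * u (t₁ + t) θ

/-- **UN2** (from DR2, HYP, ELL of part U; 250 lines).  The linear Codazzi system in arbitrary coordinates.  `(l, m, n)` solves it, `l = (D - ν²) n + 2νm`, and so does `(sl, sm, sn)` with `sm = ν sn`, `sl = (ν² - D) sn`, `sn ≠ 0`.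
`V = m - νn`, `y = √|D| n`, `ς = sign D`, `q = √|D|`, `a = ν`; `l = (D + ν²) n + 2νV`.
`n_t = V_θ + ν n_θ + [ν_θ + A₁₁(D + ν²) + A₁₂ν + A₁₃] n + [2νA₁₁ + A₁₂] V`,
`V_t = D n_θ + ν V_θ + c₁ n + c₂ V`, `c₂ = 2ν_θ + 2ν(A₂₁ - νA₁₁) + (A₂₂ - νA₁₂)`, `c₁ = D_θ + (A₂₁ - νA₁₁) D + E₀`, `E₀ = νν_θ - ν_t + (A₂₁ - νA₁₁)ν² + (A₂₂ - νA₁₂)ν + (A₂₃ - νA₁₃)`.
The system for `(sl, sm, sn)` gives `0 = (sm - ν sn)_t = [E₀ - D_θ - (A₂₁ - νA₁₁) D] sn - D sn_θ`, so `c₁ = 2D_θ + 2(A₂₁ - νA₁₁) D + D sn_θ/sn`, hence `|c₁| ≤ C' |D|` (NOTE: no bound for `ν_t` is needed).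
`y_t = a y_θ + q V_θ + T₁`, `T₁ = [ν_θ + A₁₁(D + ν²) + A₁₂ν + A₁₃ + D_t/(2D) - νD_θ/(2D)] y + √|D| (2νA₁₁ + A₁₂) V`,
`V_t = a V_θ + ς q y_θ + T₂`, `T₂ = [-ς √|D| D_θ/(2D) + c₁/√|D|] y + c₂ V`.  All coefficients are `O(1/t)`.  `y`, `V` are flat.  Shrink `δ` (so that `t ≤ 1`), apply HYP (`D > 0`) or ELL (`D < 0`); cf. `U/UNQ.lean`, which treats orthogonal coordinates. -/
def SpecUN2 : Prop := ∀ (δ C β : ℝ) (n m l sn sm sl D ν A11 A12 A13 A21 A22 A23 : ℝ → ℝ → ℝ), 0 < δ → 0 < C → -1 ≤ β →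
  SJ (Ioo 0 δ) n → SJ (Ioo 0 δ) m → SJ (Ioo 0 δ) l → SJ (Ioo 0 δ) sn → SJ (Ioo 0 δ) sm → SJ (Ioo 0 δ) sl →
  SJ (Ioo 0 δ) D → SJ (Ioo 0 δ) ν →
  Per (Ioo 0 δ) n → Per (Ioo 0 δ) m → Per (Ioo 0 δ) l → Per (Ioo 0 δ) sn → Per (Ioo 0 δ) sm → Per (Ioo 0 δ) sl →
  Per (Ioo 0 δ) D → Per (Ioo 0 δ) ν →
  (∀ t ∈ Ioo 0 δ, ∀ θ, l t θ = (D t θ - ν t θ ^ 2) * n t θ + 2 * ν t θ * m t θ) →
  (∀ t ∈ Ioo 0 δ, ∀ θ, sm t θ = ν t θ * sn t θ ∧ sl t θ = (ν t θ ^ 2 - D t θ) * sn t θ ∧ sn t θ ≠ 0) →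
  (∀ t ∈ Ioo 0 δ, ∀ θ, pt n t θ = ph m t θ + A11 t θ * l t θ + A12 t θ * m t θ + A13 t θ * n t θ) →
  (∀ t ∈ Ioo 0 δ, ∀ θ, pt m t θ = ph l t θ + A21 t θ * l t θ + A22 t θ * m t θ + A23 t θ * n t θ) →
  (∀ t ∈ Ioo 0 δ, ∀ θ, pt sn t θ = ph sm t θ + A11 t θ * sl t θ + A12 t θ * sm t θ + A13 t θ * sn t θ) →
  (∀ t ∈ Ioo 0 δ, ∀ θ, pt sm t θ = ph sl t θ + A21 t θ * sl t θ + A22 t θ * sm t θ + A23 t θ * sn t θ) →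
  (∀ t ∈ Ioo 0 δ, ∀ θ, |A11 t θ| ≤ C ∧ |A12 t θ| ≤ C ∧ |A13 t θ| ≤ C ∧ |A21 t θ| ≤ C ∧ |A22 t θ| ≤ C ∧ |A23 t θ| ≤ C) →
  ((∀ t ∈ Ioo 0 δ, ∀ θ, 0 < D t θ) ∨ (∀ t ∈ Ioo 0 δ, ∀ θ, D t θ < 0)) →
  (∀ t ∈ Ioo 0 δ, ∀ θ, |D t θ| ≤ C / t ∧ |t * pt D t θ - β * D t θ| ≤ C * t * |D t θ| ∧ |ph D t θ| ≤ C * |D t θ| ∧
    |ν t θ| ≤ C ∧ |ph ν t θ| ≤ C ∧ |ph sn t θ| ≤ C * |sn t θ|) →
  (∀ N : ℕ, ∃ B : ℝ, ∀ t ∈ Ioo 0 δ, ∀ θ, |n t θ| + |m t θ| ≤ B * t ^ N) →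
  ∃ δ' : ℝ, 0 < δ' ∧ δ' ≤ δ ∧ ∀ t ∈ Ioo 0 δ', ∀ θ, n t θ = 0 ∧ m t θ = 0 ∧ l t θ = 0

/-- **FR2** (from DR2, CRS; 300 lines).  Codazzi and Gauss for `gl, gm, gn`.  For `Z = X, Y`: with `Γ_{ij,k} = ⟨Z_ij, Z_k⟩` (the same for `X` and `Y`: `Γ_{11,1} = E_t/2`, `Γ_{11,2} = F_t - E_θ/2`, `Γ_{12,1} = E_θ/2`, `Γ_{12,2} = G_t/2`, `Γ_{22,1} = F_θ - G_t/2`, `Γ_{22,2} = G_θ/2`),
`W² = EG - F² = |cN|²`, `W² Γ¹_ij = G Γ_{ij,1} - F Γ_{ij,2}`, `W² Γ²_ij = E Γ_{ij,2} - F Γ_{ij,1}`: `W² Z_ij = g_ij c + W² Γ¹_ij Z_t + W² Γ²_ij Z_θ` (vector identity, polynomial in the coordinates).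
`∂_t gn - ∂_θ gm = ⟨Z_θθ, c_t⟩ - ⟨Z_tθ, c_θ⟩ = [Z_22, Z_11, Z_2] + 2 [Z_22, Z_1, Z_12]`, with `[a, b, Z_2] = -β a¹ + α b¹`, `[a, Z_1, b] = -β a² + α b²` (`α, β` = products of `a, b` with `c`; `a^i` tangential components):
`A₁₁ = -Γ¹₂₂`, `A₁₂ = -2Γ²₂₂`, `A₁₃ = Γ¹₁₁ + 2Γ²₁₂`;  `∂_t gm - ∂_θ gl = 2 [Z_12, Z_11, Z_2] - [Z_11, Z_1, Z_22]`: `A₂₁ = -2Γ¹₁₂ - Γ²₂₂`, `A₂₂ = 2Γ¹₁₁`, `A₂₃ = Γ²₁₁`.
Gauss: `gk Z = W² (⟨Z_11, Z_22⟩ - |Z_12|²) - (tangential parts)`, `⟨Z_11, Z_22⟩ - |Z_12|² = ∂_θ Γ_{11,2} - ∂_t Γ_{12,2}`.  `cN Y ≠ 0` as `|cN Y|² = |cN X|²`. -/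
structure SpecFR2 : Prop where
  sm : ∀ {J : Set ℝ} {X : ℝ → ℝ → E3}, IsOpen J → SJ J X → SJ J (cN X) ∧ SJ J (gl X) ∧ SJ J (gm X) ∧ SJ J (gn X) ∧ SJ J (gk X)
  per : ∀ {J : Set ℝ} {X : ℝ → ℝ → E3}, IsOpen J → Per J X → Per J (cN X) ∧ Per J (gl X) ∧ Per J (gm X) ∧ Per J (gn X) ∧ Per J (gk X)
  cod : ∀ {J : Set ℝ} {X Y : ℝ → ℝ → E3}, IsOpen J → SI J X Y → ∃ A11 A12 A13 A21 A22 A23 : ℝ → ℝ → ℝ,
    (SJ J A11 ∧ SJ J A12 ∧ SJ J A13 ∧ SJ J A21 ∧ SJ J A22 ∧ SJ J A23) ∧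
    (Per J A11 ∧ Per J A12 ∧ Per J A13 ∧ Per J A21 ∧ Per J A22 ∧ Per J A23) ∧
    ∀ Z : ℝ → ℝ → E3, (Z = X ∨ Z = Y) → ∀ t ∈ J, ∀ θ,
      pt (gn Z) t θ = ph (gm Z) t θ + A11 t θ * gl Z t θ + A12 t θ * gm Z t θ + A13 t θ * gn Z t θ ∧
      pt (gm Z) t θ = ph (gl Z) t θ + A21 t θ * gl Z t θ + A22 t θ * gm Z t θ + A23 t θ * gn Z t θ
  gau : ∀ {J : Set ℝ} {X Y : ℝ → ℝ → E3}, IsOpen J → SI J X Y → ∀ t ∈ J, ∀ θ, gk Y t θ = gk X t θ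
  imY : ∀ {J : Set ℝ} {X Y : ℝ → ℝ → E3}, IsOpen J → SI J X Y → ∀ t ∈ J, ∀ θ, cN Y t θ ≠ 0

/-- **RT2** (from DR2, FLT, TAY, FR2, UN2; 300 lines).  Uniqueness to the right of an admissible level.  Shift: all functions at `t₁ + t`.  `n = gn Y - gn X`, `sn = gn Y + gn X`, etc.  `sn = 2 gn X + flat`, so `Ord t₁ j sn`, `Van t₁ j sm`; `Δ = sl sn - sm² = 4 gk X + flat`, so `Ord t₁ k Δ`.
`gk Y = gk X` gives `sn l + sl n = 2 sm m`, so with `ν = sm/sn`, `D = -Δ/sn²`: `l = (D - ν²) n + 2νm`.  `β = k - 2j ≥ -1`.  From TAY: `|ν|, |ν_θ| ≤ C`; `|D| ≤ C t^{k - 2j} ≤ C/t`, `|t D_t - β D| ≤ C t |D|` (as `D_t/D = Δ_t/Δ - 2 sn_t/sn`), `|D_θ| ≤ C |D|`, `|sn_θ| ≤ C |sn|`. -/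
def SpecRT2 : Prop := ∀ (J : Set ℝ) (X Y : ℝ → ℝ → E3) (t₁ : ℝ), IsOpen J → t₁ ∈ J → SI J X Y → Adm X t₁ →
  Fl t₁ (fun t θ => gl Y t θ - gl X t θ) → Fl t₁ (fun t θ => gm Y t θ - gm X t θ) → Fl t₁ (fun t θ => gn Y t θ - gn X t θ) →
  ∃ δ : ℝ, 0 < δ ∧ ∀ t ∈ Ioo t₁ (t₁ + δ), t ∈ J ∧ ∀ θ, gl Y t θ = gl X t θ ∧ gm Y t θ = gm X t θ ∧ gn Y t θ = gn X t θ

/-- **CN2** (from DR2, FR2's vector identity; 180 lines).  Equality of the forms and contact of first order at `t₁` imply equality to the right.  `P = X_t - Y_t`, `Q = X_θ - Y_θ`: by the vector identity `W² Z_ij = g_ij c + …` (same coefficients for `X` and `Y`) and `c_X - c_Y = cr P X_θ + cr Y_t Q`,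
`|P_t| + |Q_t| ≤ C (|P| + |Q|)` on `[t₁, t₂]` (`Q_t = X_tθ - Y_tθ`); Gronwall for fixed `θ`; then `(X - Y)_t = 0`. -/
def SpecCN2 : Prop := ∀ (J : Set ℝ) (X Y : ℝ → ℝ → E3) (t₁ t₂ : ℝ), IsOpen J → Ico t₁ t₂ ⊆ J → SI J X Y →
  (∀ t ∈ Ioo t₁ t₂, ∀ θ, gl Y t θ = gl X t θ ∧ gm Y t θ = gm X t θ ∧ gn Y t θ = gn X t θ) →
  (∀ θ, Y t₁ θ = X t₁ θ) → (∀ θ, pt Y t₁ θ = pt X t₁ θ) → ∀ t ∈ Ico t₁ t₂, ∀ θ, Y t θ = X t θ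

/-- **FF2** (from DR2, FLT, FR2; 100 lines).  Flat contact implies flat differences of the forms; cf. `BRGM.fl_eN`, `fl_inn`, `fl_forms` (here without normalization). -/
def SpecFF2 : Prop := ∀ (J : Set ℝ) (X Y : ℝ → ℝ → E3) (t₁ : ℝ), IsOpen J → t₁ ∈ J → SI J X Y → Fl t₁ (fun t θ => Y t θ - X t θ) →
  Fl t₁ (fun t θ => gl Y t θ - gl X t θ) ∧ Fl t₁ (fun t θ => gm Y t θ - gm X t θ) ∧ Fl t₁ (fun t θ => gn Y t θ - gn X t θ)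

/-- the strip rotated by `π` in the parameter plane -/
def rf {V : Type} (X : ℝ → ℝ → V) : ℝ → ℝ → V := fun t θ => X (-t) (-θ)

/-- **RF2** (from DR2; 150 lines).  `pt (rf X) = -rf (pt X)`, `ph (rf X) = -rf (ph X)` everywhere (chain rule for `deriv` with `-·`, true without differentiability), so `cN (rf X) = rf (cN X)`, `gl (rf X) = rf (gl X)` etc.; `pt^[i] (rf u) = (-1)^i rf (pt^[i] u)`. -/
structure SpecRF2 : Prop where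
  si : ∀ {J : Set ℝ} {X Y : ℝ → ℝ → E3}, SI J X Y → SI {t | -t ∈ J} (rf X) (rf Y)
  adm : ∀ {X : ℝ → ℝ → E3} {t₁ : ℝ}, Adm X t₁ → Adm (rf X) (-t₁)
  fl : ∀ {V : Type} [NormedAddCommGroup V] [NormedSpace ℝ V] {u : ℝ → ℝ → V} {t₁ : ℝ}, Fl t₁ u → Fl (-t₁) (rf u)
  pt0 : ∀ {V : Type} [NormedAddCommGroup V] [NormedSpace ℝ V] (u : ℝ → ℝ → V) (t θ : ℝ), pt (rf u) t θ = -pt u (-t) (-θ)
  gl0 : ∀ (X : ℝ → ℝ → E3) (t θ : ℝ), gl (rf X) t θ = gl X (-t) (-θ) ∧ gm (rf X) t θ = gm X (-t) (-θ) ∧ gn (rf X) t θ = gn X (-t) (-θ)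

/-- **STR** (from FLT, RT2, CN2, FF2, RF2; 150 lines).  THE STRIP THEOREM.  `T = {t ∈ J | Fl t (Y - X)}` is closed in `J`; it is open: FF2, RT2, CN2 to the right of `t₁ ∈ T` (contact of first order at `t₁` from flatness), and for `rf X, rf Y` to the left; so `Y = X` on a neighbourhood of the level `t₁`,
which gives `Fl t` nearby.  `J` is preconnected, so `T = J`; then `Y = X` (`k = 0`).  Cf. `hPRP` (propagation), `GLBM`. -/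
def SpecSTR : Prop := ∀ (J : Set ℝ) (X Y : ℝ → ℝ → E3) (t₀ : ℝ), IsOpen J → J.OrdConnected → SI J X Y → (∀ t ∈ J, Adm X t) →
  t₀ ∈ J → Fl t₀ (fun t θ => Y t θ - X t θ) → ∀ t ∈ J, ∀ θ, Y t θ = X t θ

/-- a nondegenerate convex rim at the level `t₀`: `X_θ = R (cos θ u₁ + sin θ u₂)`, `X_t = s (-sin θ u₁ + cos θ u₂)`, `s = ±1` -/
def RimAt (X : ℝ → ℝ → E3) (t₀ : ℝ) : Prop := ∃ (R : ℝ → ℝ) (u₁ u₂ : E3) (s : ℝ), ‖u₁‖ = 1 ∧ ‖u₂‖ = 1 ∧ ⟪u₁, u₂⟫_ℝ = 0 ∧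
  (s = 1 ∨ s = -1) ∧ (∀ θ, 0 < R θ) ∧ (∀ θ, ph X t₀ θ = R θ • (cos θ • u₁ + sin θ • u₂)) ∧
  (∀ θ, pt X t₀ θ = s • (-sin θ • u₁ + cos θ • u₂)) ∧ ∀ θ, ⟪pt (pt X) t₀ θ, cr u₁ u₂⟫_ℝ ≠ 0

/-- **RM2** (from `iso`, `BRGM`; 120 lines).  The start: as `bridge` in `U/BRG.lean`, with the metric of `SI` instead of `Str`, and the conclusion is the flatness of `W - X` (which is `f0` in the proof of `bridge`). -/
def SpecRM2 : Prop := ∀ (J : Set ℝ) (X : ℝ → ℝ → E3) (t₀ : ℝ), IsOpen J → t₀ ∈ J → SJ J X → Per J X → RimAt X t₀ → ∃ ε : ℝ, 0 < ε ∧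
  ∀ Y : ℝ → ℝ → E3, SI J X Y → ClJ ε t₀ X Y → ∃ (g : E3 ≃ₗᵢ[ℝ] E3) (b : E3), (∀ x y, cr (g x) (g y) = g (cr x y)) ∧
    Fl t₀ (fun t θ => (g (Y t θ) + b) - X t θ) ∧ SI J X (fun t θ => g (Y t θ) + b)

/-! ## Manifolds -/

section
variable {M : Type} [TopologicalSpace M] [ChartedSpace E2 M]

/-- `f` is an immersion with positive Gauss curvature at `x`: `L₁₁ L₂₂ - L₁₂² > 0` in some local coordinates `ψ` -/
def PosC (f : M → E3) (x : M) : Prop := ∃ ψ : ℝ × ℝ → M, ContMDiffAt 𝓘(ℝ, ℝ × ℝ) 𝓘(ℝ, E2) ∞ ψ 0 ∧ ψ 0 = x ∧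
  0 < gk (fun t θ => f (ψ (t, θ))) 0 0

/-- `f₀` and `f₁` agree near `x` -/
def Agr (f₀ f₁ : M → E3) (x : M) : Prop := ∀ᶠ y in 𝓝 x, f₁ y = f₀ y

/-- a strip on `M`, immersed by `f` -/
structure MStrip (f : M → E3) (J : Set ℝ) (ψ : ℝ × ℝ → M) : Prop where
  oJ : IsOpen J
  cJ : J.OrdConnected
  sm : ContMDiffOn 𝓘(ℝ, ℝ × ℝ) 𝓘(ℝ, E2) ∞ ψ (J ×ˢ univ)
  per : ∀ t ∈ J, ∀ θ, ψ (t, θ + 2 * π) = ψ (t, θ)
  im : ∀ t ∈ J, ∀ θ, cN (fun t θ => f (ψ (t, θ))) t θ ≠ 0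

end

/-- **PCV** (250 lines).  The sign of `K` does not depend on the coordinates.  `ψ` smooth at `p` (into `M`), `x = ψ p`, `cN (f ∘ ψ) p ≠ 0`.  In the chart `φ = extChartAt x`: `F = f ∘ φ.symm`, `Φ = φ ∘ ψ`, `f ∘ ψ = F ∘ Φ` near `p`.
If `ν ⊥ range DF` then `⟨ν, (F∘Φ)_ij⟩ = B(Φ_i, Φ_j)`, `B = ⟨ν, D²F⟩` symmetric, so `det = det B · det(Φ_t, Φ_θ)²`; `ν = cN` of one coordinate system is a multiple `≠ 0` of `cN` of the other (both are orthogonal to the range of `DF`, which is 2-dimensional). -/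
def SpecPCV : Prop := ∀ {M : Type} [TopologicalSpace M] [ChartedSpace E2 M] [IsManifold 𝓘(ℝ, E2) ∞ M] (f : M → E3) (ψ : ℝ × ℝ → M)
  (p : ℝ × ℝ), ContMDiff 𝓘(ℝ, E2) 𝓘(ℝ, E3) ∞ f → ContMDiffAt 𝓘(ℝ, ℝ × ℝ) 𝓘(ℝ, E2) ∞ ψ p →
  cN (fun t θ => f (ψ (t, θ))) p.1 p.2 ≠ 0 → (PosC f (ψ p) ↔ 0 < gk (fun t θ => f (ψ (t, θ))) p.1 p.2)

/-- **OPM** (100 lines).  Strips are open: in a chart `ψ` has an invertible derivative (`D(f ∘ ψ)` is injective as `cN ≠ 0`), `HasStrictFDerivAt.map_nhds_eq_of_surj`; cf. `MAN.lean`.  Neighbourhood form, and the images are open. -/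
structure SpecOPM : Prop where
  nb : ∀ {M : Type} [TopologicalSpace M] [ChartedSpace E2 M] [IsManifold 𝓘(ℝ, E2) ∞ M] (f : M → E3) (ψ : ℝ × ℝ → M)
    (p : ℝ × ℝ), ContMDiff 𝓘(ℝ, E2) 𝓘(ℝ, E3) ∞ f → ContMDiffAt 𝓘(ℝ, ℝ × ℝ) 𝓘(ℝ, E2) ∞ ψ p →
    cN (fun t θ => f (ψ (t, θ))) p.1 p.2 ≠ 0 → map ψ (𝓝 p) = 𝓝 (ψ p)
  op : ∀ {M : Type} [TopologicalSpace M] [ChartedSpace E2 M] [IsManifold 𝓘(ℝ, E2) ∞ M] (f : M → E3) (J : Set ℝ) (ψ : ℝ × ℝ → M),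
    ContMDiff 𝓘(ℝ, E2) 𝓘(ℝ, E3) ∞ f → MStrip f J ψ → IsOpen (ψ '' (J ×ˢ univ))

/-- **POL** (from PCV, OPM; 200 lines).  Polar strips.  `x` with `PosC f x`.  `φ = extChartAt x`, `R > 0` such that the ball of radius `2R` around `φ x` lies in `φ.target` and `PosC f` holds on it: the coordinates `ψ₀(t, θ) = φ.symm (φ x + (t, θ))` have `gk > 0` at `0` (PCV),
so near `0` by continuity.  For `y` near `x`, `y ≠ x`: `ψ(t, θ) = φ.symm (φ y + t (cos θ, sin θ))`, `J = (0, R)`: `ψ_t, ψ_θ` independent as `t > 0` (`cN ≠ 0` by the chain rule: `cN (F ∘ Φ) = det DΦ · cr (F₁) (F₂)`), `gk > 0` by PCV.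
Conclusion in the form needed: near `x`, each `y` is the centre of a polar strip which contains `x` and whose small levels are near `y`. -/
def SpecPOL : Prop := ∀ {M : Type} [TopologicalSpace M] [ChartedSpace E2 M] [IsManifold 𝓘(ℝ, E2) ∞ M] (f : M → E3) (x : M),
  ContMDiff 𝓘(ℝ, E2) 𝓘(ℝ, E3) ∞ f → PosC f x → ∀ᶠ y in 𝓝 x, PosC f y ∧ (y ≠ x → ∃ (R : ℝ) (ψ : ℝ × ℝ → M), 0 < R ∧
    MStrip f (Ioo 0 R) ψ ∧ (∀ t ∈ Ioo 0 R, ∀ θ, 0 < gk (fun t θ => f (ψ (t, θ))) t θ) ∧ x ∈ ψ '' (Ioo 0 R ×ˢ univ) ∧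
    ∀ U ∈ 𝓝 y, ∃ r ∈ Ioo 0 R, ∀ θ, ψ (r, θ) ∈ U)

/-- **MLV** (from STR, PCV, OPM, POL; 250 lines).  The topological part.  `SI J (f₀ ∘ ψ) (f₁ ∘ ψ)` for every strip (`REMM.iso_comp` in `M/REM.lean`, `BNDM.slice_sm`).
(a) A strip `(J, ψ)` with admissible levels, one level `t₂` of which consists of points with `Agr`: `Y = X` near the level (compactness of `[0, 2π]`, or: all `t`-derivatives of `Y - X` vanish at `(t₂, θ)` because `Y = X` near `(t₂, θ)`), so `Fl t₂ (Y - X)`, STR: `Y = X` on `J`, and `Agr` at all points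
of the strip (it is open).  A level with `gk > 0` everywhere is admissible (`j = k = 0`).
(b) `PosC x`, `x ∈ closure {Agr}` imply `Agr x`: POL and (a) (`U = {Agr}`, which is open).
(c) `U = {x | PosC f₀ x ∨ ∃ i, x ∈ ψ i '' (J i ×ˢ univ)}`, `B = {x | PosC ∧ Agr} ∪ ⋃ {strips contained in {Agr}}`: open (PosC is open by POL), and closed in `U`: for `x ∈ closure B`, `x ∈ U`: if `PosC x`, (b).  Otherwise `x` lies in the strip `i`, which meets `B` in a point `y = ψ i (t₂, θ₂)`.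
If `PosC y ∧ Agr y`: `gk > 0` at `y`, so the order of `gk` on the level `t₂` is `0`, and `gk > 0` on the level (connected), so the level is a connected set (image of `ℝ`) in `{PosC}` which meets `{Agr}`: by (b) `{Agr}` is closed in `{PosC}`, so the level lies in `{Agr}`: (a).
If `y` is in a strip `j` contained in `{Agr}`, not `PosC`: `j = i` by `hdis`.  So `x ∈ B`.  `U` is preconnected, `B ≠ ∅` (the strip `i₀`, by (a) and STR), so `U ⊆ B` (`IsPreconnected.subset_of_closure_inter_subset`).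
(d) `U` is dense, `f₀`, `f₁` continuous: `f₁ = f₀`. -/
def SpecMLV : Prop := ∀ {M : Type} [TopologicalSpace M] [ChartedSpace E2 M] [IsManifold 𝓘(ℝ, E2) ∞ M] (f₀ f₁ : M → E3)
  (ι : Type) (J : ι → Set ℝ) (ψ : ι → ℝ × ℝ → M) (i₀ : ι) (t₀ : ℝ),
  ContMDiff 𝓘(ℝ, E2) 𝓘(ℝ, E3) ∞ f₀ → ContMDiff 𝓘(ℝ, E2) 𝓘(ℝ, E3) ∞ f₁ →
  (∀ (x : M) (v : TangentSpace 𝓘(ℝ, E2) x), ‖dF f₁ x v‖ = ‖dF f₀ x v‖) →
  (∀ i, MStrip f₀ (J i) (ψ i)) → (∀ i, ∀ t ∈ J i, Adm (fun t θ => f₀ (ψ i (t, θ))) t) →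
  (∀ i j, i ≠ j → ∀ x ∈ ψ i '' (J i ×ˢ univ), x ∈ ψ j '' (J j ×ˢ univ) → PosC f₀ x) →
  IsPreconnected {x | PosC f₀ x ∨ ∃ i, x ∈ ψ i '' (J i ×ˢ univ)} → Dense {x | PosC f₀ x ∨ ∃ i, x ∈ ψ i '' (J i ×ˢ univ)} →
  t₀ ∈ J i₀ → Fl t₀ (fun t θ => f₁ (ψ i₀ (t, θ)) - f₀ (ψ i₀ (t, θ))) → ∀ x, f₁ x = f₀ x

end Rim478
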